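import Mathlib

/-!
# The algebraic core of the monotonicity of `M = DF/F` at its negative values

`F = ∑ T j + a0` etc.: inside terms `T j` with logarithmic derivatives `M j` (and `D (M j) = D' j`),
and outside contributions `a0, a1, a2` of `E`, `(D - k) E`, `(D - k)^2 E`.
-/

namespace SokalBPlus

open Finset

/-- `S = ∑ (M j - M μ) T j` is not small at a point where `(D + m) F = 0`. -/
theorem S_lower {ι : Type*} [DecidableEq ι] {s : Finset ι} {T M : ι → ℂ} {μ ν : ι} (hμ : μ ∈ s)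
    (hν : ν ∈ s) (hμν : μ ≠ ν) {k m K ε : ℝ} (hk : 0 < k) (hm : 0 < m) (hK : 0 ≤ K) (hKk : K ≤ k)
    (hε : ε ≤ 1 / 100) {F F1 a0 a1 : ℂ}
    (hF : F = ∑ j ∈ s, T j + a0) (hF1 : F1 = ∑ j ∈ s, M j * T j + (a1 + k * a0))
    (hG : F1 + m * F = 0) (hMμ : ‖M μ - k‖ ≤ K / 10)
    (ha0 : ‖a0‖ ≤ ε * ‖T μ‖) (ha1 : ‖a1‖ ≤ ε * K * ‖T μ‖)
    (hΔ : ‖M ν - M μ‖ ≤ k / 10) (hΔ0 : M ν ≠ M μ) (hT0 : T μ ≠ 0)
    (h1 : ∑ j ∈ (s.erase μ).erase ν, ‖M j - M ν‖ * ‖T j‖ ≤ 3 / 4 * (‖M ν - M μ‖ * ‖T μ‖)) :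
    1 / 10 * (‖M ν - M μ‖ * ‖T μ‖) < ‖∑ j ∈ s, (M j - M μ) * T j‖ := by
  set S := ∑ j ∈ s, (M j - M μ) * T j with hS
  set Δ := M ν - M μ with hΔdef
  have hΔpos : 0 < ‖Δ‖ := norm_pos_iff.2 (sub_ne_zero.2 hΔ0)
  have hTpos : 0 < ‖T μ‖ := norm_pos_iff.2 hT0
  by_contra hcon
  have hcon' : ‖S‖ ≤ 1 / 10 * (‖Δ‖ * ‖T μ‖) := not_lt.1 hcon
  -- `R F = - S - b`
  set b := a1 + (k - M μ) * a0 with hb
  have hSF : (M μ + m) * F = -S - b := by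
    have h2 : S = ∑ j ∈ s, M j * T j - M μ * ∑ j ∈ s, T j := by
      rw [hS, Finset.mul_sum, ← Finset.sum_sub_distrib]
      refine Finset.sum_congr rfl fun j _ => ?_
      ring
    have h3 : ∑ j ∈ s, M j * T j = F1 - (a1 + k * a0) := by rw [hF1]; ring
    have h4 : ∑ j ∈ s, T j = F - a0 := by rw [hF]; ring
    rw [h2, h3, h4, hb]
    linear_combination hG
  have hbn : ‖b‖ ≤ 11 / 10 * (ε * K * ‖T μ‖) := by
    have h2 : ‖b‖ ≤ ‖a1‖ + ‖(k : ℂ) - M μ‖ * ‖a0‖ := by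
      rw [hb]
      refine (norm_add_le _ _).trans ?_
      rw [norm_mul]
    have h3 : ‖(k : ℂ) - M μ‖ ≤ K / 10 := by rw [norm_sub_rev]; exact hMμ
    have h4 : ‖(k : ℂ) - M μ‖ * ‖a0‖ ≤ K / 10 * (ε * ‖T μ‖) :=
      mul_le_mul h3 ha0 (norm_nonneg _) (by positivity)
    nlinarith
  have hR : 9 / 10 * k ≤ ‖M μ + m‖ := by
    have h2 : ‖(k : ℂ) + m‖ ≤ ‖M μ + m‖ + ‖M μ - k‖ := by
      have h3 := norm_sub_le (M μ + m) (M μ - k)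
      rwa [show M μ + (m : ℂ) - (M μ - k) = k + m by ring] at h3
    have h3 : ‖(k : ℂ) + m‖ = k + m := by
      rw [← Complex.ofReal_add, Complex.norm_real, Real.norm_of_nonneg (by positivity)]
    rw [h3] at h2
    linarith
  have hFn : 9 / 10 * k * ‖F‖ ≤ ‖S‖ + ‖b‖ := by
    have h2 : ‖M μ + m‖ * ‖F‖ ≤ ‖S‖ + ‖b‖ := by
      rw [← norm_mul, hSF, ← neg_add', norm_neg]
      exact norm_add_le _ _
    have h3 : 9 / 10 * k * ‖F‖ ≤ ‖M μ + m‖ * ‖F‖ := by gcongr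
    linarith
  have hsumT : ‖∑ j ∈ s, T j‖ ≤ ‖F‖ + ‖a0‖ := by
    rw [show ∑ j ∈ s, T j = F - a0 by rw [hF]; ring]
    exact norm_sub_le _ _
  have hFn2 : ‖F‖ ≤ 3 / 100 * ‖T μ‖ := by
    have h2 : ‖S‖ + ‖b‖ ≤ (1 / 100 + 11 / 1000) * k * ‖T μ‖ := by
      have h3 : 1 / 10 * (‖Δ‖ * ‖T μ‖) ≤ 1 / 100 * k * ‖T μ‖ := by nlinarith
      have h4 : ε * K ≤ 1 / 100 * k := by nlinarith
      have h5 : 11 / 10 * (ε * K * ‖T μ‖) ≤ 11 / 1000 * k * ‖T μ‖ := by nlinarith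
      linarith
    have h3 : 9 / 10 * k * ‖F‖ ≤ 9 / 10 * k * (3 / 100 * ‖T μ‖) := by
      have h4 : 0 ≤ k * ‖T μ‖ := by positivity
      nlinarith
    exact le_of_mul_le_mul_left h3 (by positivity)
  have hsumT2 : ‖∑ j ∈ s, T j‖ ≤ 4 / 100 * ‖T μ‖ := by nlinarith
  -- isolate the term `μ`
  have hid : Δ * T μ = -(S - Δ * ∑ j ∈ s, T j) +
      ∑ j ∈ (s.erase μ).erase ν, (M j - M ν) * T j := by
    have h2 : S - Δ * ∑ j ∈ s, T j = ∑ j ∈ s, (M j - M ν) * T j := by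
      rw [hS, Finset.mul_sum, ← Finset.sum_sub_distrib]
      refine Finset.sum_congr rfl fun j _ => ?_
      rw [hΔdef]
      ring
    have h3 : ∑ j ∈ s, (M j - M ν) * T j = (M μ - M ν) * T μ +
        ∑ j ∈ (s.erase μ).erase ν, (M j - M ν) * T j := by
      rw [← Finset.add_sum_erase s _ hμ]
      congr 1
      rw [← Finset.add_sum_erase (s.erase μ) _ (Finset.mem_erase.2 ⟨hμν.symm, hν⟩)]
      ring
    rw [h2, h3, hΔdef]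
    ring
  have hfin : ‖Δ * T μ‖ ≤ 1 / 10 * (‖Δ‖ * ‖T μ‖) + ‖Δ‖ * (4 / 100 * ‖T μ‖) +
      3 / 4 * (‖Δ‖ * ‖T μ‖) := by
    rw [hid]
    refine (norm_add_le _ _).trans (add_le_add ?_ ?_)
    · rw [norm_neg]
      refine (norm_sub_le _ _).trans (add_le_add hcon' ?_)
      rw [norm_mul]
      gcongr
    · refine (norm_sum_le _ _).trans ?_
      refine le_trans (Finset.sum_le_sum fun j _ => ?_) h1
      rw [norm_mul]
  rw [norm_mul] at hfin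
  have hpos : 0 < ‖Δ‖ * ‖T μ‖ := mul_pos hΔpos hTpos
  nlinarith

/-- The core: at a point where `(D + m) F = 0`, `F ≠ 0`, the real part of `(F2 - m^2 F) / F` is
negative. -/
theorem core {ι : Type*} [DecidableEq ι] {s : Finset ι} {T M D' : ι → ℂ} {μ ν : ι} (hμ : μ ∈ s)
    (hν : ν ∈ s) (hμν : μ ≠ ν) {k m K ε CQ CT B : ℝ} (hk : 0 < k) (hm : 0 < m) (hK : 0 ≤ K)
    (hKk : K ≤ k) (hB : 0 ≤ B) (hε0 : 0 ≤ ε) (hε : ε ≤ 1 / 100) {F F1 F2 a0 a1 a2 : ℂ}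
    (hF : F = ∑ j ∈ s, T j + a0) (hF1 : F1 = ∑ j ∈ s, M j * T j + (a1 + k * a0))
    (hF2 : F2 = ∑ j ∈ s, (M j ^ 2 + D' j) * T j + (a2 + 2 * k * a1 + k ^ 2 * a0))
    (hG : F1 + m * F = 0) (hMμ : ‖M μ - k‖ ≤ K / 10)
    (ha0 : ‖a0‖ ≤ ε * ‖T μ‖) (ha1 : ‖a1‖ ≤ ε * K * ‖T μ‖) (ha2 : ‖a2‖ ≤ ε * K * k * ‖T μ‖)
    (hCQ : 1 ≤ CQ)
    (hΔ : CQ * ‖M ν - M μ‖ ≤ k * (3 / 1000)) (hΔ0 : M ν ≠ M μ) (hT0 : T μ ≠ 0)
    (hW : B * CT ≤ k * (3 / 1000) * ‖M ν - M μ‖) (hεΔ : ε * K ≤ 1 / 1000 * ‖M ν - M μ‖)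
    (h1 : ∑ j ∈ (s.erase μ).erase ν, ‖M j - M ν‖ * ‖T j‖ ≤ 3 / 4 * (‖M ν - M μ‖ * ‖T μ‖))
    (h2 : ∑ j ∈ s, ‖M j - M μ‖ ^ 2 * ‖T j‖ ≤ CQ * (‖M ν - M μ‖ ^ 2 * ‖T μ‖))
    (h3 : ∑ j ∈ s, ‖T j‖ ≤ CT * ‖T μ‖) (h4 : ∀ j ∈ s, ‖D' j‖ ≤ B) :
    ((F2 - m ^ 2 * F) / F).re < 0 := by
  have hΔk : ‖M ν - M μ‖ ≤ k / 10 := by
    have : ‖M ν - M μ‖ ≤ CQ * ‖M ν - M μ‖ := le_mul_of_one_le_left (norm_nonneg _) hCQ
    linarith
  have hSlow := S_lower hμ hν hμν hk hm hK hKk hε hF hF1 hG hMμ ha0 ha1 hΔk hΔ0 hT0 h1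
  set S := ∑ j ∈ s, (M j - M μ) * T j with hS
  set Δ := M ν - M μ with hΔdef
  have hΔpos : 0 < ‖Δ‖ := norm_pos_iff.2 (sub_ne_zero.2 hΔ0)
  have hTpos : 0 < ‖T μ‖ := norm_pos_iff.2 hT0
  have hSpos : 0 < ‖S‖ := lt_of_le_of_lt (by positivity) hSlow
  have hS0 : S ≠ 0 := norm_pos_iff.1 hSpos
  set R := M μ + m with hR
  set b := a1 + (k - M μ) * a0 with hb
  set Q := ∑ j ∈ s, (M j - M μ) ^ 2 * T j with hQ
  set W := ∑ j ∈ s, D' j * T j with hWdef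
  set o2 := a2 + (k - M μ) * a1 + (k + m) * b with ho2
  have hmain : F2 - m ^ 2 * F = R * S + Q + W + o2 := by
    have e1 : S = ∑ j ∈ s, M j * T j - M μ * ∑ j ∈ s, T j := by
      rw [hS, Finset.mul_sum, ← Finset.sum_sub_distrib]
      refine Finset.sum_congr rfl fun j _ => ?_
      ring
    have e2 : Q = ∑ j ∈ s, (M j ^ 2 + D' j) * T j - W - 2 * M μ * ∑ j ∈ s, M j * T j +
        M μ ^ 2 * ∑ j ∈ s, T j := by
      rw [hQ, hWdef, Finset.mul_sum, Finset.mul_sum, ← Finset.sum_sub_distrib,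
        ← Finset.sum_sub_distrib, ← Finset.sum_add_distrib]
      refine Finset.sum_congr rfl fun j _ => ?_
      ring
    have e3 : ∑ j ∈ s, M j * T j = F1 - (a1 + k * a0) := by rw [hF1]; ring
    have e4 : ∑ j ∈ s, T j = F - a0 := by rw [hF]; ring
    have e5 : ∑ j ∈ s, (M j ^ 2 + D' j) * T j = F2 - (a2 + 2 * k * a1 + k ^ 2 * a0) := by
      rw [hF2]; ring
    rw [e2, e1, e5, e3, e4, ho2, hb, hR]
    linear_combination (M μ - m) * hG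
  have hSF : R * F = -(S + b) := by
    have e1 : S = ∑ j ∈ s, M j * T j - M μ * ∑ j ∈ s, T j := by
      rw [hS, Finset.mul_sum, ← Finset.sum_sub_distrib]
      refine Finset.sum_congr rfl fun j _ => ?_
      ring
    have e3 : ∑ j ∈ s, M j * T j = F1 - (a1 + k * a0) := by rw [hF1]; ring
    have e4 : ∑ j ∈ s, T j = F - a0 := by rw [hF]; ring
    rw [e1, e3, e4, hb, hR]
    linear_combination hG
  have hkM : ‖(k : ℂ) - M μ‖ ≤ K / 10 := by rw [norm_sub_rev]; exact hMμ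
  have hbn : ‖b‖ ≤ 11 / 10 * (ε * K * ‖T μ‖) := by
    have g1 : ‖b‖ ≤ ‖a1‖ + ‖(k : ℂ) - M μ‖ * ‖a0‖ := by
      rw [hb]
      refine (norm_add_le _ _).trans ?_
      rw [norm_mul]
    have g2 : ‖(k : ℂ) - M μ‖ * ‖a0‖ ≤ K / 10 * (ε * ‖T μ‖) :=
      mul_le_mul hkM ha0 (norm_nonneg _) (by positivity)
    nlinarith
  have hkm : 0 < k + m := by positivity
  -- `R = (k + m)(1 + ζ)`
  set ζ := (M μ - k) / (k + m : ℝ) with hζ
  have hkmC : ((k + m : ℝ) : ℂ) ≠ 0 := by exact_mod_cast hkm.ne'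
  have hRζ : R = (k + m : ℝ) * (1 + ζ) := by
    rw [hζ, hR, mul_add, mul_div_cancel₀ _ hkmC]
    push_cast
    ring
  have hζn : ‖ζ‖ ≤ 1 / 10 := by
    rw [hζ, norm_div, Complex.norm_real, Real.norm_of_nonneg hkm.le, div_le_iff₀ hkm]
    linarith
  have hRn : 9 / 10 * (k + m) ≤ ‖R‖ := by
    rw [hRζ, norm_mul, Complex.norm_real, Real.norm_of_nonneg hkm.le]
    have : 1 - ‖ζ‖ ≤ ‖1 + ζ‖ := by
      have := norm_sub_le (1 + ζ) ζ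
      rw [add_sub_cancel_right, norm_one] at this
      linarith
    nlinarith
  have hRpos : 0 < ‖R‖ := lt_of_lt_of_le (by positivity) hRn
  have hR0 : R ≠ 0 := norm_pos_iff.1 hRpos
  have hQn : ‖Q‖ ≤ CQ * (‖Δ‖ ^ 2 * ‖T μ‖) := by
    refine (norm_sum_le _ _).trans (le_trans (Finset.sum_le_sum fun j _ => ?_) h2)
    rw [norm_mul, norm_pow]
  have hWn : ‖W‖ ≤ B * (CT * ‖T μ‖) := by
    refine (norm_sum_le _ _).trans ?_
    calc ∑ j ∈ s, ‖D' j * T j‖ ≤ ∑ j ∈ s, B * ‖T j‖ := by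
          refine Finset.sum_le_sum fun j hj => ?_
          rw [norm_mul]
          exact mul_le_mul_of_nonneg_right (h4 j hj) (norm_nonneg _)
      _ = B * ∑ j ∈ s, ‖T j‖ := by rw [Finset.mul_sum]
      _ ≤ B * (CT * ‖T μ‖) := by gcongr
  have ho2n : ‖o2‖ ≤ 22 / 10 * (ε * K * (k + m) * ‖T μ‖) := by
    have g1 : ‖o2‖ ≤ ‖a2‖ + ‖(k : ℂ) - M μ‖ * ‖a1‖ + (k + m) * ‖b‖ := by
      rw [ho2]
      refine (norm_add_le _ _).trans (add_le_add ?_ ?_)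
      · refine (norm_add_le _ _).trans ?_
        rw [norm_mul]
      · rw [norm_mul, ← Complex.ofReal_add, Complex.norm_real, Real.norm_of_nonneg hkm.le]
    have g2 : ‖(k : ℂ) - M μ‖ * ‖a1‖ ≤ K / 10 * (ε * K * ‖T μ‖) :=
      mul_le_mul hkM ha1 (norm_nonneg _) (by positivity)
    have g3 : (k + m) * ‖b‖ ≤ (k + m) * (11 / 10 * (ε * K * ‖T μ‖)) := by gcongr
    have g4 : ε * K * k * ‖T μ‖ ≤ ε * K * (k + m) * ‖T μ‖ := by
      have : k ≤ k + m := by linarith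
      gcongr
    have g7 : 0 ≤ ε * K * ‖T μ‖ := by positivity
    have g8 : K / 10 * (ε * K * ‖T μ‖) ≤ 1 / 10 * (ε * K * (k + m) * ‖T μ‖) := by
      have : K ≤ k + m := by linarith
      calc K / 10 * (ε * K * ‖T μ‖) ≤ (k + m) / 10 * (ε * K * ‖T μ‖) := by gcongr
        _ = 1 / 10 * (ε * K * (k + m) * ‖T μ‖) := by ring
    have g9 : (k + m) * (11 / 10 * (ε * K * ‖T μ‖)) = 11 / 10 * (ε * K * (k + m) * ‖T μ‖) := by
      ring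
    linarith
  -- the two errors
  set x := (Q + W + o2) / (R * S) with hx
  set y := b / S with hy
  have hden : 9 / 100 * (k + m) * (‖Δ‖ * ‖T μ‖) ≤ ‖R * S‖ := by
    rw [norm_mul]
    calc 9 / 100 * (k + m) * (‖Δ‖ * ‖T μ‖) = 9 / 10 * (k + m) * (1 / 10 * (‖Δ‖ * ‖T μ‖)) := by ring
      _ ≤ ‖R‖ * ‖S‖ := by gcongr
  have hxn : ‖x‖ ≤ 1 / 10 := by
    rw [hx, norm_div, div_le_iff₀ (by rw [norm_mul]; positivity)]
    have g1 : ‖Q + W + o2‖ ≤ ‖Q‖ + ‖W‖ + ‖o2‖ :=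
      (norm_add_le _ _).trans (add_le_add (norm_add_le _ _) le_rfl)
    have g2 : CQ * (‖Δ‖ ^ 2 * ‖T μ‖) ≤ 3 / 1000 * (k + m) * (‖Δ‖ * ‖T μ‖) := by
      calc CQ * (‖Δ‖ ^ 2 * ‖T μ‖) = (CQ * ‖Δ‖) * (‖Δ‖ * ‖T μ‖) := by ring
        _ ≤ (k * (3 / 1000)) * (‖Δ‖ * ‖T μ‖) := by gcongr
        _ ≤ 3 / 1000 * (k + m) * (‖Δ‖ * ‖T μ‖) := by
          have : 0 ≤ m * (‖Δ‖ * ‖T μ‖) := by positivity
          nlinarith
    have g3 : B * (CT * ‖T μ‖) ≤ 3 / 1000 * (k + m) * (‖Δ‖ * ‖T μ‖) := by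
      calc B * (CT * ‖T μ‖) = (B * CT) * ‖T μ‖ := by ring
        _ ≤ (k * (3 / 1000) * ‖Δ‖) * ‖T μ‖ := by gcongr
        _ ≤ 3 / 1000 * (k + m) * (‖Δ‖ * ‖T μ‖) := by
          have : 0 ≤ m * (‖Δ‖ * ‖T μ‖) := by positivity
          nlinarith
    have g4 : 22 / 10 * (ε * K * (k + m) * ‖T μ‖) ≤ 3 / 1000 * (k + m) * (‖Δ‖ * ‖T μ‖) := by
      calc 22 / 10 * (ε * K * (k + m) * ‖T μ‖) = 22 / 10 * (ε * K) * ((k + m) * ‖T μ‖) := by ring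
        _ ≤ 22 / 10 * (1 / 1000 * ‖Δ‖) * ((k + m) * ‖T μ‖) := by gcongr
        _ ≤ 3 / 1000 * (k + m) * (‖Δ‖ * ‖T μ‖) := by
          have : 0 ≤ (k + m) * (‖Δ‖ * ‖T μ‖) := by positivity
          nlinarith
    nlinarith
  have hyn : ‖y‖ ≤ 1 / 10 := by
    rw [hy, norm_div, div_le_iff₀ hSpos]
    have g1 : 11 / 10 * (ε * K * ‖T μ‖) ≤ 11 / 10 * (1 / 1000 * ‖Δ‖ * ‖T μ‖) := by gcongr
    have g2 : 0 ≤ ‖Δ‖ * ‖T μ‖ := by positivity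
    nlinarith
  -- the final identity
  have h1y : 1 + y ≠ 0 := by
    intro h
    have : ‖(1 : ℂ)‖ ≤ 1 / 10 := by
      rw [show (1 : ℂ) = -y by linear_combination h, norm_neg]
      exact hyn
    rw [norm_one] at this
    norm_num at this
  have hid : (F2 - m ^ 2 * F) / F = -(((k + m : ℝ) : ℂ) ^ 2 * ((1 + ζ) ^ 2 * ((1 + x) / (1 + y)))) := by
    have e1 : F = -(S * (1 + y)) / R := by
      rw [eq_div_iff hR0, mul_comm F R, hSF, hy]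
      field_simp
    have e2 : F2 - m ^ 2 * F = R * S * (1 + x) := by
      rw [hmain, hx]
      field_simp
      ring
    have e3 : ((k + m : ℝ) : ℂ) ^ 2 * ((1 + ζ) ^ 2 * ((1 + x) / (1 + y))) =
        R ^ 2 * ((1 + x) / (1 + y)) := by
      rw [hRζ]; ring
    rw [e3, e2, e1]
    field_simp
  rw [hid, Complex.neg_re, neg_lt_zero, ← Complex.ofReal_pow, Complex.re_ofReal_mul]
  refine mul_pos (by positivity) ?_
  set p := (1 + ζ) ^ 2 * ((1 + x) / (1 + y)) with hp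
  have hpn : ‖p - 1‖ < 1 := by
    have g1 : ‖1 + y‖ ≥ 9 / 10 := by
      have := norm_sub_le (1 + y) y
      rw [add_sub_cancel_right, norm_one] at this
      linarith
    have g2 : (1 + x) / (1 + y) - 1 = (x - y) / (1 + y) := by
      field_simp
      ring
    have g3 : ‖(1 + x) / (1 + y) - 1‖ ≤ 2 / 9 := by
      rw [g2, norm_div, div_le_iff₀ (by linarith)]
      have := norm_sub_le x y
      linarith
    have g4 : ‖(1 + ζ) ^ 2 - 1‖ ≤ 21 / 100 := by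
      rw [show (1 + ζ) ^ 2 - 1 = ζ * (2 + ζ) by ring, norm_mul]
      have : ‖2 + ζ‖ ≤ 2 + ‖ζ‖ := by
        refine (norm_add_le _ _).trans ?_
        norm_num
      nlinarith [norm_nonneg ζ]
    have g5 : p - 1 = ((1 + ζ) ^ 2 - 1) * ((1 + x) / (1 + y) - 1) + ((1 + ζ) ^ 2 - 1) +
        ((1 + x) / (1 + y) - 1) := by rw [hp]; ring
    rw [g5]
    refine lt_of_le_of_lt ((norm_add_le _ _).trans (add_le_add (norm_add_le _ _) le_rfl)) ?_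
    rw [norm_mul]
    nlinarith [norm_nonneg ((1 + ζ) ^ 2 - 1), norm_nonneg ((1 + x) / (1 + y) - 1)]
  have hre : 1 - p.re ≤ ‖p - 1‖ := by
    have := Complex.abs_re_le_norm (p - 1)
    rw [Complex.sub_re, Complex.one_re] at this
    have := neg_abs_le (p.re - 1)
    linarith
  linarith

end SokalBPlus
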