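import Pool.Agent.Lib_MP_af4de1_u.Lifts

/-!
# The second derivative in the rotated copies

`D2E t = D (D (E t))`, `D = z d/dz`, and the identity for `D (D F)` obtained by differentiating the
identity for `D F` of `lifts`.
-/

namespace SokalBPlus

open Complex SokalU

/-- `D (DE t)`, `D = z d/dz`. -/
noncomputable def D2E (t z : ℂ) : ℂ := DE t z + z * DE t (cexp (-t) * z)

theorem hasDerivAt_DE {t : ℂ} (ht : 0 ≤ t.re) (z : ℂ) :
    HasDerivAt (DE t) (E t (cexp (-t) * z) + z * (E t (cexp (-t) * (cexp (-t) * z)) * cexp (-t)))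
      z := by
  have h1 : HasDerivAt (fun w : ℂ => E t (cexp (-t) * w))
      (E t (cexp (-t) * (cexp (-t) * z)) * cexp (-t)) z := by
    have h2 : HasDerivAt (fun w : ℂ => cexp (-t) * w) (cexp (-t)) z := by
      simpa using (hasDerivAt_id z).const_mul (cexp (-t))
    exact (hasDerivAt_E ht (cexp (-t) * z)).comp z h2
  have h3 := (hasDerivAt_id z).mul h1
  simp only [id_eq, one_mul] at h3
  exact h3

theorem lifts2 (N : ℕ) (hN : 0 < N) (a : ℤ) (ha : IsCoprime a (N : ℤ)) :
    ∃ (g : ℤ → ℂ) (ε g0 : ℝ), 0 < g0 ∧ (∀ m, ‖g m‖ = g0) ∧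
      ∀ (t z q : ℂ) (m0 : ℤ), 0 ≤ t.re → q = cexp (2 * Real.pi * I * a / N) * cexp (-t) →
        SokalF.F q z =
          ∑ m ∈ Finset.Ico m0 (m0 + N), g m * E t (cexp (2 * Real.pi * (m + ε) / N * I) * z) ∧
        z * SokalF.F q (q * z) =
          ∑ m ∈ Finset.Ico m0 (m0 + N), g m * DE t (cexp (2 * Real.pi * (m + ε) / N * I) * z) ∧
        z * SokalF.F q (q * z) + z * (q * z * SokalF.F q (q * (q * z))) =
          ∑ m ∈ Finset.Ico m0 (m0 + N), g m * D2E t (cexp (2 * Real.pi * (m + ε) / N * I) * z) := by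
  obtain ⟨g, ε, g0, hg0, hg, hl⟩ := lifts N hN a ha
  refine ⟨g, ε, g0, hg0, hg, fun t z q m0 ht hq => ?_⟩
  have hq1 : ‖q‖ ≤ 1 := by
    rw [hq, norm_mul]
    have h1 : ‖cexp (2 * Real.pi * I * a / N)‖ = 1 := by
      have : (2 * Real.pi * I * a / N : ℂ) = ((2 * Real.pi * a / N : ℝ) : ℂ) * I := by
        push_cast; ring
      rw [this, Complex.norm_exp_ofReal_mul_I]
    rw [h1, one_mul]
    exact norm_exp_neg_le ht
  have hid : ∀ w : ℂ, w * SokalF.F q (q * w) =
      ∑ m ∈ Finset.Ico m0 (m0 + N), g m * DE t (cexp (2 * Real.pi * (m + ε) / N * I) * w) := by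
    intro w
    have := (hl t w m0 ht).2
    rw [← hq] at this
    exact this
  refine ⟨?_, hid z, ?_⟩
  · have := (hl t z m0 ht).1
    rw [← hq] at this
    exact this
  · -- differentiate
    have h1 : HasDerivAt (fun w : ℂ => w * SokalF.F q (q * w))
        (SokalF.F q (q * z) + z * (SokalF.F q (q * (q * z)) * q)) z := by
      have h2 : HasDerivAt (fun w : ℂ => q * w) q z := by
        simpa using (hasDerivAt_id z).const_mul q
      have h3 := (SokalF.hasDerivAt_F hq1 (q * z)).comp z h2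
      have h4 := (hasDerivAt_id z).mul h3
      simp only [id_eq, one_mul] at h4
      exact h4
    have h2 : HasDerivAt (fun w : ℂ => ∑ m ∈ Finset.Ico m0 (m0 + N),
        g m * DE t (cexp (2 * Real.pi * (m + ε) / N * I) * w))
        (∑ m ∈ Finset.Ico m0 (m0 + N), g m *
          ((E t (cexp (-t) * (cexp (2 * Real.pi * (m + ε) / N * I) * z)) +
            cexp (2 * Real.pi * (m + ε) / N * I) * z *
            (E t (cexp (-t) * (cexp (-t) * (cexp (2 * Real.pi * (m + ε) / N * I) * z))) *
              cexp (-t))) * cexp (2 * Real.pi * (m + ε) / N * I))) z := by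
      refine HasDerivAt.fun_sum fun m _ => ?_
      refine HasDerivAt.const_mul (g m) ?_
      have h5 : HasDerivAt (fun w : ℂ => cexp (2 * Real.pi * (m + ε) / N * I) * w)
          (cexp (2 * Real.pi * (m + ε) / N * I)) z := by
        simpa using (hasDerivAt_id z).const_mul (cexp (2 * Real.pi * (m + ε) / N * I))
      exact (hasDerivAt_DE ht (cexp (2 * Real.pi * (m + ε) / N * I) * z)).comp z h5
    have h3 : (fun w : ℂ => w * SokalF.F q (q * w)) = fun w : ℂ => ∑ m ∈ Finset.Ico m0 (m0 + N),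
        g m * DE t (cexp (2 * Real.pi * (m + ε) / N * I) * w) := funext hid
    rw [h3] at h1
    have h4 := h1.unique h2
    have h5 : z * SokalF.F q (q * z) + z * (q * z * SokalF.F q (q * (q * z))) =
        z * (SokalF.F q (q * z) + z * (SokalF.F q (q * (q * z)) * q)) := by ring
    rw [h5, h4, Finset.mul_sum]
    refine Finset.sum_congr rfl fun m _ => ?_
    unfold D2E DE
    ring

end SokalBPlus
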