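import Pool.Agent.Lib_MP_af4de1_u.Saddle

/-!
# The parameters of the shifted point `e^{-t} z`

`e^{-t} zp t k = zp t k' e^{iθ}` with `k' ∈ [k-1,k]`, `|θ| ≤ |t|`, and the two saddle points `κ`, `κ'` of
`w` and `e^{-t} w` satisfy `|1 + κ' - κ| |1+tk| ≤ 9/8`.
-/

namespace SokalBPlus

open Complex SokalU

theorem shift_exists {k : ℝ} {t : ℂ} (hk : 2 ≤ k) (ht : 0 ≤ t.re) : ∃ k' θ : ℝ, k - 1 ≤ k' ∧
    k' ≤ k ∧ |θ| ≤ ‖t‖ ∧ ((Real.log (k' / k) : ℝ) : ℂ) + t * (k' - k) + θ * I = -t ∧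
    cexp (-t) * zp t k = zp t k' * cexp (θ * I) := by
  -- the real part, by the intermediate value theorem
  have hk0 : 0 < k := by linarith
  have hcont : ContinuousOn (fun x : ℝ => Real.log (x / k) + t.re * (x - k)) (Set.Icc (k - 1) k) := by
    refine ContinuousOn.add (ContinuousOn.log ?_ ?_) ?_
    · exact (continuous_id.div_const k).continuousOn
    · intro x hx
      have : 0 < x / k := div_pos (by linarith [hx.1]) hk0
      exact this.ne'
    · exact (continuous_const.mul (continuous_id.sub continuous_const)).continuousOn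
  have hmem : -t.re ∈ Set.Icc (Real.log ((k - 1) / k) + t.re * ((k - 1) - k))
      (Real.log (k / k) + t.re * (k - k)) := by
    constructor
    · have h1 : Real.log ((k - 1) / k) ≤ 0 := by
        refine Real.log_nonpos (div_nonneg (by linarith) hk0.le) ?_
        rw [div_le_one hk0]
        linarith
      have h2 : t.re * ((k - 1) - k) = -t.re := by ring
      rw [h2]
      linarith
    · rw [div_self hk0.ne', Real.log_one]
      simp only [sub_self, mul_zero, add_zero]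
      linarith
  obtain ⟨k', hk', he⟩ := intermediate_value_Icc (by linarith : k - 1 ≤ k) hcont hmem
  simp only at he
  have hk'0 : 0 < k' := by linarith [hk'.1]
  set θ : ℝ := -t.im * (1 + k' - k) with hθ
  have heq : ((Real.log (k' / k) : ℝ) : ℂ) + t * (k' - k) + θ * I = -t := by
    apply Complex.ext
    · simp only [add_re, ofReal_re, mul_re, sub_re, sub_im, ofReal_im, I_re, I_im, neg_re]
      linarith
    · simp only [add_im, ofReal_im, mul_im, sub_re, sub_im, ofReal_re, I_re, I_im, neg_im]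
      rw [hθ]
      ring
  refine ⟨k', θ, hk'.1, hk'.2, ?_, heq, ?_⟩
  · rw [hθ, abs_mul, abs_neg]
    have h1 : |1 + k' - k| ≤ 1 := by
      rw [abs_le]
      constructor <;> linarith [hk'.1, hk'.2]
    calc |t.im| * |1 + k' - k| ≤ ‖t‖ * 1 := by
          gcongr
          exact Complex.abs_im_le_norm t
      _ = ‖t‖ := mul_one _
  · unfold zp
    have h1 : (k : ℂ) ≠ 0 := by exact_mod_cast hk0.ne'
    have h2 : (k' : ℂ) = k * cexp ((Real.log (k' / k) : ℝ) : ℂ) := by
      rw [← Complex.ofReal_exp, Real.exp_log (div_pos hk'0 hk0)]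
      push_cast
      field_simp
    rw [h2, mul_assoc (k : ℂ), mul_assoc (k : ℂ), ← Complex.exp_add, ← Complex.exp_add,
      mul_comm (cexp (-t)), mul_assoc, ← Complex.exp_add, ← h2]
    congr 2
    linear_combination -heq

/-- The saddle points of `w` and `e^{-t} w`. -/
theorem shift_dist {k η : ℝ} {t x y : ℂ} (hk : 0 < k) (ht : 0 ≤ t.re) (hx : ‖x‖ ≤ 1 / 10)
    (hy : ‖y‖ ≤ 1 / 10) (h : log (1 + x) + t * k * x = η * I)
    (h' : log (1 + y) + t * k * y = η * I - t) :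
    ‖1 + k * (1 + y) - k * (1 + x)‖ * ‖1 + t * (k : ℂ)‖ ≤ 9 / 8 := by
  have hw := one_le_norm hk ht
  have htk := tk_le hk ht
  set w := t * (k : ℂ) with hwdef
  set ρ := (log (1 + y) - y) - (log (1 + x) - x) with hρ
  have hρn : ‖ρ‖ ≤ 1 / 9 * ‖y - x‖ := phi_lip hy hx
  have e1 : (y - x) * (1 + w) = -t - ρ := by
    rw [hρ]
    linear_combination h' - h
  have h1 : ‖y - x‖ * ‖1 + w‖ ≤ ‖t‖ + 1 / 9 * ‖y - x‖ := by
    rw [← norm_mul, e1]
    refine (norm_sub_le _ _).trans ?_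
    rw [norm_neg]
    linarith
  have h2 : ‖y - x‖ * ‖1 + w‖ ≤ 9 / 8 * ‖t‖ := by
    have : ‖y - x‖ * 1 ≤ ‖y - x‖ * ‖1 + w‖ := by gcongr
    linarith
  have e2 : (1 + k * (1 + y) - k * (1 + x)) * (1 + w) = 1 - k * ρ := by
    have : (1 + k * (1 + y) - k * (1 + x)) * (1 + w) = (1 + w) + k * ((y - x) * (1 + w)) := by ring
    rw [this, e1, hwdef]
    ring
  rw [← norm_mul, e2]
  have h3 : ‖(k : ℂ) * ρ‖ ≤ 1 / 8 := by
    rw [norm_mul, Complex.norm_real, Real.norm_of_nonneg hk.le]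
    have h4 : k * ‖y - x‖ * ‖1 + w‖ ≤ 9 / 8 * ‖1 + w‖ := by
      calc k * ‖y - x‖ * ‖1 + w‖ = k * (‖y - x‖ * ‖1 + w‖) := by ring
        _ ≤ k * (9 / 8 * ‖t‖) := by gcongr
        _ = 9 / 8 * (‖t‖ * k) := by ring
        _ ≤ 9 / 8 * ‖1 + w‖ := by gcongr
    have h5 : k * ‖y - x‖ ≤ 9 / 8 := le_of_mul_le_mul_right h4 (by linarith)
    calc k * ‖ρ‖ ≤ k * (1 / 9 * ‖y - x‖) := by gcongr
      _ = 1 / 9 * (k * ‖y - x‖) := by ring
      _ ≤ 1 / 9 * (9 / 8) := by gcongr
      _ = 1 / 8 := by norm_num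
  refine (norm_sub_le _ _).trans ?_
  rw [norm_one]
  linarith

/-- The equation for `y = (k'/k)(1+x') - 1`. -/
theorem shift_eq {k k' η θ : ℝ} {t x' : ℂ} (hk : 0 < k) (hk' : 0 < k') (hx' : ‖x'‖ ≤ 1 / 20)
    (hkk : ((Real.log (k' / k) : ℝ) : ℂ) + t * (k' - k) + θ * I = -t)
    (h : log (1 + x') + t * k' * x' = ((η + θ : ℝ) : ℂ) * I) :
    (k : ℂ) * (1 + ((k' : ℂ) / k * (1 + x') - 1)) = k' * (1 + x') ∧
    log (1 + ((k' : ℂ) / k * (1 + x') - 1)) + t * k * ((k' : ℂ) / k * (1 + x') - 1) =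
      η * I - t := by
  have hkC : (k : ℂ) ≠ 0 := by exact_mod_cast hk.ne'
  have h1 : 1 + x' ≠ 0 := by
    intro h0
    have : ‖(1 : ℂ)‖ ≤ 1 / 20 := by
      rw [show (1 : ℂ) = -x' by linear_combination h0, norm_neg]
      exact hx'
    rw [norm_one] at this
    norm_num at this
  have e0 : (1 : ℂ) + ((k' : ℂ) / k * (1 + x') - 1) = ((k' / k : ℝ) : ℂ) * (1 + x') := by
    push_cast
    ring
  have e1 : log (1 + ((k' : ℂ) / k * (1 + x') - 1)) = Real.log (k' / k) + log (1 + x') := by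
    rw [e0, Complex.log_ofReal_mul (div_pos hk' hk) h1]
  constructor
  · field_simp
    ring
  · rw [e1]
    have e2 : t * k * ((k' : ℂ) / k * (1 + x') - 1) = t * k' * x' + t * (k' - k) := by
      field_simp
      ring
    rw [e2]
    push_cast at h
    linear_combination h + hkk

end SokalBPlus
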