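import Pool.Agent.Lib_MP_af4de1_u.Inside
import Pool.Agent.Lib_MP_af4de1_BPlus.Lifts2
import Pool.Agent.Lib_MP_af4de1_BPlus.Shift

/-!
# The second derivative in the central sector [BP-IN2]

STEP 1 (copy of the private lemma `INS_point` of `Lib_MP_af4de1_u/Inside.lean`, without the statements on `j`): there are `C`, `V0`
such that for `V k t ≤ V0`, `|η| ≤ 1/40000` there are `x, R` with `‖x‖ ≤ 2|η|/‖1+tk‖`, `log(1+x) + t k x = η I`,
`DE(w) = (k(1+x) + R) E(w)`, `‖R‖ ≤ C V k/‖1+tk‖`, where `w = zp t k cexp(η I)`.  (From `logDeriv`, `saddle_exists`, `saddle_im`,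
`zp_saddle`, `V_compare`.)
STEP 2.  `η1 = 1/80000`.  `w' = cexp(-t) w = zp t k' cexp((η+θ) I)` by `shift_exists` (`k ≥ 1/V ≥ 100`, so `.99k ≤ k' ≤ k`;
`|θ| ≤ ‖t‖ ≤ 2V ≤ 1/80000`).  Step 1 at `(k', η+θ)`: `x', R'` (`V k' t ≤ (6/5) V k t`: `V_compare`;
`‖1+tk'‖ ≥ ‖1+tk‖ - ‖t‖(k-k') ≥ ‖1+tk‖ - 2V ≥ .9‖1+tk‖`).
`w E(w') = DE(w)` (definition of `DE`), so `D2E(w) = DE(w) + w DE(w') = (1 + k'(1+x') + R') DE(w) = (1 + k'(1+x') + R') M E(w)` and
`D2E(w) - M² E(w) = M (1 + k'(1+x') - k(1+x) + R' - R) E(w)` (`M = k(1+x)+R` because `E(w) ≠ 0`).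
`shift_eq` and `shift_dist` (with `y = (k'/k)(1+x') - 1`, `‖y‖ ≤ 1/10`) give `‖1 + k'(1+x') - k(1+x)‖ ≤ (9/8)/‖1+tk‖ ≤ (9/8) V k/‖1+tk‖`
(`1/k ≤ V`: `inv_V_le`).  `‖M‖ ≤ 2k`.  `‖M - k‖ ≤ k‖x‖ + ‖R‖ ≤ (2|η| + CV) k/‖1+tk‖`, take `V0` small.
-/

namespace SokalBPlus

open Complex SokalU

private lemma IN2_point : ∃ C : ℝ, 0 < C ∧ ∃ V0 : ℝ, 0 < V0 ∧ ∀ (t : ℂ) (k : ℝ), 0 ≤ t.re →
    0 < k → V k t ≤ V0 → ∀ η : ℝ, |η| ≤ 1 / 40000 → ∃ x R : ℂ,
      ‖x‖ ≤ 2 * |η| / ‖1 + t * (k : ℂ)‖ ∧ log (1 + x) + t * k * x = η * I ∧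
      DE t (zp t k * cexp (η * I)) = (k * (1 + x) + R) * E t (zp t k * cexp (η * I)) ∧
      ‖R‖ ≤ C * V k t * (k / ‖1 + t * (k : ℂ)‖) := by
  obtain ⟨C0, hC0, hL⟩ := logDeriv
  obtain ⟨V0, hV0, hL⟩ := hL (1 / 1000) (by norm_num)
  refine ⟨3 / 2 * C0, by positivity, min (V0 * (5 / 6)) (1 / (6 * C0)), by positivity, ?_⟩
  intro t k ht hk hV
  have hV1 : V k t ≤ V0 * (5 / 6) := le_trans hV (min_le_left _ _)
  have hV2 : V k t ≤ 1 / (6 * C0) := le_trans hV (min_le_right _ _)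
  have hVpos := V_pos hk ht
  have hW := one_le_norm hk ht
  intro η hη
  set W := ‖1 + t * (k : ℂ)‖ with hWdef
  have hW0 : 0 < W := by linarith
  have ha0 : 0 ≤ |η| := abs_nonneg η
  obtain ⟨x, hx, hxe⟩ := saddle_exists hk ht (η := η) (by linarith)
  have hx1 : ‖x‖ ≤ 1 / 20000 := by
    refine hx.trans ?_
    rw [← hWdef, div_le_iff₀ hW0]
    nlinarith
  have hx2 : ‖x‖ ≤ 1 / 10 := by linarith
  have him := saddle_im hk ht (by linarith) hx hxe
  have hre : |x.re| ≤ 1 / 20000 := (Complex.abs_re_le_norm x).trans hx1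
  rw [abs_le] at hre
  have hkk1 : 9 / 10 * k ≤ k * (1 + x.re) := by nlinarith
  have hkk2 : k * (1 + x.re) ≤ 11 / 10 * k := by nlinarith
  have hkk0 : 0 < k * (1 + x.re) := by nlinarith
  have hVk := V_compare hk ht hkk1 hkk2
  have hVk0 := V_pos hkk0 ht
  have hkI0 : |k * x.im| * V k t ≤ |η| + 4 * η ^ 2 := by
    have h1 : |k * x.im| ≤ |η / V k t| + |k * x.im - η / V k t| := by
      have := abs_add_le (η / V k t) (k * x.im - η / V k t)
      simpa using this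
    have h2 : |η / V k t| = |η| / V k t := by rw [abs_div, abs_of_pos hVpos]
    rw [h2] at h1
    have h3 : |k * x.im| ≤ (|η| + 4 * η ^ 2) / V k t := by
      rw [add_div]; linarith
    rwa [le_div_iff₀ hVpos] at h3
  have hη2 : 4 * η ^ 2 ≤ 1 / 10000 * |η| := by
    rw [← sq_abs]; nlinarith
  have hkI : |k * x.im| * V (k * (1 + x.re)) t ≤ 1 / 8000 := by
    calc |k * x.im| * V (k * (1 + x.re)) t ≤ |k * x.im| * (6 / 5 * V k t) := by gcongr
      _ = 6 / 5 * (|k * x.im| * V k t) := by ring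
      _ ≤ 6 / 5 * (|η| + 4 * η ^ 2) := by gcongr
      _ ≤ 1 / 8000 := by linarith
  obtain ⟨hJ0, hJ, L, hLn, hLe⟩ := hL t (k * (1 + x.re)) (k * x.im) ht hkk0 (by linarith) hkI
  have hκ : (((k * (1 + x.re) : ℝ) : ℂ) + ((k * x.im : ℝ) : ℂ) * I) = k * (1 + x) := by
    apply Complex.ext <;> simp
  rw [hκ] at hJ0 hJ hLe
  have hzp := zp_saddle hx2 hxe
  set κ : ℂ := k * (1 + x) with hκd
  rw [hzp] at hLe
  set N := ‖1 + t * κ‖ with hN
  have hsplit : 1 + t * κ = (1 + t * (k : ℂ)) + (t * k) * x := by rw [hκd]; ring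
  have htk : ‖(t * (k : ℂ)) * x‖ ≤ W * (1 / 20000) := by
    rw [norm_mul, norm_mul, Complex.norm_real, Real.norm_of_nonneg hk.le]
    have := tk_le hk ht
    exact mul_le_mul this hx1 (norm_nonneg _) hW0.le
  have hN2 : W * (19999 / 20000) ≤ N := by
    rw [hN, hsplit]
    have := norm_sub_le_norm_add (1 + t * (k : ℂ)) ((t * k) * x)
    linarith
  have hN0 : 0 < N := by
    have : 0 < W * (19999 / 20000) := by positivity
    linarith
  have hne : 1 + t * κ ≠ 0 := by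
    intro h
    rw [hN, h, norm_zero] at hN0
    exact lt_irrefl _ hN0
  refine ⟨x, κ * L / (1 + t * κ), hx, hxe, ?_, ?_⟩
  · have h1 : DE t (zp t k * cexp (η * I)) - κ * E t (zp t k * cexp (η * I)) =
        κ * L * E t (zp t k * cexp (η * I)) / (1 + t * κ) := by
      rw [eq_div_iff hne]; exact hLe
    have h2 : DE t (zp t k * cexp (η * I)) = κ * E t (zp t k * cexp (η * I)) +
        κ * L * E t (zp t k * cexp (η * I)) / (1 + t * κ) := by
      rw [← h1]; ring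
    rw [h2]; ring
  · rw [norm_div, norm_mul, ← hN, div_le_iff₀ hN0]
    have k1 : ‖κ‖ ≤ k * (20001 / 20000) := by
      rw [hκd, norm_mul, Complex.norm_real, Real.norm_of_nonneg hk.le]
      have := norm_add_le (1 : ℂ) x
      rw [norm_one] at this
      gcongr
      linarith
    have k2 : ‖L‖ ≤ 6 / 5 * (C0 * V k t) := by
      refine hLn.trans ?_
      nlinarith
    have k3 : ‖κ‖ * ‖L‖ ≤ (k * (20001 / 20000)) * (6 / 5 * (C0 * V k t)) := by gcongr
    refine k3.trans ?_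
    have k4 : k / W * N ≥ k * (19999 / 20000) := by
      rw [ge_iff_le, div_mul_eq_mul_div, le_div_iff₀ hW0]
      nlinarith
    have k5 : 0 ≤ C0 * V k t := by positivity
    have k6 : 3 / 2 * C0 * V k t * (k / W) * N = 3 / 2 * (C0 * V k t) * (k / W * N) := by ring
    rw [k6]
    have k7 := mul_le_mul_of_nonneg_left k4 k5
    have k8 : 0 ≤ C0 * V k t * k := by positivity
    nlinarith

theorem inside2 : ∃ η1 : ℝ, 0 < η1 ∧ ∃ V0 : ℝ, 0 < V0 ∧ ∃ C : ℝ, 0 < C ∧ ∀ (t : ℂ) (k : ℝ),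
    0 ≤ t.re → 0 < k → V k t ≤ V0 → ∀ η : ℝ, |η| ≤ η1 → ∀ M : ℂ,
    DE t (zp t k * cexp (η * I)) = M * E t (zp t k * cexp (η * I)) →
    E t (zp t k * cexp (η * I)) ≠ 0 →
    ‖M - k‖ ≤ 1 / 10 * (k / ‖1 + t * (k : ℂ)‖) ∧
    ‖D2E t (zp t k * cexp (η * I)) - M ^ 2 * E t (zp t k * cexp (η * I))‖ ≤
      C * V k t * k * (k / ‖1 + t * (k : ℂ)‖) * ‖E t (zp t k * cexp (η * I))‖ := by
  obtain ⟨C, hC, V0, hV0, H⟩ := IN2_point
  refine ⟨1 / 80000, by norm_num, min (5 / 6 * V0) (min (1 / 160000) (1 / (20 * C))), by positivity,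
    2 * (9 / 8 + 7 / 3 * C), by positivity, ?_⟩
  intro t k ht hk hV η hη M hM hE0
  have hVa : V k t ≤ 5 / 6 * V0 := hV.trans (min_le_left _ _)
  have hVb : V k t ≤ 1 / 160000 := hV.trans ((min_le_right _ _).trans (min_le_left _ _))
  have hVc : V k t ≤ 1 / (20 * C) := hV.trans ((min_le_right _ _).trans (min_le_right _ _))
  have hVpos := V_pos hk ht
  have hCV : C * V k t ≤ 1 / 20 := by
    rw [le_div_iff₀ (by positivity)] at hVc
    linarith
  have hW := one_le_norm hk ht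
  set W := ‖1 + t * (k : ℂ)‖ with hWdef
  have hW0 : 0 < W := by linarith
  have hVk : 1 ≤ V k t * k := by
    have := inv_V_le hk ht
    rw [inv_le_comm₀ hVpos hk] at this
    rw [← div_le_iff₀ hk, one_div]
    exact this
  have hk100 : 100 ≤ k := by nlinarith
  have htn : ‖t‖ ≤ 1 / 80000 := (norm_t_le hk ht).trans (by linarith)
  obtain ⟨k', θ, hk1, hk2, hθ, hkk, hw⟩ := shift_exists (t := t) (by linarith : (2 : ℝ) ≤ k) ht
  have hk'0 : 0 < k' := by linarith
  have hηθ : |η + θ| ≤ 1 / 40000 := by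
    have := abs_add_le η θ
    linarith
  have hVV : V k' t ≤ 6 / 5 * V k t := V_compare hk ht (by linarith) (by linarith)
  have hV'pos := V_pos hk'0 ht
  obtain ⟨x, R, hx, hxe, hDE, hR⟩ := H t k ht hk (by linarith) η (by linarith)
  obtain ⟨x', R', hx', hxe', hDE', hR'⟩ := H t k' ht hk'0 (by linarith) (η + θ) hηθ
  rw [← hWdef] at hx hR
  set W' := ‖1 + t * (k' : ℂ)‖ with hW'def
  have hW'1 : 1 ≤ W' := one_le_norm hk'0 ht
  have hW'0 : 0 < W' := by linarith
  have hW' : 9 / 10 * W ≤ W' := by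
    have e : 1 + t * (k : ℂ) = (1 + t * (k' : ℂ)) + t * ((k - k' : ℝ) : ℂ) := by
      push_cast; ring
    have h1 : W ≤ W' + ‖t‖ * (k - k') := by
      rw [hWdef, e]
      refine (norm_add_le _ _).trans ?_
      rw [norm_mul, Complex.norm_real, Real.norm_of_nonneg (by linarith : 0 ≤ k - k')]
    have h2 : ‖t‖ * (k - k') ≤ 1 / 80000 * 1 := by
      gcongr
      linarith
    linarith
  have hη0 := abs_nonneg η
  have hxs : ‖x‖ ≤ 1 / 20000 := by
    refine hx.trans ?_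
    rw [div_le_iff₀ hW0]
    nlinarith
  have hxs' : ‖x'‖ ≤ 1 / 20000 := by
    refine hx'.trans ?_
    rw [div_le_iff₀ hW'0]
    nlinarith [abs_nonneg (η + θ)]
  -- `M`
  set w := zp t k * cexp (η * I) with hwdef
  have hMe : M = k * (1 + x) + R := by
    rw [hDE] at hM
    exact (mul_right_cancel₀ hE0 hM).symm
  -- the shifted point
  have hw' : cexp (-t) * w = zp t k' * cexp (((η + θ : ℝ) : ℂ) * I) := by
    rw [hwdef, ← mul_assoc, hw, mul_assoc, ← Complex.exp_add]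
    congr 2
    push_cast
    ring
  rw [← hw'] at hDE'
  have hD2 : D2E t w = (1 + (k' * (1 + x') + R')) * (M * E t w) := by
    unfold D2E
    rw [hDE', ← hM]
    have : w * ((k' * (1 + x') + R') * E t (cexp (-t) * w)) = (k' * (1 + x') + R') * DE t w := by
      unfold DE
      ring
    rw [this]
    ring
  -- the difference of the saddle points
  have hkC : (k : ℂ) ≠ 0 := by exact_mod_cast hk.ne'
  obtain ⟨he1, he2⟩ := shift_eq hk hk'0 (by linarith) hkk hxe'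
  have hy : ‖((k' : ℂ) / k * (1 + x') - 1)‖ ≤ 1 / 10 := by
    have e : ((k' : ℂ) / k * (1 + x') - 1) = (((k' - k) / k : ℝ) : ℂ) + ((k' / k : ℝ) : ℂ) * x' := by
      push_cast
      field_simp
      ring
    rw [e]
    refine (norm_add_le _ _).trans ?_
    rw [norm_mul, Complex.norm_real, Complex.norm_real, Real.norm_eq_abs, Real.norm_eq_abs]
    have h1 : |(k' - k) / k| ≤ 1 / 100 := by
      rw [abs_div, abs_of_pos hk, div_le_iff₀ hk, abs_le]
      constructor <;> linarith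
    have h2 : |k' / k| ≤ 1 := by
      rw [abs_of_pos (div_pos hk'0 hk), div_le_one hk]
      exact hk2
    have h3 : |k' / k| * ‖x'‖ ≤ 1 * (1 / 20000) := by gcongr
    linarith
  have hd := shift_dist hk ht (by linarith) hy hxe he2
  rw [he1, ← hWdef] at hd
  have hd' : ‖1 + k' * (1 + x') - k * (1 + x)‖ ≤ 9 / 8 * (V k t * (k / W)) := by
    have h1 : ‖1 + k' * (1 + x') - k * (1 + x)‖ ≤ 9 / 8 / W := by
      rw [le_div_iff₀ hW0]; exact hd
    refine h1.trans ?_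
    have h2 : 9 / 8 * (V k t * (k / W)) = 9 / 8 / W * (V k t * k) := by ring
    rw [h2]
    have h3 : 0 ≤ 9 / 8 / W := by positivity
    nlinarith
  have hRR' : ‖R'‖ ≤ 4 / 3 * C * V k t * (k / W) := by
    refine hR'.trans ?_
    have h1 : k' / W' ≤ k / (9 / 10 * W) := by gcongr
    calc C * V k' t * (k' / W') ≤ C * (6 / 5 * V k t) * (k / (9 / 10 * W)) := by gcongr
      _ = 4 / 3 * C * V k t * (k / W) := by field_simp; ring
  have hkW : 0 ≤ k / W := by positivity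
  constructor
  · have h1 : M - k = k * x + R := by rw [hMe]; ring
    rw [h1]
    refine (norm_add_le _ _).trans ?_
    have h2 : ‖(k : ℂ) * x‖ ≤ 1 / 40000 * (k / W) := by
      rw [norm_mul, Complex.norm_real, Real.norm_of_nonneg hk.le]
      calc k * ‖x‖ ≤ k * (2 * |η| / W) := by gcongr
        _ = 2 * |η| * (k / W) := by ring
        _ ≤ 1 / 40000 * (k / W) := by gcongr; linarith
    have h3 : C * V k t * (k / W) ≤ 1 / 20 * (k / W) := by gcongr
    linarith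
  · have h1 : D2E t w - M ^ 2 * E t w =
        M * ((1 + k' * (1 + x') - k * (1 + x)) + R' - R) * E t w := by
      rw [hD2, hMe]; ring
    rw [h1, norm_mul, norm_mul]
    have h2 : ‖M‖ ≤ 2 * k := by
      rw [hMe]
      refine (norm_add_le _ _).trans ?_
      rw [norm_mul, Complex.norm_real, Real.norm_of_nonneg hk.le]
      have h3 := norm_add_le (1 : ℂ) x
      rw [norm_one] at h3
      have h4 : k / W ≤ k := div_le_self hk.le hW
      have h5 : C * V k t * (k / W) ≤ 1 / 20 * k := by gcongr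
      have h6 : k * ‖1 + x‖ ≤ k * (1 + 1 / 20000) := by gcongr; linarith
      linarith
    have h3 : ‖(1 + k' * (1 + x') - k * (1 + x)) + R' - R‖ ≤
        (9 / 8 + 7 / 3 * C) * V k t * (k / W) := by
      refine (norm_sub_le _ _).trans ?_
      have h4 := norm_add_le (1 + k' * (1 + x') - k * (1 + x)) R'
      have h5 : (9 / 8 + 7 / 3 * C) * V k t * (k / W) = 9 / 8 * (V k t * (k / W)) +
          4 / 3 * C * V k t * (k / W) + C * V k t * (k / W) := by ring
      rw [h5]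
      linarith
    have h4 : 2 * (9 / 8 + 7 / 3 * C) * V k t * k * (k / W) * ‖E t w‖ =
        (2 * k) * ((9 / 8 + 7 / 3 * C) * V k t * (k / W)) * ‖E t w‖ := by ring
    rw [h4]
    gcongr

end SokalBPlus
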