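import Pool.Agent.Lib_MP_af4de1_u.LemmaO
import Pool.Agent.Lib_MP_af4de1_BPlus.Lifts2
import Pool.Agent.Lib_MP_af4de1_BPlus.Shift

/-!
# The second derivative outside the central sector [BP-OUT2]

The first two claims are `lemmaO η1`.  Third claim: let `w = zp t k cexp(η I)`, `w' = cexp(-t) w = zp t k' cexp((η+θ) I)`
(`shift_exists`; `k ≥ 1/V ≥ 100` so `k-1 ≤ k' ≤ k` is within `[.99k, k]`, `|θ| ≤ ‖t‖ ≤ 2V ≤ η1/2`).  If `|η+θ| > π` replace `η+θ` by
`η+θ ∓ 2π` (same point, absolute value in `[π - 2V, π] ⊂ [η1/2, π]` when `η1 ≤ 3`; if `η1 > 3` use `min η1 3` instead of `η1`).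
So `lemmaO (η1/2)` applies at `(t, k', η')`: `‖DE(w') - k' E(w')‖ ≤ C e^{-c2/V'} Md' k'/‖1+tk'‖`, `V' = V k' t ≤ (6/5) V k t` (`V_compare`),
`‖1+tk'‖ ≥ ‖1+tk‖ - ‖t‖ ≥ .9 ‖1+tk‖`.  By definition of `DE`, `w E(w') = DE(w)`, so
`D2E(w) - 2k DE(w) + k² E(w) = w (DE(w') - k' E(w')) + (1 + k' - k) DE(w) - k (DE(w) - k E(w))`.
First term: `‖w‖ Md' ≤ 2 k Md`: `‖w‖ = k e^{τk - τ/2}`, `‖cexp(S t k')‖ = e^{k' + τk'²/2}` (`τ = Re t`), and with `u = k - k' ∈ [0,1]` the real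
part of `log(k'/k) + t(k'-k) + θ I = -t` is `τ(1-u) = -log(1-u/k) ≤ u/(k-u)`; so
`τk - τ/2 + k' + τk'²/2 - k - τk²/2 = τk(1-u) - τ(1-u²)/2 - u ≤ uk/(k-u) - u = u²/(k-u) ≤ 1/99`; `1/√‖1+tk'‖ ≤ 1.1/√‖1+tk‖`.
Second term: `|1+k'-k| ≤ 1`, `‖DE(w)‖ ≤ ‖DE(w) - kE(w)‖ + k‖E(w)‖ ≤ 2 C e^{-c2/V} Md k` (`‖1+tk‖ ≥ 1`), and `1 ≤ k/‖1+tk‖`
(`1 ≤ 1/V = Re(k/(1+tk)) ≤ ‖k/(1+tk)‖`: `re_div`).  Third term: second claim of `lemmaO`.  Take `c2 := min(c2(η1), (5/6) c2(η1/2))`.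
-/

namespace SokalBPlus

open Complex SokalU

private theorem o2_norm_zp {t : ℂ} {k : ℝ} (hk : 0 < k) :
    ‖zp t k‖ = k * Real.exp (t.re * k - t.re / 2) := by
  unfold zp
  rw [norm_mul, Complex.norm_real, Real.norm_of_nonneg hk.le, Complex.norm_exp]
  congr 2
  have : (t / 2).re = t.re / 2 := by
    rw [show (2 : ℂ) = ((2 : ℝ) : ℂ) by norm_num, Complex.div_ofReal_re]
  rw [sub_re, this, mul_re, ofReal_re, ofReal_im, mul_zero, sub_zero]

private theorem o2_norm_S (t : ℂ) (k : ℝ) :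
    ‖cexp (S t k)‖ = Real.exp (k + t.re * k ^ 2 / 2) := by
  unfold S
  rw [Complex.norm_exp]
  congr 1
  have h1 : (t * (k : ℂ) ^ 2 / 2).re = t.re * k ^ 2 / 2 := by
    rw [show (2 : ℂ) = ((2 : ℝ) : ℂ) by norm_num, Complex.div_ofReal_re,
      ← Complex.ofReal_pow, mul_re, ofReal_re, ofReal_im, mul_zero, sub_zero]
  rw [add_re, ofReal_re, h1]

/-- comparison of the sizes at `k` and at `k'` -/
private theorem o2_size {t : ℂ} {k k' θ : ℝ} (hk : 2 ≤ k) (ht : 0 ≤ t.re) (ht1 : ‖t‖ ≤ 1)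
    (h1 : k - 1 ≤ k') (h2 : k' ≤ k)
    (he : ((Real.log (k' / k) : ℝ) : ℂ) + t * (k' - k) + θ * I = -t) :
    ‖1 + t * (k : ℂ)‖ ≤ 2 * ‖1 + t * (k' : ℂ)‖ ∧
    ‖zp t k‖ * Md k' t ≤ 6 * k * Md k t := by
  have hk0 : 0 < k := by linarith
  have hk'1 : 1 ≤ k' := by linarith
  have hk'0 : 0 < k' := by linarith
  have n1 := one_le_norm hk0 ht
  have n2 := one_le_norm hk'0 ht
  have hn : ‖1 + t * (k : ℂ)‖ ≤ 2 * ‖1 + t * (k' : ℂ)‖ := by
    have e1 : 1 + t * (k : ℂ) = (1 + t * (k' : ℂ)) + t * ((k - k' : ℝ) : ℂ) := by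
      push_cast; ring
    have e2 : ‖t * ((k - k' : ℝ) : ℂ)‖ ≤ 1 := by
      rw [norm_mul, Complex.norm_real, Real.norm_of_nonneg (by linarith)]
      have : k - k' ≤ 1 := by linarith
      calc ‖t‖ * (k - k') ≤ 1 * 1 := mul_le_mul ht1 this (by linarith) (by norm_num)
        _ = 1 := one_mul 1
    calc ‖1 + t * (k : ℂ)‖ ≤ ‖1 + t * (k' : ℂ)‖ + ‖t * ((k - k' : ℝ) : ℂ)‖ := by
          rw [e1]; exact norm_add_le _ _
      _ ≤ _ := by linarith
  refine ⟨hn, ?_⟩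
  -- the real part of the equation
  have hre : Real.log (k' / k) + t.re * (k' - k) = -t.re := by
    have := congrArg Complex.re he
    simpa using this
  have hlog : t.re * (1 - (k - k')) ≤ (k - k') / k' := by
    have h3 : Real.log (k / k') ≤ k / k' - 1 := Real.log_le_sub_one_of_pos (div_pos hk0 hk'0)
    have h4 : Real.log (k' / k) = -Real.log (k / k') := by
      rw [← Real.log_inv, inv_div]
    have h5 : k / k' - 1 = (k - k') / k' := by field_simp
    rw [h4] at hre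
    rw [h5] at h3
    linarith
  have hu0 : 0 ≤ k - k' := by linarith
  have hu1 : k - k' ≤ 1 := by linarith
  have hexp : (t.re * k - t.re / 2) + (k' + t.re * k' ^ 2 / 2) ≤ 1 + (k + t.re * k ^ 2 / 2) := by
    have e1 : (t.re * k - t.re / 2) + (k' + t.re * k' ^ 2 / 2) - (k + t.re * k ^ 2 / 2) =
        k * (t.re * (1 - (k - k'))) - t.re * (1 - (k - k') ^ 2) / 2 - (k - k') := by ring
    have e2 : k * (t.re * (1 - (k - k'))) ≤ k * ((k - k') / k') :=
      mul_le_mul_of_nonneg_left hlog hk0.le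
    have e3 : k * ((k - k') / k') - (k - k') = (k - k') ^ 2 / k' := by field_simp
    have e4 : (k - k') ^ 2 / k' ≤ 1 := by
      rw [div_le_one hk'0]
      nlinarith
    have e5 : 0 ≤ t.re * (1 - (k - k') ^ 2) / 2 := by
      have : 0 ≤ 1 - (k - k') ^ 2 := by nlinarith
      positivity
    linarith
  have hexp' : Real.exp (t.re * k - t.re / 2) * Real.exp (k' + t.re * k' ^ 2 / 2) ≤
      3 * Real.exp (k + t.re * k ^ 2 / 2) := by
    rw [← Real.exp_add]
    calc Real.exp ((t.re * k - t.re / 2) + (k' + t.re * k' ^ 2 / 2)) ≤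
        Real.exp (1 + (k + t.re * k ^ 2 / 2)) := Real.exp_le_exp.2 hexp
      _ = Real.exp 1 * Real.exp (k + t.re * k ^ 2 / 2) := Real.exp_add _ _
      _ ≤ 3 * Real.exp (k + t.re * k ^ 2 / 2) := by
        have := Real.exp_one_lt_d9
        gcongr
        linarith
  have hsq : √‖1 + t * (k : ℂ)‖ ≤ 2 * √‖1 + t * (k' : ℂ)‖ := by
    rw [show (2 : ℝ) = √4 by
      rw [show (4 : ℝ) = 2 ^ 2 by norm_num, Real.sqrt_sq (by norm_num)],
      ← Real.sqrt_mul (by norm_num : (0 : ℝ) ≤ 4)]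
    apply Real.sqrt_le_sqrt
    linarith
  have s1 : 0 < √‖1 + t * (k : ℂ)‖ := Real.sqrt_pos.2 (by linarith)
  have s2 : 0 < √‖1 + t * (k' : ℂ)‖ := Real.sqrt_pos.2 (by linarith)
  unfold Md
  rw [o2_norm_zp hk0, o2_norm_S, o2_norm_S]
  set A := Real.exp (t.re * k - t.re / 2)
  set B := Real.exp (k' + t.re * k' ^ 2 / 2)
  set D := Real.exp (k + t.re * k ^ 2 / 2)
  have hD : 0 < D := Real.exp_pos _
  rw [mul_div_assoc', mul_div_assoc', div_le_div_iff₀ s2 s1]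
  calc k * A * B * √‖1 + t * (k : ℂ)‖ = k * (A * B) * √‖1 + t * (k : ℂ)‖ := by ring
    _ ≤ k * (3 * D) * (2 * √‖1 + t * (k' : ℂ)‖) := by gcongr
    _ = 6 * k * D * √‖1 + t * (k' : ℂ)‖ := by ring

/-- the angle of the shifted point -/
private theorem o2_angle {η θ η2 : ℝ} (_h2 : 0 < η2) (h3 : η2 ≤ 3 / 2) (hη : 2 * η2 ≤ |η|)
    (hη' : |η| ≤ Real.pi) (hθ : |θ| ≤ η2) : ∃ η' : ℝ, η2 ≤ |η'| ∧ |η'| ≤ Real.pi ∧
    cexp (η' * I) = cexp (((η + θ : ℝ) : ℂ) * I) := by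
  have hpi := Real.pi_gt_three
  have a1 := abs_le.1 hη'
  have a2 := abs_le.1 hθ
  by_cases c1 : |η + θ| ≤ Real.pi
  · refine ⟨η + θ, ?_, c1, rfl⟩
    have : |η| ≤ |η + θ| + |θ| := by
      have := abs_add_le (η + θ) (-θ)
      rw [abs_neg] at this
      simpa using this
    linarith
  · push Not at c1
    rcases lt_abs.1 c1 with c2 | c2
    · refine ⟨η + θ - 2 * Real.pi, ?_, ?_, ?_⟩
      · rw [abs_of_neg (by linarith)]
        linarith
      · rw [abs_of_neg (by linarith)]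
        linarith
      · have e1 : (((η + θ - 2 * Real.pi : ℝ) : ℂ) * I) =
            ((η + θ : ℝ) : ℂ) * I - 2 * Real.pi * I := by push_cast; ring
        rw [e1, Complex.exp_sub, Complex.exp_two_pi_mul_I, div_one]
    · refine ⟨η + θ + 2 * Real.pi, ?_, ?_, ?_⟩
      · rw [abs_of_pos (by linarith)]
        linarith
      · rw [abs_of_pos (by linarith)]
        linarith
      · have e1 : (((η + θ + 2 * Real.pi : ℝ) : ℂ) * I) =
            ((η + θ : ℝ) : ℂ) * I + 2 * Real.pi * I := by push_cast; ring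
        rw [e1, Complex.exp_add, Complex.exp_two_pi_mul_I, mul_one]

theorem outside2 (η1 : ℝ) (hη1 : 0 < η1) : ∃ c2 : ℝ, 0 < c2 ∧ ∃ V0 : ℝ, 0 < V0 ∧
    ∃ C : ℝ, 0 < C ∧ ∀ (t : ℂ) (k η : ℝ), 0 ≤ t.re → 0 < k → V k t ≤ V0 → η1 ≤ |η| →
    |η| ≤ Real.pi →
    ‖E t (zp t k * cexp (η * I))‖ ≤ C * Real.exp (-(c2 / V k t)) * Md k t ∧
    ‖DE t (zp t k * cexp (η * I)) - k * E t (zp t k * cexp (η * I))‖ ≤
      C * Real.exp (-(c2 / V k t)) * Md k t * (k / ‖1 + t * (k : ℂ)‖) ∧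
    ‖D2E t (zp t k * cexp (η * I)) - 2 * k * DE t (zp t k * cexp (η * I)) +
      k ^ 2 * E t (zp t k * cexp (η * I))‖ ≤
      C * Real.exp (-(c2 / V k t)) * Md k t * (k / ‖1 + t * (k : ℂ)‖) * k := by
  obtain ⟨η2, hη2⟩ : ∃ η2, η2 = min η1 3 / 2 := ⟨_, rfl⟩
  have hη20 : 0 < η2 := by rw [hη2]; have := lt_min hη1 three_pos; linarith
  have hη21 : η2 ≤ 3 / 2 := by rw [hη2]; have := min_le_right η1 (3 : ℝ); linarith
  have hη22 : 2 * η2 ≤ η1 := by rw [hη2]; have := min_le_left η1 (3 : ℝ); linarith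
  obtain ⟨ca, hca, Va, hVa, Ca, hCa, Ha⟩ := lemmaO η1 hη1
  obtain ⟨cb, hcb, Vb, hVb, Cb, hCb, Hb⟩ := lemmaO η2 hη20
  refine ⟨min ca (5 / 6 * cb), lt_min hca (by positivity),
    min (min Va (1 / 100)) (min (5 / 6 * Vb) (η2 / 2)),
    lt_min (lt_min hVa (by norm_num)) (lt_min (by positivity) (by positivity)),
    12 * Cb + 3 * Ca, by positivity, ?_⟩
  intro t k η ht hk hV hη hη'
  have hVa' : V k t ≤ Va := hV.trans ((min_le_left _ _).trans (min_le_left _ _))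
  have hV1 : V k t ≤ 1 / 100 := hV.trans ((min_le_left _ _).trans (min_le_right _ _))
  have hV2 : V k t ≤ 5 / 6 * Vb := hV.trans ((min_le_right _ _).trans (min_le_left _ _))
  have hV3 : V k t ≤ η2 / 2 := hV.trans ((min_le_right _ _).trans (min_le_right _ _))
  have hV0 := V_pos hk ht
  obtain ⟨H1, H2⟩ := Ha t k η ht hk hVa' hη hη'
  set c2 := min ca (5 / 6 * cb) with hc2
  set X := Real.exp (-(c2 / V k t)) with hX
  have hX0 : 0 < X := Real.exp_pos _
  have hXa : Real.exp (-(ca / V k t)) ≤ X := by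
    rw [hX]
    apply Real.exp_le_exp.2
    apply neg_le_neg
    exact div_le_div_of_nonneg_right (min_le_left _ _) hV0.le
  have hVinv : 100 ≤ (V k t)⁻¹ := by
    rw [le_inv_comm₀ (by norm_num) hV0]
    linarith
  have hk100 : 100 ≤ k := hVinv.trans (inv_V_le hk ht)
  have htn := norm_t_le hk ht
  have hMd0 : 0 ≤ Md k t := by unfold Md; positivity
  have n1 := one_le_norm hk ht
  have hn0 : 0 < ‖1 + t * (k : ℂ)‖ := by linarith
  have hkn : 1 ≤ k / ‖1 + t * (k : ℂ)‖ := by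
    have h1 : (V k t)⁻¹ ≤ k / ‖1 + t * (k : ℂ)‖ := by
      rw [← re_div hk ht]
      refine (Complex.re_le_norm _).trans ?_
      rw [norm_div, Complex.norm_real, Real.norm_of_nonneg hk.le]
    linarith
  set R := k / ‖1 + t * (k : ℂ)‖ with hR
  set w := zp t k * cexp (η * I) with hw
  -- the first two bounds with `X`
  have H1' : ‖E t w‖ ≤ Ca * X * Md k t :=
    H1.trans (mul_le_mul_of_nonneg_right (mul_le_mul_of_nonneg_left hXa hCa.le) hMd0)
  have H2' : ‖DE t w - k * E t w‖ ≤ Ca * X * Md k t * R :=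
    H2.trans (mul_le_mul_of_nonneg_right (mul_le_mul_of_nonneg_right
      (mul_le_mul_of_nonneg_left hXa hCa.le) hMd0) (by linarith))
  have hP : 0 ≤ X * Md k t := mul_nonneg hX0.le hMd0
  have hCC : Ca * X * Md k t ≤ (12 * Cb + 3 * Ca) * X * Md k t := by
    rw [mul_assoc, mul_assoc]
    apply mul_le_mul_of_nonneg_right _ hP
    linarith
  refine ⟨H1'.trans hCC, H2'.trans (mul_le_mul_of_nonneg_right hCC (by linarith)), ?_⟩
  -- the shifted point
  obtain ⟨k', θ, hk1, hk2, hθ, he, hz⟩ := shift_exists (k := k) (t := t) (by linarith) ht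
  have hk'0 : 0 < k' := by linarith
  obtain ⟨hn, hsize⟩ := o2_size (by linarith : 2 ≤ k) ht (by linarith) hk1 hk2 he
  obtain ⟨η', ha1, ha2, ha3⟩ := o2_angle hη20 hη21 (hη22.trans hη) hη'
    (hθ.trans (htn.trans (by linarith)))
  have hVc : V k' t ≤ 6 / 5 * V k t := V_compare hk ht (by linarith) (by linarith)
  have hV'0 := V_pos hk'0 ht
  obtain ⟨-, H3⟩ := Hb t k' η' ht hk'0 (by linarith) ha1 ha2
  have hw' : zp t k' * cexp (η' * I) = cexp (-t) * w := by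
    rw [ha3, hw, ← mul_assoc, hz]
    push_cast
    rw [add_mul, Complex.exp_add]
    ring
  rw [hw'] at H3
  have hXb : Real.exp (-(cb / V k' t)) ≤ X := by
    rw [hX]
    apply Real.exp_le_exp.2
    apply neg_le_neg
    calc c2 / V k t ≤ 5 / 6 * cb / V k t :=
          div_le_div_of_nonneg_right (min_le_right _ _) hV0.le
      _ = cb / (6 / 5 * V k t) := by field_simp
      _ ≤ cb / V k' t := div_le_div_of_nonneg_left hcb.le hV'0 hVc
  have n2 := one_le_norm hk'0 ht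
  have hR' : k' / ‖1 + t * (k' : ℂ)‖ ≤ 2 * R := by
    rw [hR, mul_div_assoc', div_le_div_iff₀ (by linarith) hn0]
    nlinarith
  have hMd'0 : 0 ≤ Md k' t := by unfold Md; positivity
  -- the three terms
  have T1 : ‖w * (DE t (cexp (-t) * w) - k' * E t (cexp (-t) * w))‖ ≤
      12 * Cb * (X * Md k t) * R * k := by
    rw [norm_mul]
    have hwn : ‖w‖ = ‖zp t k‖ := by
      rw [hw, norm_mul, Complex.norm_exp_ofReal_mul_I, mul_one]
    have h1 : ‖DE t (cexp (-t) * w) - k' * E t (cexp (-t) * w)‖ ≤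
        Cb * X * Md k' t * (2 * R) := by
      refine H3.trans ?_
      gcongr
    calc ‖w‖ * ‖DE t (cexp (-t) * w) - k' * E t (cexp (-t) * w)‖
        ≤ ‖zp t k‖ * (Cb * X * Md k' t * (2 * R)) := by
          rw [hwn]
          exact mul_le_mul_of_nonneg_left h1 (norm_nonneg _)
      _ = (‖zp t k‖ * Md k' t) * (2 * Cb * X * R) := by ring
      _ ≤ (6 * k * Md k t) * (2 * Cb * X * R) := by
          apply mul_le_mul_of_nonneg_right hsize
          have : 0 ≤ R := by linarith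
          positivity
      _ = _ := by ring
  have T2 : ‖((1 + k' - k : ℝ) : ℂ) * DE t w‖ ≤ 2 * Ca * (X * Md k t) * R * k := by
    rw [norm_mul, Complex.norm_real]
    have h1 : ‖(1 + k' - k : ℝ)‖ ≤ 1 := by
      rw [Real.norm_eq_abs, abs_le]
      constructor <;> linarith
    have h2 : ‖DE t w‖ ≤ Ca * X * Md k t * R + k * (Ca * X * Md k t) := by
      have e1 : DE t w = (DE t w - k * E t w) + k * E t w := by ring
      rw [e1]
      refine (norm_add_le _ _).trans (add_le_add H2' ?_)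
      rw [norm_mul, Complex.norm_real, Real.norm_of_nonneg hk.le]
      exact mul_le_mul_of_nonneg_left H1' hk.le
    have hQ : 0 ≤ Ca * (X * Md k t) := mul_nonneg hCa.le hP
    have h3 : R ≤ R * k := by
      have : 0 ≤ R := by linarith
      nlinarith
    have h4 : k ≤ R * k := by nlinarith
    calc ‖(1 + k' - k : ℝ)‖ * ‖DE t w‖ ≤ 1 * ‖DE t w‖ :=
          mul_le_mul_of_nonneg_right h1 (norm_nonneg _)
      _ = ‖DE t w‖ := one_mul _
      _ ≤ Ca * X * Md k t * R + k * (Ca * X * Md k t) := h2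
      _ = Ca * (X * Md k t) * R + Ca * (X * Md k t) * k := by ring
      _ ≤ Ca * (X * Md k t) * (R * k) + Ca * (X * Md k t) * (R * k) :=
          add_le_add (mul_le_mul_of_nonneg_left h3 hQ) (mul_le_mul_of_nonneg_left h4 hQ)
      _ = _ := by ring
  have T3 : ‖(k : ℂ) * (DE t w - k * E t w)‖ ≤ Ca * (X * Md k t) * R * k := by
    rw [norm_mul, Complex.norm_real, Real.norm_of_nonneg hk.le]
    calc k * ‖DE t w - k * E t w‖ ≤ k * (Ca * X * Md k t * R) :=
          mul_le_mul_of_nonneg_left H2' hk.le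
      _ = _ := by ring
  have hid : D2E t w - 2 * k * DE t w + k ^ 2 * E t w =
      w * (DE t (cexp (-t) * w) - k' * E t (cexp (-t) * w)) +
      ((1 + k' - k : ℝ) : ℂ) * DE t w - (k : ℂ) * (DE t w - k * E t w) := by
    have e1 : DE t w = w * E t (cexp (-t) * w) := rfl
    have e2 : D2E t w = DE t w + w * DE t (cexp (-t) * w) := rfl
    rw [e2]
    push_cast
    linear_combination (k' : ℂ) * (-e1)
  rw [hid]
  refine (norm_sub_le _ _).trans ((add_le_add ((norm_add_le _ _).trans (add_le_add T1 T2)) T3).trans ?_)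
  have : 12 * Cb * (X * Md k t) * R * k + 2 * Ca * (X * Md k t) * R * k + Ca * (X * Md k t) * R * k
      = (12 * Cb + 3 * Ca) * X * Md k t * R * k := by ring
  exact this.le

end SokalBPlus
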