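import Mathlib

/-!
# The sums over the central interval of rotated copies

`T j` (`j ∈ [a,b]`) is log-concave with constant `1/20` and maximal at `μ`, `M (j+1) - M j` has size about `λ`.  Then, for
the larger neighbour `ν` of `μ`, the three sums needed in `Core.lean` are bounded.
-/

namespace SokalBPlus

open Finset

private theorem sum_le_of_inj (F : Finset ℤ) (f : ℤ → ℝ) (φ : ℤ → ℕ)
    (hinj : Set.InjOn φ F) (g : ℕ → ℝ) (hg : ∀ k, 0 ≤ g k) (C : ℝ)
    (hC : ∀ n, ∑ k ∈ Finset.range n, g k ≤ C) (h : ∀ m ∈ F, f m ≤ g (φ m)) :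
    ∑ m ∈ F, f m ≤ C := by
  classical
  calc ∑ m ∈ F, f m ≤ ∑ m ∈ F, g (φ m) := Finset.sum_le_sum h
    _ = ∑ k ∈ F.image φ, g k := by
        rw [Finset.sum_image]
        intro x hx y hy hxy
        exact hinj hx hy hxy
    _ ≤ ∑ k ∈ Finset.range ((F.image φ).sup id + 1), g k := by
        refine Finset.sum_le_sum_of_subset_of_nonneg ?_ (fun k _ _ => hg k)
        intro k hk
        rw [Finset.mem_range]
        have : id k ≤ (F.image φ).sup id := Finset.le_sup hk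
        simp only [id] at this
        omega
    _ ≤ C := hC _

private theorem geo0 (n : ℕ) : ∑ k ∈ Finset.range n, ((1 : ℝ) / 20) ^ k =
    20 / 19 - (1 / 20) ^ n * (20 / 19) := by
  induction n with
  | zero => simp
  | succ n ih =>
    rw [Finset.sum_range_succ, ih, pow_succ]
    ring

private theorem geo1 (n : ℕ) : ∑ k ∈ Finset.range n, (k : ℝ) * (1 / 20) ^ k =
    20 / 361 - (1 / 20) ^ n * (380 * n + 20) / 361 := by
  induction n with
  | zero => simp
  | succ n ih =>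
    rw [Finset.sum_range_succ, ih, pow_succ]
    push_cast
    ring

private theorem geo2 (n : ℕ) : ∑ k ∈ Finset.range n, ((k : ℝ) + 1) ^ 2 * (1 / 20) ^ k =
    8400 / 6859 - (1 / 20) ^ n * (7220 * (n : ℝ) ^ 2 + 15200 * n + 8400) / 6859 := by
  induction n with
  | zero => simp
  | succ n ih =>
    rw [Finset.sum_range_succ, ih, pow_succ]
    push_cast
    ring

private theorem decay {b μ : ℤ} {T : ℤ → ℝ} (hT : ∀ m, μ ≤ m → m ≤ b → 0 < T m)
    (h0 : T (μ + 1) ≤ T μ)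
    (hlc : ∀ m, μ < m → m < b → T (m + 1) * T (m - 1) ≤ 1 / 20 * T m ^ 2) (k : ℕ) :
    μ + 1 + k ≤ b → T (μ + 1 + k) ≤ (1 / 20) ^ k * T (μ + 1) ∧ T (μ + 1 + k) ≤ T (μ + k) := by
  induction k with
  | zero =>
    intro _
    simp only [Nat.cast_zero, add_zero, pow_zero, one_mul, le_refl, true_and]
    exact h0
  | succ k ih =>
    intro hb
    push_cast at hb
    obtain ⟨h1, h2⟩ := ih (by omega)
    have h3 := hlc (μ + 1 + k) (by omega) (by omega)
    have e1 : μ + 1 + (k : ℤ) - 1 = μ + k := by ring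
    have e2 : μ + 1 + ((k + 1 : ℕ) : ℤ) = μ + 1 + k + 1 := by push_cast; ring
    have e3 : μ + ((k + 1 : ℕ) : ℤ) = μ + 1 + k := by push_cast; ring
    rw [e1] at h3
    rw [e2, e3]
    have p0 := hT (μ + k) (by omega) (by omega)
    have p1 := hT (μ + 1 + k) (by omega) (by omega)
    have h4 : T (μ + 1 + k + 1) ≤ 1 / 20 * T (μ + 1 + k) := by
      by_contra hcon
      push Not at hcon
      have h5 : 1 / 20 * T (μ + 1 + k) * T (μ + k) < T (μ + 1 + k + 1) * T (μ + k) :=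
        mul_lt_mul_of_pos_right hcon p0
      nlinarith [mul_le_mul_of_nonneg_left h2 p1.le]
    constructor
    · rw [pow_succ]
      nlinarith
    · linarith

/-- The case where the right neighbour is the larger one. -/
private theorem sums_right {a b μ : ℤ} {T M : ℤ → ℂ} {lam : ℝ} (hlam : 0 < lam)
    (haμ : a < μ) (hμb : μ < b) (hμ : ∀ m, a ≤ m → m ≤ b → ‖T m‖ ≤ ‖T μ‖)
    (hT : ∀ m, a ≤ m → m ≤ b → T m ≠ 0)
    (hlc : ∀ m, a < m → m < b → ‖T (m + 1)‖ * ‖T (m - 1)‖ ≤ 1 / 20 * ‖T m‖ ^ 2)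
    (hM : ∀ m m', a ≤ m → m ≤ b → a ≤ m' → m' ≤ b → m ≠ m' →
      ‖M m - M m'‖ ≤ 118 / 100 * |(m : ℝ) - m'| * lam)
    (hside : ‖T (μ - 1)‖ ≤ ‖T (μ + 1)‖) :
    ∑ m ∈ ((Icc a b).erase μ).erase (μ + 1), ‖M m - M (μ + 1)‖ * ‖T m‖ ≤
      65 / 100 * (lam * ‖T μ‖) ∧
    ∑ m ∈ Icc a b, ‖M m - M μ‖ ^ 2 * ‖T m‖ ≤ 22 / 10 * (lam ^ 2 * ‖T μ‖) ∧
    ∑ m ∈ Icc a b, ‖T m‖ ≤ 3 * ‖T μ‖ := by
  classical
  have hB : 0 < ‖T μ‖ := norm_pos_iff.mpr (hT μ haμ.le hμb.le)
  have hpos : ∀ m, a ≤ m → m ≤ b → 0 < ‖T m‖ := fun m h1 h2 => norm_pos_iff.mpr (hT m h1 h2)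
  -- right decay
  have hR : ∀ k : ℕ, μ + 1 + k ≤ b → ‖T (μ + 1 + k)‖ ≤ (1 / 20) ^ k * ‖T μ‖ := by
    intro k hk
    have h1 := (decay (b := b) (μ := μ) (T := fun m => ‖T m‖)
      (fun m h1 h2 => hpos m (by omega) h2) (hμ (μ + 1) (by omega) (by omega))
      (fun m h1 h2 => hlc m (by omega) h2) k hk).1
    have h2 := hμ (μ + 1) (by omega) (by omega)
    have h3 : (0 : ℝ) ≤ (1 / 20) ^ k := by positivity
    exact h1.trans (mul_le_mul_of_nonneg_left h2 h3)
  -- size of the left neighbour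
  have hs : ‖T (μ - 1)‖ ≤ 2237 / 10000 * ‖T μ‖ := by
    have h1 := hlc μ haμ hμb
    have h2 : ‖T (μ - 1)‖ ^ 2 ≤ (2237 / 10000 * ‖T μ‖) ^ 2 := by
      have h3 : ‖T (μ - 1)‖ * ‖T (μ - 1)‖ ≤ ‖T (μ + 1)‖ * ‖T (μ - 1)‖ :=
        mul_le_mul_of_nonneg_right hside (norm_nonneg _)
      nlinarith [sq_nonneg ‖T μ‖]
    exact (sq_le_sq₀ (norm_nonneg _) (by positivity)).mp h2
  -- left decay
  have hL : ∀ k : ℕ, a ≤ μ - 1 - k → ‖T (μ - 1 - k)‖ ≤ (1 / 20) ^ k * (2237 / 10000 * ‖T μ‖) := by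
    intro k hk
    have h1 := (decay (b := -a) (μ := -μ) (T := fun m => ‖T (-m)‖)
      (fun m h1 h2 => hpos (-m) (by omega) (by omega))
      (by
        have e1 : -(-μ + 1) = μ - 1 := by ring
        simp only [e1, neg_neg]
        exact hμ (μ - 1) (by omega) (by omega))
      (fun m h1 h2 => by
        have e1 : -(m + 1) = -m - 1 := by ring
        have e2 : -(m - 1) = -m + 1 := by ring
        simp only [e1, e2]
        rw [mul_comm]
        exact hlc (-m) (by omega) (by omega)) k (by omega)).1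
    have e1 : -(-μ + 1 + (k : ℤ)) = μ - 1 - k := by ring
    have e2 : -(-μ + 1) = μ - 1 := by ring
    simp only [e1, e2] at h1
    have h3 : (0 : ℝ) ≤ (1 / 20) ^ k := by positivity
    exact h1.trans (mul_le_mul_of_nonneg_left hs h3)
  -- the two halves of a sum
  have hhalf : ∀ (w : ℤ → ℝ) (gR gL : ℕ → ℝ) (cR cL : ℝ), (∀ k, 0 ≤ gR k) → (∀ k, 0 ≤ gL k) →
      (∀ n, ∑ k ∈ range n, gR k ≤ cR) → (∀ n, ∑ k ∈ range n, gL k ≤ cL) →
      (∀ k : ℕ, μ + 1 + k ≤ b → w (μ + 1 + k) ≤ gR k) →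
      (∀ k : ℕ, a ≤ μ - 1 - k → w (μ - 1 - k) ≤ gL k) →
      ∑ m ∈ (Icc a b).erase μ, w m ≤ cR + cL := by
    intro w gR gL cR cL hgR hgL hcR hcL hwR hwL
    rw [← Finset.sum_filter_add_sum_filter_not ((Icc a b).erase μ) (fun m => μ < m)]
    refine add_le_add ?_ ?_
    · refine sum_le_of_inj _ _ (fun m => (m - μ - 1).toNat) ?_ gR hgR cR hcR ?_
      · intro x hx y hy hxy
        simp only [Finset.coe_filter, Set.mem_ofPred_eq, Finset.mem_erase, Finset.mem_Icc] at hx hy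
        simp only at hxy
        omega
      · intro m hm
        rw [Finset.mem_filter, Finset.mem_erase, Finset.mem_Icc] at hm
        obtain ⟨⟨hmμ, hma, hmb⟩, hmν⟩ := hm
        obtain ⟨k, hk⟩ := Int.eq_ofNat_of_zero_le (show 0 ≤ m - μ - 1 by omega)
        have hk' : (m - μ - 1).toNat = k := by omega
        simp only [hk']
        have hmk : m = μ + 1 + k := by omega
        rw [hmk]
        exact hwR k (by omega)
    · refine sum_le_of_inj _ _ (fun m => (μ - 1 - m).toNat) ?_ gL hgL cL hcL ?_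
      · intro x hx y hy hxy
        simp only [Finset.coe_filter, Set.mem_ofPred_eq, Finset.mem_erase, Finset.mem_Icc] at hx hy
        simp only at hxy
        omega
      · intro m hm
        rw [Finset.mem_filter, Finset.mem_erase, Finset.mem_Icc] at hm
        obtain ⟨⟨hmμ, hma, hmb⟩, hmν⟩ := hm
        obtain ⟨k, hk⟩ := Int.eq_ofNat_of_zero_le (show 0 ≤ μ - 1 - m by omega)
        have hk' : (μ - 1 - m).toNat = k := by omega
        simp only [hk']
        have hmk : m = μ - 1 - k := by omega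
        rw [hmk]
        exact hwL k (by omega)
  have hμI : μ ∈ Icc a b := by rw [Finset.mem_Icc]; omega
  have hp : ∀ k : ℕ, (0 : ℝ) ≤ (1 / 20) ^ k := fun k => by positivity
  have hlT : 0 < lam * ‖T μ‖ := by positivity
  refine ⟨?_, ?_, ?_⟩
  · -- first sum
    have h1 := hhalf (fun m => ‖M m - M (μ + 1)‖ * ‖T m‖)
      (fun k => 118 / 100 * (lam * ‖T μ‖) * ((k : ℝ) * (1 / 20) ^ k))
      (fun k => 118 / 100 * (lam * ‖T μ‖) * (2237 / 10000 *
        ((k : ℝ) * (1 / 20) ^ k + 2 * (1 / 20) ^ k)))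
      (118 / 100 * (lam * ‖T μ‖) * (20 / 361))
      (118 / 100 * (lam * ‖T μ‖) * (2237 / 10000 * (20 / 361 + 2 * (20 / 19))))
      (fun k => by positivity) (fun k => by positivity) ?_ ?_ ?_ ?_
    · refine le_trans (Finset.sum_le_sum_of_subset_of_nonneg (Finset.erase_subset _ _)
        fun m _ _ => by positivity) (h1.trans ?_)
      nlinarith
    · intro n
      rw [← Finset.mul_sum, geo1]
      refine mul_le_mul_of_nonneg_left ?_ (by positivity)
      have : (0 : ℝ) ≤ (1 / 20) ^ n * (380 * n + 20) / 361 := by positivity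
      linarith
    · intro n
      rw [← Finset.mul_sum, ← Finset.mul_sum, Finset.sum_add_distrib, ← Finset.mul_sum, geo1, geo0]
      refine mul_le_mul_of_nonneg_left ?_ (by positivity)
      refine mul_le_mul_of_nonneg_left ?_ (by norm_num)
      have h1 : (0 : ℝ) ≤ (1 / 20) ^ n * (380 * n + 20) / 361 := by positivity
      have h2 : (0 : ℝ) ≤ (1 / 20) ^ n * (20 / 19) := by positivity
      linarith
    · intro k hk
      by_cases hk0 : k = 0
      · subst hk0
        simp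
      · have h2 := hM (μ + 1 + k) (μ + 1) (by omega) hk (by omega) (by omega) (by omega)
        have h3 : |((μ + 1 + (k : ℤ) : ℤ) : ℝ) - ((μ + 1 : ℤ) : ℝ)| = k := by
          push_cast
          rw [add_sub_cancel_left]
          exact abs_of_nonneg (Nat.cast_nonneg k)
        rw [h3] at h2
        calc ‖M (μ + 1 + k) - M (μ + 1)‖ * ‖T (μ + 1 + k)‖ ≤
            (118 / 100 * k * lam) * ((1 / 20) ^ k * ‖T μ‖) :=
              mul_le_mul h2 (hR k hk) (norm_nonneg _) (by positivity)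
          _ = _ := by ring
    · intro k hk
      have h2 := hM (μ - 1 - k) (μ + 1) hk (by omega) (by omega) (by omega) (by omega)
      have h3 : |((μ - 1 - (k : ℤ) : ℤ) : ℝ) - ((μ + 1 : ℤ) : ℝ)| = k + 2 := by
        push_cast
        rw [show (μ : ℝ) - 1 - k - (μ + 1) = -(k + 2) by ring, abs_neg]
        exact abs_of_nonneg (by positivity)
      rw [h3] at h2
      calc ‖M (μ - 1 - k) - M (μ + 1)‖ * ‖T (μ - 1 - k)‖ ≤
          (118 / 100 * (k + 2) * lam) * ((1 / 20) ^ k * (2237 / 10000 * ‖T μ‖)) :=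
            mul_le_mul h2 (hL k hk) (norm_nonneg _) (by positivity)
        _ = _ := by ring
  · -- second sum
    have hl2 : 0 < lam ^ 2 * ‖T μ‖ := by positivity
    have h1 := hhalf (fun m => ‖M m - M μ‖ ^ 2 * ‖T m‖)
      (fun k => (118 / 100) ^ 2 * (lam ^ 2 * ‖T μ‖) * (((k : ℝ) + 1) ^ 2 * (1 / 20) ^ k))
      (fun k => (118 / 100) ^ 2 * (lam ^ 2 * ‖T μ‖) * (2237 / 10000 *
        (((k : ℝ) + 1) ^ 2 * (1 / 20) ^ k)))
      ((118 / 100) ^ 2 * (lam ^ 2 * ‖T μ‖) * (8400 / 6859))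
      ((118 / 100) ^ 2 * (lam ^ 2 * ‖T μ‖) * (2237 / 10000 * (8400 / 6859)))
      (fun k => by positivity) (fun k => by positivity) ?_ ?_ ?_ ?_
    · rw [← Finset.add_sum_erase _ _ hμI]
      simp only [sub_self, norm_zero]
      have h2 : (118 / 100 : ℝ) ^ 2 * (lam ^ 2 * ‖T μ‖) * (8400 / 6859) +
          (118 / 100) ^ 2 * (lam ^ 2 * ‖T μ‖) * (2237 / 10000 * (8400 / 6859)) ≤
          22 / 10 * (lam ^ 2 * ‖T μ‖) := by nlinarith
      have h3 : (0 : ℝ) ^ 2 * ‖T μ‖ = 0 := by ring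
      rw [h3, zero_add]
      exact h1.trans h2
    · intro n
      rw [← Finset.mul_sum, geo2]
      refine mul_le_mul_of_nonneg_left ?_ (by positivity)
      have : (0 : ℝ) ≤ (1 / 20) ^ n * (7220 * (n : ℝ) ^ 2 + 15200 * n + 8400) / 6859 := by positivity
      linarith
    · intro n
      rw [← Finset.mul_sum, ← Finset.mul_sum, geo2]
      refine mul_le_mul_of_nonneg_left ?_ (by positivity)
      refine mul_le_mul_of_nonneg_left ?_ (by norm_num)
      have : (0 : ℝ) ≤ (1 / 20) ^ n * (7220 * (n : ℝ) ^ 2 + 15200 * n + 8400) / 6859 := by positivity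
      linarith
    · intro k hk
      have h2 := hM (μ + 1 + k) μ (by omega) hk (by omega) (by omega) (by omega)
      have h3 : |((μ + 1 + (k : ℤ) : ℤ) : ℝ) - (μ : ℝ)| = k + 1 := by
        push_cast
        rw [show (μ : ℝ) + 1 + k - μ = k + 1 by ring]
        exact abs_of_nonneg (by positivity)
      rw [h3] at h2
      calc ‖M (μ + 1 + k) - M μ‖ ^ 2 * ‖T (μ + 1 + k)‖ ≤
          (118 / 100 * (k + 1) * lam) ^ 2 * ((1 / 20) ^ k * ‖T μ‖) := by
            refine mul_le_mul ?_ (hR k hk) (norm_nonneg _) (by positivity)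
            exact pow_le_pow_left₀ (norm_nonneg _) h2 2
        _ = _ := by ring
    · intro k hk
      have h2 := hM (μ - 1 - k) μ hk (by omega) (by omega) (by omega) (by omega)
      have h3 : |((μ - 1 - (k : ℤ) : ℤ) : ℝ) - (μ : ℝ)| = k + 1 := by
        push_cast
        rw [show (μ : ℝ) - 1 - k - μ = -(k + 1) by ring, abs_neg]
        exact abs_of_nonneg (by positivity)
      rw [h3] at h2
      calc ‖M (μ - 1 - k) - M μ‖ ^ 2 * ‖T (μ - 1 - k)‖ ≤
          (118 / 100 * (k + 1) * lam) ^ 2 * ((1 / 20) ^ k * (2237 / 10000 * ‖T μ‖)) := by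
            refine mul_le_mul ?_ (hL k hk) (norm_nonneg _) (by positivity)
            exact pow_le_pow_left₀ (norm_nonneg _) h2 2
        _ = _ := by ring
  · -- third sum
    have h1 := hhalf (fun m => ‖T m‖)
      (fun k => ‖T μ‖ * (1 / 20) ^ k)
      (fun k => 2237 / 10000 * ‖T μ‖ * (1 / 20) ^ k)
      (‖T μ‖ * (20 / 19)) (2237 / 10000 * ‖T μ‖ * (20 / 19))
      (fun k => by positivity) (fun k => by positivity) ?_ ?_ ?_ ?_
    · rw [← Finset.add_sum_erase _ _ hμI]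
      linarith
    · intro n
      rw [← Finset.mul_sum, geo0]
      refine mul_le_mul_of_nonneg_left ?_ (by positivity)
      have : (0 : ℝ) ≤ (1 / 20) ^ n * (20 / 19) := by positivity
      linarith
    · intro n
      rw [← Finset.mul_sum, geo0]
      refine mul_le_mul_of_nonneg_left ?_ (by positivity)
      have : (0 : ℝ) ≤ (1 / 20) ^ n * (20 / 19) := by positivity
      linarith
    · intro k hk
      have := hR k hk
      linarith
    · intro k hk
      have := hL k hk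
      linarith

theorem sums {a b μ : ℤ} {T M : ℤ → ℂ} {lam : ℝ} (hlam : 0 < lam)
    (haμ : a < μ) (hμb : μ < b) (hμ : ∀ m, a ≤ m → m ≤ b → ‖T m‖ ≤ ‖T μ‖)
    (hT : ∀ m, a ≤ m → m ≤ b → T m ≠ 0)
    (hlc : ∀ m, a < m → m < b → ‖T (m + 1)‖ * ‖T (m - 1)‖ ≤ 1 / 20 * ‖T m‖ ^ 2)
    (hM : ∀ m m', a ≤ m → m ≤ b → a ≤ m' → m' ≤ b → m ≠ m' →
      ‖M m - M m'‖ ≤ 118 / 100 * |(m : ℝ) - m'| * lam)
    (hM' : ∀ m, a ≤ m → m + 1 ≤ b → 87 / 100 * lam ≤ ‖M (m + 1) - M m‖) :
    ∃ ν : ℤ, a ≤ ν ∧ ν ≤ b ∧ μ ≠ ν ∧ 87 / 100 * lam ≤ ‖M ν - M μ‖ ∧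
      ‖M ν - M μ‖ ≤ 118 / 100 * lam ∧
      ∑ m ∈ ((Icc a b).erase μ).erase ν, ‖M m - M ν‖ * ‖T m‖ ≤
        3 / 4 * (‖M ν - M μ‖ * ‖T μ‖) ∧
      ∑ m ∈ Icc a b, ‖M m - M μ‖ ^ 2 * ‖T m‖ ≤ 3 * (‖M ν - M μ‖ ^ 2 * ‖T μ‖) ∧
      ∑ m ∈ Icc a b, ‖T m‖ ≤ 3 * ‖T μ‖ := by
  classical
  have key : ∀ ν : ℤ, 87 / 100 * lam ≤ ‖M ν - M μ‖ →
      ∑ m ∈ ((Icc a b).erase μ).erase ν, ‖M m - M ν‖ * ‖T m‖ ≤ 65 / 100 * (lam * ‖T μ‖) →
      ∑ m ∈ Icc a b, ‖M m - M μ‖ ^ 2 * ‖T m‖ ≤ 22 / 10 * (lam ^ 2 * ‖T μ‖) →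
      ∑ m ∈ ((Icc a b).erase μ).erase ν, ‖M m - M ν‖ * ‖T m‖ ≤
        3 / 4 * (‖M ν - M μ‖ * ‖T μ‖) ∧
      ∑ m ∈ Icc a b, ‖M m - M μ‖ ^ 2 * ‖T m‖ ≤ 3 * (‖M ν - M μ‖ ^ 2 * ‖T μ‖) := by
    intro ν h1 h2 h3
    have hT0 := norm_nonneg (T μ)
    constructor
    · refine h2.trans ?_
      have : 87 / 100 * lam * ‖T μ‖ ≤ ‖M ν - M μ‖ * ‖T μ‖ := by gcongr
      nlinarith
    · refine h3.trans ?_
      have h4 : (87 / 100 * lam) ^ 2 * ‖T μ‖ ≤ ‖M ν - M μ‖ ^ 2 * ‖T μ‖ := by gcongr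
      have h5 : 0 ≤ lam ^ 2 * ‖T μ‖ := by positivity
      nlinarith
  rcases le_total ‖T (μ - 1)‖ ‖T (μ + 1)‖ with hside | hside
  · obtain ⟨s1, s2, s3⟩ := sums_right hlam haμ hμb hμ hT hlc hM hside
    have h1 := hM' μ haμ.le (by omega)
    have h2 := hM (μ + 1) μ (by omega) (by omega) (by omega) (by omega) (by omega)
    have h3 : |((μ + 1 : ℤ) : ℝ) - (μ : ℝ)| = 1 := by
      push_cast
      rw [add_sub_cancel_left, abs_one]
    rw [h3, mul_one] at h2
    obtain ⟨k1, k2⟩ := key (μ + 1) h1 s1 s2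
    exact ⟨μ + 1, by omega, by omega, by omega, h1, h2, k1, k2, s3⟩
  · obtain ⟨s1, s2, s3⟩ := sums_right (a := -b) (b := -a) (μ := -μ) (T := fun m => T (-m))
      (M := fun m => M (-m)) hlam (by omega) (by omega)
      (fun m h1 h2 => by simpa using hμ (-m) (by omega) (by omega))
      (fun m h1 h2 => hT (-m) (by omega) (by omega))
      (fun m h1 h2 => by
        have e1 : -(m + 1) = -m - 1 := by ring
        have e2 : -(m - 1) = -m + 1 := by ring
        simp only [e1, e2]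
        rw [mul_comm]
        exact hlc (-m) (by omega) (by omega))
      (fun m m' h1 h2 h3 h4 h5 => by
        have h6 := hM (-m) (-m') (by omega) (by omega) (by omega) (by omega) (by omega)
        have e : |((-m : ℤ) : ℝ) - ((-m' : ℤ) : ℝ)| = |(m : ℝ) - m'| := by
          push_cast
          rw [← abs_neg]
          congr 1
          ring
        rw [e] at h6
        exact h6)
      (by
        have e1 : -(-μ - 1) = μ + 1 := by ring
        have e2 : -(-μ + 1) = μ - 1 := by ring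
        simp only [e1, e2]
        exact hside)
    have e1 : -(-μ + 1) = μ - 1 := by ring
    simp only [e1, neg_neg] at s1 s2 s3
    have h1 := hM' (μ - 1) (by omega) (by omega)
    rw [sub_add_cancel, norm_sub_rev] at h1
    have h2 := hM (μ - 1) μ (by omega) (by omega) (by omega) (by omega) (by omega)
    have h3 : |((μ - 1 : ℤ) : ℝ) - (μ : ℝ)| = 1 := by
      push_cast
      rw [show (μ : ℝ) - 1 - μ = -1 by ring, abs_neg, abs_one]
    rw [h3, mul_one] at h2
    -- transport the sums by negation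
    have t1 : ∑ m ∈ ((Icc (-b) (-a)).erase (-μ)).erase (-μ + 1),
        ‖M (-m) - M (μ - 1)‖ * ‖T (-m)‖ =
        ∑ m ∈ ((Icc a b).erase μ).erase (μ - 1), ‖M m - M (μ - 1)‖ * ‖T m‖ := by
      refine Finset.sum_nbij' (fun m => -m) (fun m => -m) ?_ ?_ ?_ ?_ ?_
      · intro m hm
        simp only [Finset.mem_erase, Finset.mem_Icc] at hm ⊢
        omega
      · intro m hm
        simp only [Finset.mem_erase, Finset.mem_Icc] at hm ⊢
        omega
      · intro m _; ring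
      · intro m _; ring
      · intro m _; rfl
    have t2 : ∀ w : ℤ → ℝ, ∑ m ∈ Icc (-b) (-a), w (-m) = ∑ m ∈ Icc a b, w m := by
      intro w
      refine Finset.sum_nbij' (fun m => -m) (fun m => -m) ?_ ?_ ?_ ?_ ?_
      · intro m hm
        simp only [Finset.mem_Icc] at hm ⊢
        omega
      · intro m hm
        simp only [Finset.mem_Icc] at hm ⊢
        omega
      · intro m _; ring
      · intro m _; ring
      · intro m _; rfl
    rw [t1] at s1
    rw [t2 (fun m => ‖M m - M μ‖ ^ 2 * ‖T m‖)] at s2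
    rw [t2 (fun m => ‖T m‖)] at s3
    obtain ⟨k1, k2⟩ := key (μ - 1) h1 s1 s2
    exact ⟨μ - 1, by omega, by omega, by omega, h1, h2, k1, k2, s3⟩

end SokalBPlus
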