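import Pool.Agent.Lib_MP_af4de1_u.Inside
import Pool.Agent.Lib_MP_af4de1_BPlus.Core
import Pool.Agent.Lib_MP_af4de1_BPlus.Sums
import Pool.Agent.Lib_MP_af4de1_BPlus.Inside2
import Pool.Agent.Lib_MP_af4de1_BPlus.Outside2

/-!
# The sign condition for large `N` and small `V`
-/

namespace SokalBPlus

open Complex SokalU

private theorem small (C c : ℝ) (hC : 0 < C) (hc : 0 < c) : ∃ V0 : ℝ, 0 < V0 ∧
    ∀ V : ℝ, 0 < V → V ≤ V0 → C * √V ≤ 1 / 100000 ∧
      C / V * Real.exp (-(c / V)) ≤ 1 / 100000 := by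
  refine ⟨min ((1 / (100000 * C)) ^ 2) (c ^ 2 / (200000 * C)), by positivity, fun V hV hV0 => ?_⟩
  have h1 : V ≤ (1 / (100000 * C)) ^ 2 := hV0.trans (min_le_left _ _)
  have h2 : V ≤ c ^ 2 / (200000 * C) := hV0.trans (min_le_right _ _)
  constructor
  · have h3 : √V ≤ 1 / (100000 * C) := by
      rw [Real.sqrt_le_left (by positivity)]
      exact h1
    calc C * √V ≤ C * (1 / (100000 * C)) := by gcongr
      _ = 1 / 100000 := by field_simp
  · have h3 : 0 < c / V := by positivity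
    have h4 := Real.quadratic_le_exp_of_nonneg h3.le
    have h5 : (c / V) ^ 2 / 2 ≤ Real.exp (c / V) := by linarith
    have h6 : Real.exp (-(c / V)) ≤ 2 * V ^ 2 / c ^ 2 := by
      rw [Real.exp_neg, inv_le_comm₀ (Real.exp_pos _) (by positivity)]
      refine le_trans (le_of_eq ?_) h5
      field_simp
    calc C / V * Real.exp (-(c / V)) ≤ C / V * (2 * V ^ 2 / c ^ 2) := by gcongr
      _ = 2 * C / c ^ 2 * V := by field_simp
      _ ≤ 2 * C / c ^ 2 * (c ^ 2 / (200000 * C)) := by gcongr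
      _ = 1 / 100000 := by field_simp; norm_num

private theorem exp_bound {x : ℝ} (hx : Real.pi ≤ x) :
    Real.exp (1 / 50 - 49 / 50 * x) ≤ 1 / 20 := by
  have h1 : 1 / 50 - 49 / 50 * x ≤ -3 := by
    have := Real.pi_gt_d2
    linarith
  have h2 : (20 : ℝ) ≤ Real.exp 3 := by
    have h3 : Real.exp 3 = Real.exp 1 ^ 3 := by
      rw [← Real.exp_nat_mul]; norm_num
    rw [h3]
    have h4 := Real.exp_one_gt_d9
    calc (20 : ℝ) ≤ 2.7182818283 ^ 3 := by norm_num
      _ ≤ Real.exp 1 ^ 3 := by gcongr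
  calc Real.exp (1 / 50 - 49 / 50 * x) ≤ Real.exp (-3) := Real.exp_le_exp.2 h1
    _ = (Real.exp 3)⁻¹ := Real.exp_neg 3
    _ ≤ 20⁻¹ := inv_anti₀ (by norm_num) h2
    _ = 1 / 20 := by norm_num

private theorem sq_le_quarter {x h : ℝ} (h1 : -(h / 2) ≤ x) (h2 : x ≤ h / 2) :
    x ^ 2 ≤ h ^ 2 / 4 := by
  have := sq_le_sq' h1 h2
  calc x ^ 2 ≤ (h / 2) ^ 2 := this
    _ = h ^ 2 / 4 := by ring

/-- The first index after `c`. -/
private theorem idx_up {h β ε : ℝ} (hh : 0 < h) (c : ℝ) :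
    ∃ m : ℤ, c ≤ β + h * (m + ε) ∧ β + h * (m + ε) < c + h := by
  refine ⟨⌈(c - β) / h - ε⌉, ?_, ?_⟩
  · have h1 := Int.le_ceil ((c - β) / h - ε)
    have h2 : (c - β) / h ≤ ⌈(c - β) / h - ε⌉ + ε := by linarith
    rw [div_le_iff₀ hh] at h2
    linarith
  · have h1 := Int.ceil_lt_add_one ((c - β) / h - ε)
    have h2 : (⌈(c - β) / h - ε⌉ : ℝ) + ε - 1 < (c - β) / h := by linarith
    rw [lt_div_iff₀ hh] at h2
    linarith

/-- The last index before `c`. -/
private theorem idx_down {h β ε : ℝ} (hh : 0 < h) (c : ℝ) :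
    ∃ m : ℤ, c - h < β + h * (m + ε) ∧ β + h * (m + ε) ≤ c := by
  refine ⟨⌊(c - β) / h - ε⌋, ?_, ?_⟩
  · have h1 := Int.lt_floor_add_one ((c - β) / h - ε)
    have h2 : (c - β) / h < ⌊(c - β) / h - ε⌋ + ε + 1 := by linarith
    rw [div_lt_iff₀ hh] at h2
    linarith
  · have h1 := Int.floor_le ((c - β) / h - ε)
    have h2 : (⌊(c - β) / h - ε⌋ : ℝ) + ε ≤ (c - β) / h := by linarith
    rw [le_div_iff₀ hh] at h2
    linarith

theorem bigN : ∃ N0 : ℕ, 0 < N0 ∧ ∃ V0 : ℝ, 0 < V0 ∧ ∀ (q z t : ℂ) (k β m : ℝ) (N : ℕ) (a : ℤ),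
    N0 ≤ N → IsCoprime a (N : ℤ) → 0 ≤ t.re → 0 < k → V k t ≤ V0 →
    (N : ℝ) ^ 2 * V k t ≤ 4 * Real.pi → q = cexp (2 * Real.pi * I * a / N) * cexp (-t) →
    z = zp t k * cexp (β * I) → 0 < m →
    z * SokalF.F q (q * z) + m * SokalF.F q z = 0 →
    ((z * SokalF.F q (q * z) + z * (q * z * SokalF.F q (q * (q * z))) - m ^ 2 * SokalF.F q z) /
      SokalF.F q z).re < 0 := by
  classical
  obtain ⟨ηa, hηa, Va, hVa, Ca, hCa, Hin⟩ := inside
  obtain ⟨ηb, hηb, Vb, hVb, Cb, hCb, Hin2⟩ := inside2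
  set η1 := min ηa ηb with hη1d
  have hη1 : 0 < η1 := lt_min hηa hηb
  obtain ⟨c2, hc2, Vc, hVc, Cc, hCc, Hout⟩ := outside2 (min η1 1) (lt_min hη1 one_pos)
  set η2 := min η1 1 with hη2d
  have hη2 : 0 < η2 := lt_min hη1 one_pos
  set CC := Ca + Cb + 4 * Real.pi * Cc with hCC
  have hπ := Real.pi_pos
  have hCC0 : 0 < CC := by positivity
  obtain ⟨Vd, hVd, Hsm⟩ := small CC (c2 / 2) hCC0 (by positivity)
  -- the bound for `h`
  set h0 := min (min (1 / 10000) (η2 / 4)) (3 * c2) with hh0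
  have hh0pos : 0 < h0 := by positivity
  obtain ⟨N0, hN0⟩ := exists_nat_gt (2 * Real.pi / h0)
  refine ⟨N0 + 1, by omega, min (min (min Va Vb) (min Vc Vd)) (4 / 10 * η2 ^ 2), by positivity, ?_⟩
  intro q z t k β m N a hN hco ht hk hV hNV hq hz hm hG
  have hVa' : V k t ≤ Va := hV.trans ((min_le_left _ _).trans ((min_le_left _ _).trans (min_le_left _ _)))
  have hVb' : V k t ≤ Vb := hV.trans ((min_le_left _ _).trans ((min_le_left _ _).trans (min_le_right _ _)))
  have hVc' : V k t ≤ Vc := hV.trans ((min_le_left _ _).trans ((min_le_right _ _).trans (min_le_left _ _)))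
  have hVd' : V k t ≤ Vd := hV.trans ((min_le_left _ _).trans ((min_le_right _ _).trans (min_le_right _ _)))
  have hVe : V k t ≤ 4 / 10 * η2 ^ 2 := hV.trans (min_le_right _ _)
  have hVp := V_pos hk ht
  set v := V k t with hv
  have hN1 : 0 < N := by omega
  have hNr : (0 : ℝ) < N := by exact_mod_cast hN1
  set h := 2 * Real.pi / N with hh
  have hhpos : 0 < h := by positivity
  have hhle : h ≤ h0 := by
    have h1 : (N0 : ℝ) + 1 ≤ N := by exact_mod_cast hN
    have h2 : 2 * Real.pi / h0 ≤ N := by linarith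
    rw [div_le_iff₀ hh0pos] at h2
    rw [hh, div_le_iff₀ hNr]
    linarith
  have hh1 : h ≤ 1 / 10000 := hhle.trans ((min_le_left _ _).trans (min_le_left _ _))
  have hh2 : h ≤ η2 / 4 := hhle.trans ((min_le_left _ _).trans (min_le_right _ _))
  have hh3 : h ≤ 3 * c2 := hhle.trans (min_le_right _ _)
  -- `π V ≤ h²`
  have hVh : Real.pi * v ≤ h ^ 2 := by
    have h1 : h ^ 2 = 4 * Real.pi ^ 2 / (N : ℝ) ^ 2 := by rw [hh]; ring
    rw [h1, le_div_iff₀ (by positivity)]
    calc Real.pi * v * (N : ℝ) ^ 2 = Real.pi * ((N : ℝ) ^ 2 * v) := by ring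
      _ ≤ Real.pi * (4 * Real.pi) := mul_le_mul_of_nonneg_left hNV hπ.le
      _ = 4 * Real.pi ^ 2 := by ring
  have hVh' : v ≤ h ^ 2 := by
    have h1 := Real.pi_gt_three
    have h2 : 1 * v ≤ Real.pi * v := mul_le_mul_of_nonneg_right (by linarith) hVp.le
    linarith
  have hsqV : √v ≤ h := by
    rw [Real.sqrt_le_left hhpos.le]
    exact hVh'
  obtain ⟨hsm1, hsm2⟩ := Hsm v hVp hVd'
  have hsv : √v * √v = v := Real.mul_self_sqrt hVp.le
  have hCV : CC * v ≤ 1 / 100000 * h := by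
    calc CC * v = (CC * √v) * √v := by rw [mul_assoc, hsv]
      _ ≤ 1 / 100000 * h := by gcongr
  have hCaV : Ca * v ≤ 1 / 100000 * h := by
    refine le_trans ?_ hCV
    gcongr
    rw [hCC]
    have : 0 < 4 * Real.pi * Cc := by positivity
    linarith
  have hCbV : Cb * v ≤ 1 / 100000 * h := by
    refine le_trans ?_ hCV
    gcongr
    rw [hCC]
    have : 0 < 4 * Real.pi * Cc := by positivity
    linarith
  have hW := one_le_norm hk ht
  set W := ‖1 + t * (k : ℂ)‖ with hWd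
  have hW0 : 0 < W := by linarith
  set K := k / W with hK
  have hKpos : 0 < K := by positivity
  have hKk : K ≤ k := div_le_self hk.le hW
  obtain ⟨Mm, hM1, hM2, hM3, hM4, hM5⟩ := Hin t k ht hk hVa'
  have HinB := Hin2 t k ht hk hVb'
  have HoutB := fun η => Hout t k η ht hk hVc'
  obtain ⟨g, ε, g0, hg0, hg, hl⟩ := lifts2 N hN1 a hco
  set θ : ℤ → ℝ := fun j => β + h * (j + ε) with hθ
  have hθd : ∀ i j : ℤ, θ i - θ j = (i - j) * h := fun i j => by simp only [hθ]; ring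
  have hrot : ∀ j : ℤ, cexp (2 * Real.pi * (j + ε) / N * I) * z = zp t k * cexp (θ j * I) := by
    intro j
    rw [hz, mul_left_comm, ← Complex.exp_add]
    congr 2
    simp only [hθ, hh]
    push_cast
    ring
  -- the indices
  obtain ⟨m0, hm0, hm0'⟩ := idx_up (β := β) (ε := ε) hhpos (-Real.pi)
  obtain ⟨ia, hia, hia'⟩ := idx_up (β := β) (ε := ε) hhpos (-η2)
  obtain ⟨ib, hib, hib'⟩ := idx_down (β := β) (ε := ε) hhpos η2
  obtain ⟨i0, hi0, hi0'⟩ := idx_up (β := β) (ε := ε) hhpos (-(h / 2))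
  have hη21 : η2 ≤ 1 := min_le_right _ _
  have hη2a : η2 ≤ ηa := (min_le_left _ _).trans (min_le_left _ _)
  have hη2b : η2 ≤ ηb := (min_le_left _ _).trans (min_le_right _ _)
  have hπ3 := Real.pi_gt_three
  have hmono : ∀ i j : ℤ, θ i < θ j → i < j := by
    intro i j hij
    have h1 := hθd i j
    have h2 : ((i : ℝ) - j) * h < 0 := by linarith
    have h3 : (i : ℝ) - j < 0 := by
      by_contra hc
      push Not at hc
      have := mul_nonneg hc hhpos.le
      linarith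
    have h4 : (i : ℝ) < j := by linarith
    exact_mod_cast h4
  have hmono' : ∀ i j : ℤ, i ≤ j → θ i ≤ θ j := by
    intro i j hij
    have h1 := hθd j i
    have h2 : (0 : ℝ) ≤ (j : ℝ) - i := by
      have : (i : ℝ) ≤ j := by exact_mod_cast hij
      linarith
    have := mul_nonneg h2 hhpos.le
    linarith
  have hθN : ∀ j : ℤ, θ (j + N) = θ j + 2 * Real.pi := by
    intro j
    have h1 := hθd (j + N) j
    push_cast at h1
    have h2 : ((j : ℝ) + N - j) * h = 2 * Real.pi := by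
      rw [hh]; field_simp; ring
    linarith
  change -Real.pi ≤ θ m0 at hm0
  change θ m0 < -Real.pi + h at hm0'
  change -η2 ≤ θ ia at hia
  change θ ia < -η2 + h at hia'
  change η2 - h < θ ib at hib
  change θ ib ≤ η2 at hib'
  change -(h / 2) ≤ θ i0 at hi0
  change θ i0 < -(h / 2) + h at hi0'
  have hia0 : ia < i0 := hmono _ _ (by linarith)
  have hi0b : i0 < ib := hmono _ _ (by linarith)
  have hm0a : m0 < ia := hmono _ _ (by linarith)
  have hibN : ib < m0 + N := hmono _ _ (by rw [hθN]; linarith)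
  have hin : ∀ j : ℤ, ia ≤ j → j ≤ ib → |θ j| ≤ η2 := by
    intro j h1 h2
    rw [abs_le]
    exact ⟨hia.trans (hmono' _ _ h1), (hmono' _ _ h2).trans hib'⟩
  have hout : ∀ j : ℤ, m0 ≤ j → j < m0 + N → ¬ (ia ≤ j ∧ j ≤ ib) → η2 ≤ |θ j| ∧ |θ j| ≤ Real.pi := by
    intro j h1 h2 h3
    constructor
    · by_cases h4 : ia ≤ j
      · have h5 : ib + 1 ≤ j := by
          by_contra hc
          exact h3 ⟨h4, by omega⟩
        have h6 := hmono' _ _ h5
        have h7 := hθd (ib + 1) ib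
        push_cast at h7
        have h8 : η2 < θ j := by linarith
        exact h8.le.trans (le_abs_self _)
      · have h5 : j ≤ ia - 1 := by omega
        have h6 := hmono' _ _ h5
        have h7 := hθd (ia - 1) ia
        push_cast at h7
        have h8 : θ j < -η2 := by linarith
        have h9 := neg_abs_le (θ j)
        linarith
    · rw [abs_le]
      refine ⟨hm0.trans (hmono' _ _ h1), ?_⟩
      have h4 := hmono' j (m0 + N - 1) (by omega)
      have h5 := hθd (m0 + N - 1) (m0 + N)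
      push_cast at h5
      have h6 := hθN m0
      linarith
  -- the terms
  set T : ℤ → ℂ := fun j => g j * E t (zp t k * cexp (θ j * I)) with hT
  set M : ℤ → ℂ := fun j => Mm (θ j) with hM
  set D' : ℤ → ℂ := fun j => D2E t (zp t k * cexp (θ j * I)) / E t (zp t k * cexp (θ j * I)) -
    M j ^ 2 with hD'
  have hMd : 0 < Md k t := by
    unfold Md
    have : 0 < ‖cexp (S t k)‖ := norm_pos_iff.2 (Complex.exp_ne_zero _)
    positivity
  have hlow : ∀ j : ℤ, ia ≤ j → j ≤ ib →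
      g0 * (9 / 10 * Md k t * Real.exp (-(11 / 20 * θ j ^ 2 / v))) ≤ ‖T j‖ := by
    intro j h1 h2
    simp only [hT, norm_mul, hg]
    gcongr
    exact (hM2 (θ j) ((hin j h1 h2).trans hη2a)).1
  have hupp : ∀ j : ℤ, ia ≤ j → j ≤ ib →
      ‖T j‖ ≤ g0 * (11 / 10 * Md k t * Real.exp (-(9 / 20 * θ j ^ 2 / v))) := by
    intro j h1 h2
    simp only [hT, norm_mul, hg]
    gcongr
    exact (hM2 (θ j) ((hin j h1 h2).trans hη2a)).2
  have hT0 : ∀ j : ℤ, ia ≤ j → j ≤ ib → T j ≠ 0 := by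
    intro j h1 h2
    have h3 := hlow j h1 h2
    have h4 : 0 < g0 * (9 / 10 * Md k t * Real.exp (-(11 / 20 * θ j ^ 2 / v))) := by positivity
    exact norm_pos_iff.1 (lt_of_lt_of_le h4 h3)
  have hE0 : ∀ j : ℤ, ia ≤ j → j ≤ ib → E t (zp t k * cexp (θ j * I)) ≠ 0 := by
    intro j h1 h2 h3
    apply hT0 j h1 h2
    simp only [hT, h3, mul_zero]
  -- the maximal term
  obtain ⟨μ, hμm, hμmax⟩ := Finset.exists_max_image (Finset.Icc ia ib) (fun j => ‖T j‖)
    ⟨i0, Finset.mem_Icc.2 ⟨hia0.le, hi0b.le⟩⟩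
  rw [Finset.mem_Icc] at hμm
  have hμmax' : ∀ j, ia ≤ j → j ≤ ib → ‖T j‖ ≤ ‖T μ‖ := fun j h1 h2 =>
    hμmax j (Finset.mem_Icc.2 ⟨h1, h2⟩)
  set X := 9 / 10 * Md k t * Real.exp (-(11 / 80 * h ^ 2 / v)) with hX
  have hXpos : 0 < X := by positivity
  have hTμ : g0 * X ≤ ‖T μ‖ := by
    refine le_trans ?_ (hμmax' i0 hia0.le hi0b.le)
    refine le_trans ?_ (hlow i0 hia0.le hi0b.le)
    rw [hX]
    have h1 : θ i0 ^ 2 ≤ h ^ 2 / 4 := sq_le_quarter hi0 (by linarith)
    have h2 : 11 / 20 * θ i0 ^ 2 / v ≤ 11 / 80 * h ^ 2 / v := by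
      rw [div_le_div_iff_of_pos_right hVp]
      linarith
    have h3 : Real.exp (-(11 / 80 * h ^ 2 / v)) ≤ Real.exp (-(11 / 20 * θ i0 ^ 2 / v)) :=
      Real.exp_le_exp.2 (by linarith)
    exact mul_le_mul_of_nonneg_left (mul_le_mul_of_nonneg_left h3 (by positivity)) hg0.le
  -- the end terms are smaller
  have hend : ∀ j : ℤ, ia ≤ j → j ≤ ib → η2 / 2 ≤ |θ j| → ‖T j‖ < ‖T μ‖ := by
    intro j h1 h2 h3
    refine lt_of_le_of_lt (hupp j h1 h2) (lt_of_lt_of_le ?_ hTμ)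
    refine mul_lt_mul_of_pos_left ?_ hg0
    have h4 : η2 ^ 2 / 4 ≤ θ j ^ 2 := by
      have h5 : (η2 / 2) ^ 2 ≤ |θ j| ^ 2 := by gcongr
      rw [sq_abs] at h5
      linarith
    have h5 : h ^ 2 ≤ η2 ^ 2 / 16 := by
      have h50 := pow_le_pow_left₀ hhpos.le hh2 2
      have h51 : (η2 / 4) ^ 2 = η2 ^ 2 / 16 := by ring
      linarith
    have h6 : Real.exp (-(9 / 20 * θ j ^ 2 / v)) ≤
        Real.exp (-(11 / 80 * h ^ 2 / v)) * Real.exp (-(1 / 4)) := by
      rw [← Real.exp_add]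
      apply Real.exp_le_exp.2
      have h7 : 11 / 80 * h ^ 2 / v + 1 / 4 ≤ 9 / 20 * θ j ^ 2 / v := by
        rw [div_add' _ _ _ hVp.ne', div_le_div_iff_of_pos_right hVp]
        linarith
      linarith
    have h7 : Real.exp (-(1 / 4)) < 9 / 11 := by
      have h8 := Real.add_one_lt_exp (show (1 / 4 : ℝ) ≠ 0 by norm_num)
      have h9 := Real.quadratic_le_exp_of_nonneg (show (0 : ℝ) ≤ 1 / 4 by norm_num)
      rw [Real.exp_neg, inv_lt_comm₀ (Real.exp_pos _) (by norm_num)]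
      norm_num at h9 ⊢
      linarith
    calc 11 / 10 * Md k t * Real.exp (-(9 / 20 * θ j ^ 2 / v))
        ≤ 11 / 10 * Md k t * (Real.exp (-(11 / 80 * h ^ 2 / v)) * Real.exp (-(1 / 4))) := by gcongr
      _ < 11 / 10 * Md k t * (Real.exp (-(11 / 80 * h ^ 2 / v)) * (9 / 11)) := by gcongr
      _ = X := by rw [hX]; ring
  have hiaμ : ia < μ := by
    rcases lt_or_eq_of_le hμm.1 with h1 | h1
    · exact h1
    · exfalso
      have h2 := hend ia le_rfl (by omega) (by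
        have := neg_abs_le (θ ia)
        linarith)
      rw [h1] at h2
      exact lt_irrefl _ h2
  have hμib : μ < ib := by
    rcases lt_or_eq_of_le hμm.2 with h1 | h1
    · exact h1
    · exfalso
      have h2 := hend ib (by omega) le_rfl (by
        have := le_abs_self (θ ib)
        linarith)
      rw [← h1] at h2
      exact lt_irrefl _ h2
  -- log-concavity
  have hlc : ∀ j, ia < j → j < ib → ‖T (j + 1)‖ * ‖T (j - 1)‖ ≤ 1 / 20 * ‖T j‖ ^ 2 := by
    intro j h1 h2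
    have h3 := hθd (j + 1) j
    have h4 := hθd (j - 1) j
    push_cast at h3 h4
    have h5 : θ (j + 1) = θ j + h := by linarith
    have h6 : θ (j - 1) = θ j - h := by linarith
    have h7 := hM3 (θ j) h hhpos (by rw [← h5]; exact (hin _ (by omega) (by omega)).trans hη2a)
      (by rw [← h6]; exact (hin _ (by omega) (by omega)).trans hη2a)
    rw [← h5, ← h6] at h7
    have h8 : Real.exp (1 / 50 - 49 / 50 * h ^ 2 / v) ≤ 1 / 20 := by
      have h9 : Real.pi ≤ h ^ 2 / v := by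
        rw [le_div_iff₀ hVp]
        exact hVh
      have h10 := exp_bound h9
      rwa [← mul_div_assoc] at h10
    simp only [hT, norm_mul, hg]
    calc g0 * ‖E t (zp t k * cexp (θ (j + 1) * I))‖ * (g0 * ‖E t (zp t k * cexp (θ (j - 1) * I))‖)
        = g0 ^ 2 * (‖E t (zp t k * cexp (θ (j + 1) * I))‖ *
            ‖E t (zp t k * cexp (θ (j - 1) * I))‖) := by ring
      _ ≤ g0 ^ 2 * (‖E t (zp t k * cexp (θ j * I))‖ ^ 2 *
            Real.exp (1 / 50 - 49 / 50 * h ^ 2 / v)) := by gcongr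
      _ ≤ g0 ^ 2 * (‖E t (zp t k * cexp (θ j * I))‖ ^ 2 * (1 / 20)) := by gcongr
      _ = 1 / 20 * (g0 * ‖E t (zp t k * cexp (θ j * I))‖) ^ 2 := by ring
  -- the logarithmic derivatives
  have hMM : ∀ i j, ia ≤ i → i ≤ ib → ia ≤ j → j ≤ ib → i ≠ j →
      ‖M i - M j‖ ≤ 118 / 100 * |(i : ℝ) - j| * (h * K) := by
    intro i j h1 h2 h3 h4 h5
    have h6 := (hM4 (θ i) (θ j) ((hin i h1 h2).trans hη2a) ((hin j h3 h4).trans hη2a)).1
    refine h6.trans ?_
    rw [hθd, abs_mul, abs_of_pos hhpos, ← hK]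
    have h7 : (1 : ℝ) ≤ |(i : ℝ) - j| := by
      have : (1 : ℤ) ≤ |i - j| := Int.one_le_abs (sub_ne_zero.2 h5)
      exact_mod_cast this
    have h8 : 9 / 8 * (|(i : ℝ) - j| * h) + Ca * v ≤ 118 / 100 * |(i : ℝ) - j| * h := by
      have : h ≤ |(i : ℝ) - j| * h := le_mul_of_one_le_left hhpos.le h7
      linarith
    calc (9 / 8 * (|(i : ℝ) - j| * h) + Ca * v) * K ≤ (118 / 100 * |(i : ℝ) - j| * h) * K := by
          gcongr
      _ = 118 / 100 * |(i : ℝ) - j| * (h * K) := by ring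
  have hMM' : ∀ j, ia ≤ j → j + 1 ≤ ib → 87 / 100 * (h * K) ≤ ‖M (j + 1) - M j‖ := by
    intro j h1 h2
    have h6 := (hM4 (θ (j + 1)) (θ j) ((hin _ (by omega) h2).trans hη2a)
      ((hin j h1 (by omega)).trans hη2a)).2
    refine le_trans ?_ h6
    rw [hθd, abs_mul, abs_of_pos hhpos, ← hK]
    push_cast
    rw [add_sub_cancel_left, abs_one, one_mul]
    calc 87 / 100 * (h * K) = (87 / 100 * h) * K := by ring
      _ ≤ (9 / 10 * h - Ca * v) * K := by
        gcongr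
        linarith
  obtain ⟨ν, hν1, hν2, hμν, hΔ1, hΔ2, s1, s2, s3⟩ := sums (by positivity : 0 < h * K) hiaμ hμib hμmax' hT0
    hlc hMM hMM'
  -- the outside terms
  set out := Finset.Ico m0 (m0 + N) \ Finset.Icc ia ib with hod
  have hsub : Finset.Icc ia ib ⊆ Finset.Ico m0 (m0 + N) := by
    intro j hj
    rw [Finset.mem_Icc] at hj
    rw [Finset.mem_Ico]
    omega
  have hsplit : ∀ w : ℤ → ℂ, ∑ j ∈ Finset.Ico m0 (m0 + N), w j =
      ∑ j ∈ Finset.Icc ia ib, w j + ∑ j ∈ out, w j := by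
    intro w
    rw [hod, ← Finset.sum_sdiff hsub]
    exact add_comm _ _
  have hcard : ((out.card : ℕ) : ℝ) ≤ N := by
    have h1 : out.card ≤ N := by
      refine (Finset.card_le_card Finset.sdiff_subset).trans ?_
      rw [Int.card_Ico]
      simp
    exact_mod_cast h1
  set Y := Cc * Real.exp (-(c2 / v)) * Md k t with hY
  have hYpos : 0 < Y := by positivity
  have hbound : ∀ (w : ℤ → ℂ) (B : ℝ), 0 ≤ B → (∀ j ∈ out, ‖w j‖ ≤ Y * B) →
      ‖∑ j ∈ out, g j * w j‖ ≤ N * (g0 * (Y * B)) := by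
    intro w B hB hw
    calc ‖∑ j ∈ out, g j * w j‖ ≤ ∑ j ∈ out, ‖g j * w j‖ := norm_sum_le _ _
      _ ≤ ∑ _j ∈ out, g0 * (Y * B) := by
          refine Finset.sum_le_sum fun j hj => ?_
          rw [norm_mul, hg]
          gcongr
          exact hw j hj
      _ = (out.card : ℝ) * (g0 * (Y * B)) := by rw [Finset.sum_const, nsmul_eq_mul]
      _ ≤ N * (g0 * (Y * B)) := by gcongr
  have houtm : ∀ j ∈ out, η2 ≤ |θ j| ∧ |θ j| ≤ Real.pi := by
    intro j hj
    rw [hod, Finset.mem_sdiff, Finset.mem_Ico, Finset.mem_Icc] at hj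
    exact hout j hj.1.1 hj.1.2 hj.2
  -- the key smallness
  set ε1 := 87 / 100000 * h with hε1
  have hkey : N * (g0 * Y) ≤ ε1 * ‖T μ‖ := by
    have h1 : Real.exp (-(c2 / v)) ≤ Real.exp (-(c2 / 2 / v)) * Real.exp (-(11 / 80 * h ^ 2 / v)) := by
      rw [← Real.exp_add]
      apply Real.exp_le_exp.2
      have h2 : 11 / 80 * h ^ 2 ≤ c2 / 2 := by
        have h3 : h ^ 2 ≤ h := by
          rw [sq]
          exact mul_le_of_le_one_left hhpos.le (by linarith)
        linarith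
      have h3 : 11 / 80 * h ^ 2 / v ≤ c2 / 2 / v := by gcongr
      have h4 : c2 / v = c2 / 2 / v + c2 / 2 / v := by ring
      linarith
    have h5 : N * Cc * Real.exp (-(c2 / 2 / v)) ≤ 9 / 10 * ε1 := by
      have h6 : 4 * Real.pi * Cc / v * Real.exp (-(c2 / 2 / v)) ≤ 1 / 100000 := by
        refine le_trans ?_ hsm2
        gcongr
        rw [hCC]
        linarith
      have h7 : (N : ℝ) ^ 2 ≤ 4 * Real.pi / v := by
        rw [le_div_iff₀ hVp]
        exact hNV
      have h8 : N * (N * Cc * Real.exp (-(c2 / 2 / v))) ≤ N * (9 / 10 * ε1) := by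
        calc N * (N * Cc * Real.exp (-(c2 / 2 / v))) = (N : ℝ) ^ 2 * (Cc * Real.exp (-(c2 / 2 / v))) := by ring
          _ ≤ 4 * Real.pi / v * (Cc * Real.exp (-(c2 / 2 / v))) := by gcongr
          _ = 4 * Real.pi * Cc / v * Real.exp (-(c2 / 2 / v)) := by ring
          _ ≤ 1 / 100000 := h6
          _ ≤ 9 / 10 * (87 / 100000 * (2 * Real.pi)) := by linarith
          _ = N * (9 / 10 * ε1) := by
            rw [hε1, hh]
            field_simp
      exact le_of_mul_le_mul_left h8 hNr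
    calc N * (g0 * Y) = g0 * Md k t * (N * Cc * Real.exp (-(c2 / v))) := by rw [hY]; ring
      _ ≤ g0 * Md k t * (N * Cc * (Real.exp (-(c2 / 2 / v)) * Real.exp (-(11 / 80 * h ^ 2 / v)))) := by
          gcongr
      _ = g0 * Md k t * Real.exp (-(11 / 80 * h ^ 2 / v)) * (N * Cc * Real.exp (-(c2 / 2 / v))) := by
          ring
      _ ≤ g0 * Md k t * Real.exp (-(11 / 80 * h ^ 2 / v)) * (9 / 10 * ε1) := by gcongr
      _ = ε1 * (g0 * X) := by rw [hX]; ring
      _ ≤ ε1 * ‖T μ‖ := by gcongr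
  -- the outside sums
  set a0 := ∑ j ∈ out, g j * E t (zp t k * cexp (θ j * I)) with ha0
  set a1 := ∑ j ∈ out, g j * (DE t (zp t k * cexp (θ j * I)) - k * E t (zp t k * cexp (θ j * I)))
    with ha1
  set a2 := ∑ j ∈ out, g j * (D2E t (zp t k * cexp (θ j * I)) -
    2 * k * DE t (zp t k * cexp (θ j * I)) + k ^ 2 * E t (zp t k * cexp (θ j * I))) with ha2
  have hb0 : ‖a0‖ ≤ ε1 * ‖T μ‖ := by
    refine le_trans (hbound _ 1 zero_le_one fun j hj => ?_) ?_
    · rw [mul_one]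
      exact (HoutB (θ j) (houtm j hj).1 (houtm j hj).2).1
    · rw [mul_one]
      exact hkey
  have hb1 : ‖a1‖ ≤ ε1 * K * ‖T μ‖ := by
    refine le_trans (hbound _ K hKpos.le fun j hj => ?_) ?_
    · exact (HoutB (θ j) (houtm j hj).1 (houtm j hj).2).2.1
    · calc N * (g0 * (Y * K)) = N * (g0 * Y) * K := by ring
        _ ≤ ε1 * ‖T μ‖ * K := by gcongr
        _ = ε1 * K * ‖T μ‖ := by ring
  have hb2 : ‖a2‖ ≤ ε1 * K * k * ‖T μ‖ := by
    refine le_trans (hbound _ (K * k) (by positivity) fun j hj => ?_) ?_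
    · have := (HoutB (θ j) (houtm j hj).1 (houtm j hj).2).2.2
      rw [← mul_assoc]
      exact this
    · calc N * (g0 * (Y * (K * k))) = N * (g0 * Y) * (K * k) := by ring
        _ ≤ ε1 * ‖T μ‖ * (K * k) := by gcongr
        _ = ε1 * K * k * ‖T μ‖ := by ring
  -- the three decompositions
  obtain ⟨l0, l1, l2⟩ := hl t z q m0 ht hq
  simp only [hrot] at l0 l1 l2
  have hF : SokalF.F q z = ∑ j ∈ Finset.Icc ia ib, T j + a0 := by
    rw [l0, hsplit]
  have hF1 : z * SokalF.F q (q * z) = ∑ j ∈ Finset.Icc ia ib, M j * T j + (a1 + k * a0) := by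
    rw [l1, hsplit]
    congr 1
    · refine Finset.sum_congr rfl fun j hj => ?_
      rw [Finset.mem_Icc] at hj
      rw [hM1 (θ j) ((hin j hj.1 hj.2).trans hη2a)]
      simp only [hT, hM]
      ring
    · rw [ha1, ha0, Finset.mul_sum, ← Finset.sum_add_distrib]
      refine Finset.sum_congr rfl fun j _ => ?_
      ring
  have hF2 : z * SokalF.F q (q * z) + z * (q * z * SokalF.F q (q * (q * z))) =
      ∑ j ∈ Finset.Icc ia ib, (M j ^ 2 + D' j) * T j + (a2 + 2 * k * a1 + k ^ 2 * a0) := by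
    rw [l2, hsplit]
    congr 1
    · refine Finset.sum_congr rfl fun j hj => ?_
      rw [Finset.mem_Icc] at hj
      have h1 := hE0 j hj.1 hj.2
      simp only [hT, hD']
      field_simp
      ring
    · rw [ha2, ha1, ha0, Finset.mul_sum, Finset.mul_sum, ← Finset.sum_add_distrib,
        ← Finset.sum_add_distrib]
      refine Finset.sum_congr rfl fun j _ => ?_
      ring
  -- apply the core
  have hΔpos : 0 < ‖M ν - M μ‖ := lt_of_lt_of_le (by positivity) hΔ1
  have hKμ : ‖M μ - k‖ ≤ K / 10 := by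
    have h1 := (HinB (θ μ) ((hin μ hμm.1 hμm.2).trans hη2b) (M μ)
      (hM1 (θ μ) ((hin μ hμm.1 hμm.2).trans hη2a)) (hE0 μ hμm.1 hμm.2)).1
    linarith
  have hkKh : h * K ≤ k / 10000 := by
    calc h * K ≤ 1 / 10000 * k := by gcongr
      _ = k / 10000 := by ring
  refine core (s := Finset.Icc ia ib) (T := T) (M := M) (D' := D') (μ := μ) (ν := ν) (k := k)
    (m := m) (K := K) (ε := ε1) (CQ := 3) (CT := 3) (B := Cb * v * k * K)
    (Finset.mem_Icc.2 hμm) (Finset.mem_Icc.2 ⟨hν1, hν2⟩) hμν hk hm hKpos.le hKk (by positivity)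
    (by positivity) (by rw [hε1]; linarith) hF hF1 hF2 hG hKμ hb0 hb1 hb2 (by norm_num) ?_
    (fun h1 => by rw [h1, sub_self, norm_zero] at hΔpos; exact lt_irrefl _ hΔpos)
    (hT0 μ hμm.1 hμm.2) ?_ ?_ s1 s2 s3 ?_
  · linarith
  · have h1 : Cb * v * K ≤ 1 / 1000 * ‖M ν - M μ‖ := by
      calc Cb * v * K ≤ 1 / 100000 * h * K := by gcongr
        _ ≤ 1 / 1000 * (87 / 100 * (h * K)) := by
          have : 0 < h * K := by positivity
          linarith
        _ ≤ 1 / 1000 * ‖M ν - M μ‖ := by gcongr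
    calc Cb * v * k * K * 3 = 3 * k * (Cb * v * K) := by ring
      _ ≤ 3 * k * (1 / 1000 * ‖M ν - M μ‖) := by gcongr
      _ = k * (3 / 1000) * ‖M ν - M μ‖ := by ring
  · calc ε1 * K = 1 / 1000 * (87 / 100 * (h * K)) := by rw [hε1]; ring
      _ ≤ 1 / 1000 * ‖M ν - M μ‖ := by gcongr
  · intro j hj
    rw [Finset.mem_Icc] at hj
    have h1 := hE0 j hj.1 hj.2
    have h2 := (HinB (θ j) ((hin j hj.1 hj.2).trans hη2b) (M j)
      (hM1 (θ j) ((hin j hj.1 hj.2).trans hη2a)) h1).2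
    have h3 : D' j = (D2E t (zp t k * cexp (θ j * I)) - M j ^ 2 * E t (zp t k * cexp (θ j * I))) /
        E t (zp t k * cexp (θ j * I)) := by
      simp only [hD']
      field_simp
    rw [h3, norm_div, div_le_iff₀ (norm_pos_iff.2 h1)]
    exact h2

end SokalBPlus
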