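import Pool.Agent.Lib_MP_af4de1_BPlus.Lifts2

/-!
# Roots of unity: the sign condition [BP-ROOT]

Set up exactly as in `Lib_MP_af4de1_u/RootUnity.lean` (copy what is useful): `q = cexp(2πi a/N)` in lowest terms, `lifts2` with `t = 0`
(`E 0 w = cexp w`, `DE 0 w = w cexp w`, `D2E 0 w = (w + w²) cexp w`), `w_j = ζ_j z`, `T_j = g_j cexp(w_j)`, so
`F = ∑ T_j`, `F1 := z F(qz) = ∑ w_j T_j`, `F2 := z F(qz) + z(q z F(q(qz))) = ∑ (w_j² + w_j) T_j`; `|w_j| = r = ‖z‖`.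
`N = 1`: `F = g cexp(ζz) ≠ 0`, `F1 = ζ z F`; `F1 + mF = 0` gives `ζz = -m`, `F2 - m²F = (m² - m - m²)F = -mF`: real part `-m < 0`.
`N ≥ 2`: `h = 2π/N`, `w_j = r e^{iη_j}`, window of `N` consecutive `j` with `η_j ∈ [-π,π]`; `μ` = nearest (`|η_μ| ≤ h/2`), `ν` = second nearest
(a neighbour, `h/2 ≤ |η_ν| ≤ h`, opposite signs), all others have `|η_j| ≥ h`: `‖T_j‖ ≤ e^{-cr}‖T_μ‖`, `c = cos(h/2) - cos h > 0`.
Let `R_j = w_j + m`; `∑ R_j T_j = F1 + mF = 0`.  `‖R_μ‖² ≥ m² + r² ≥ ‖R_j‖²/2` for all `j` (`Re w_μ ≥ 0`).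
(a) `δ := 2 N e^{-cr}`.  `‖R_ν T_ν‖ ≥ (1-δ)‖R_μ T_μ‖`, and `‖T_ν‖ ≤ ‖T_μ‖`, `‖R_ν‖ ≤ ‖R_μ‖` (`cos η_ν ≤ cos η_μ`), so
    `‖R_ν‖ ≥ (1-δ)‖R_μ‖` and `‖T_ν‖ = e^{-r(cos η_μ - cos η_ν)}‖T_μ‖ ≥ (1-δ)‖T_μ‖`, hence `r(cos η_μ - cos η_ν) ≤ -log(1-δ) ≤ 2δ`.
(b) `|w_ν - conj w_μ| = r|e^{iη_ν} - e^{-iη_μ}| = 2r|sin((η_ν+η_μ)/2)|` and `cos η_μ - cos η_ν = 2|sin((η_ν+η_μ)/2)| sin(h/2)`, so
    `|R_ν - conj R_μ| ≤ 2δ/sin(h/2)`; therefore `R_μ R_ν = |R_μ|²(1 + e1)`, `|e1| ≤ 2δ/(r sin(h/2))`.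
(c) `R_μ F = ∑ (R_μ - R_j) T_j = (w_μ - w_ν) T_ν (1 + e2)`, `|w_μ - w_ν| = 2 r sin(h/2)`, `|e2| ≤ N 2r e^{-cr}/(2 r sin(h/2)(1-δ))`.
(d) `F2 - m²F + mF = ∑ (w_j - m) R_j T_j + ∑ w_j T_j + mF = ∑ (w_j - w_μ) R_j T_j = (w_ν - w_μ) R_ν T_ν (1 + e3)`,
    `|e3| ≤ N · 2r · 2‖R_μ‖ e^{-cr}‖T_μ‖/(2 r sin(h/2)‖R_ν‖‖T_ν‖) ≤ 2N e^{-cr}/(sin(h/2)(1-δ)²)`.
So `(F2 - m²F)/F = -m - |R_μ|²(1+e1)(1+e3)/(1+e2)`, and for `r` large `|e_i| ≤ 1/10`, `Re((1+e1)(1+e3)/(1+e2)) > 0`: the real part is `< -m < 0`.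
-/

namespace SokalBPlus

open Complex SokalU

private theorem RootU_re (θ : ℝ) (z : ℂ) :
    (cexp ((θ : ℂ) * I) * z).re = ‖z‖ * Real.cos (θ + arg z) := by
  have h : cexp ((θ : ℂ) * I) * z = (‖z‖ : ℂ) * cexp (((θ + arg z : ℝ) : ℂ) * I) := by
    conv_lhs => rw [← Complex.norm_mul_exp_arg_mul_I z]
    push_cast
    rw [add_mul, Complex.exp_add]
    ring
  rw [h, Complex.re_ofReal_mul, Complex.exp_ofReal_mul_I_re]

private theorem RootU_E (z : ℂ) : E 0 z = cexp z := by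
  unfold E SokalF.F
  rw [neg_zero, Complex.exp_zero, Complex.exp_eq_exp_ℂ, NormedSpace.exp_eq_tsum_div]
  refine tsum_congr fun k => ?_
  rw [one_pow, one_mul]

private theorem RootU_DE (z : ℂ) : DE 0 z = z * cexp z := by
  unfold DE
  rw [neg_zero, Complex.exp_zero, one_mul, RootU_E]

private theorem RootU_D2E (z : ℂ) : D2E 0 z = (z ^ 2 + z) * cexp z := by
  unfold D2E
  rw [neg_zero, Complex.exp_zero, one_mul, RootU_DE]
  ring

/-- `cos η ≤ cos h` for `η ∈ [h, 2π - h]`. -/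
private theorem RootU_cos {h η : ℝ} (h0 : 0 ≤ h) (h1 : h ≤ η)
    (h2 : η ≤ 2 * Real.pi - h) : Real.cos η ≤ Real.cos h := by
  rcases le_total η Real.pi with h3 | h3
  · exact Real.cos_le_cos_of_nonneg_of_le_pi h0 h3 h1
  · rw [← Real.cos_two_pi_sub η]
    exact Real.cos_le_cos_of_nonneg_of_le_pi h0 (by linarith) (by linarith)

private theorem RootU_final {A E E2 : ℂ} {P : ℝ} (hA : A ≠ 0) (hP : 0 < P)
    (hE : ‖E‖ ≤ 1 / 5 * (‖A‖ * P)) (hE2 : ‖E2‖ ≤ 1 / 10 * ‖A‖) :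
    ((A * P + E) / (-A + E2)).re < 0 := by
  have hA' : 0 < ‖A‖ := norm_pos_iff.2 hA
  have hF : -A + E2 ≠ 0 := by
    intro h
    have h1 : E2 = A := by linear_combination h
    rw [h1] at hE2
    linarith
  have h1 : ((A * P + E) / (-A + E2)).re =
      ((A * P + E) * (starRingEnd ℂ) (-A + E2)).re / normSq (-A + E2) := by
    rw [Complex.div_re, Complex.mul_re, Complex.conj_re, Complex.conj_im]
    ring
  rw [h1]
  refine div_neg_of_neg_of_pos ?_ (Complex.normSq_pos.2 hF)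
  have h2 : (A * P + E) * (starRingEnd ℂ) (-A + E2) = -((‖A‖ ^ 2 * P : ℝ) : ℂ) +
      (-(E * (starRingEnd ℂ) A) + A * P * (starRingEnd ℂ) E2 + E * (starRingEnd ℂ) E2) := by
    have h3 : A * (starRingEnd ℂ) A = ((‖A‖ ^ 2 : ℝ) : ℂ) := by
      rw [Complex.mul_conj, Complex.normSq_eq_norm_sq]
    simp only [map_add, map_neg]
    push_cast at h3 ⊢
    linear_combination (-(P : ℂ)) * h3
  rw [h2, Complex.add_re, Complex.neg_re, Complex.ofReal_re]
  have h4 := Complex.re_le_norm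
    (-(E * (starRingEnd ℂ) A) + A * P * (starRingEnd ℂ) E2 + E * (starRingEnd ℂ) E2)
  have h5 : ‖-(E * (starRingEnd ℂ) A) + A * P * (starRingEnd ℂ) E2 + E * (starRingEnd ℂ) E2‖ ≤
      1 / 5 * (‖A‖ * P) * ‖A‖ + ‖A‖ * P * (1 / 10 * ‖A‖) +
        1 / 5 * (‖A‖ * P) * (1 / 10 * ‖A‖) := by
    refine (norm_add_le _ _).trans (add_le_add ((norm_add_le _ _).trans (add_le_add ?_ ?_)) ?_)
    · rw [norm_neg, norm_mul, Complex.norm_conj]
      gcongr
    · rw [norm_mul, norm_mul, Complex.norm_conj, Complex.norm_real, Real.norm_eq_abs,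
        abs_of_pos hP]
      gcongr
    · rw [norm_mul, Complex.norm_conj]
      gcongr
  have h6 : 0 < ‖A‖ ^ 2 * P := by positivity
  nlinarith [h4, h5, h6]

/-- The abstract two-term analysis. -/
private theorem RootU_abs {s : Finset ℤ} {μ ν : ℤ} (hμ : μ ∈ s) (hν : ν ∈ s) (hμν : ν ≠ μ)
    (w T : ℤ → ℂ) {m r κ S : ℝ} (hm : 0 < m) (hr : 1 ≤ r) (hw : ∀ j, ‖w j‖ = r)
    (hwμ : 0 ≤ (w μ).re) (hwν : (w ν).re ≤ (w μ).re) (hTμ : T μ ≠ 0)
    (hTν : ‖T ν‖ = Real.exp (-((w μ).re - (w ν).re)) * ‖T μ‖)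
    (hT : ∀ j ∈ s, j ≠ μ → j ≠ ν → ‖T j‖ ≤ κ * ‖T μ‖)
    (hS : 0 < S) (hS1 : S ≤ 1) (hκ0 : 0 ≤ κ) (hκ : 2 * s.card * κ ≤ S / 20)
    (hD : ‖w ν - w μ‖ = r * (2 * S))
    (hconj : ‖w ν - (starRingEnd ℂ) (w μ)‖ * S = (w μ).re - (w ν).re)
    (hsum : ∑ j ∈ s, (w j + m) * T j = 0) :
    ((∑ j ∈ s, (w j ^ 2 + w j) * T j - m ^ 2 * ∑ j ∈ s, T j) / ∑ j ∈ s, T j).re < 0 := by
  have hr0 : 0 < r := by linarith
  have hTμ' : 0 < ‖T μ‖ := norm_pos_iff.2 hTμ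
  obtain ⟨δ, hδ⟩ : ∃ δ : ℝ, δ = 2 * s.card * κ := ⟨_, rfl⟩
  rw [← hδ] at hκ
  have hδ0 : 0 ≤ δ := by rw [hδ]; positivity
  -- splitting off the two terms
  have hsplit : ∀ f : ℤ → ℂ, ∑ j ∈ s, f j = f μ + (f ν + ∑ j ∈ (s.erase μ).erase ν, f j) := by
    intro f
    rw [Finset.add_sum_erase _ _ (Finset.mem_erase.2 ⟨hμν, hν⟩), Finset.add_sum_erase _ _ hμ]
  have hrest : ∀ (f : ℤ → ℂ) (B : ℝ), 0 ≤ B → (∀ j ∈ s, j ≠ μ → j ≠ ν → ‖f j‖ ≤ B) →
      ‖∑ j ∈ (s.erase μ).erase ν, f j‖ ≤ s.card * B := by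
    intro f B hB hf
    have h1 : ∀ j ∈ (s.erase μ).erase ν, ‖f j‖ ≤ B := by
      intro j hj
      rw [Finset.mem_erase, Finset.mem_erase] at hj
      exact hf j hj.2.2 hj.2.1 hj.1
    refine (norm_sum_le_of_le _ h1).trans ?_
    rw [Finset.sum_const, nsmul_eq_mul]
    have h2 : ((s.erase μ).erase ν).card ≤ s.card :=
      (Finset.card_erase_le).trans Finset.card_erase_le
    have h3 : (((s.erase μ).erase ν).card : ℝ) ≤ s.card := by exact_mod_cast h2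
    exact mul_le_mul_of_nonneg_right h3 hB
  -- the norms of `R_j`
  have hR2 : ∀ j, ‖w j + m‖ ^ 2 = r ^ 2 + 2 * m * (w j).re + m ^ 2 := by
    intro j
    rw [← Complex.normSq_eq_norm_sq, ← hw j, ← Complex.normSq_eq_norm_sq, Complex.normSq_apply,
      Complex.normSq_apply, Complex.add_re, Complex.add_im, Complex.ofReal_re, Complex.ofReal_im]
    ring
  obtain ⟨p, hp⟩ : ∃ p : ℝ, p = ‖w μ + m‖ := ⟨_, rfl⟩
  have hp0' : 0 ≤ p := by rw [hp]; positivity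
  have hp2 : r ^ 2 + m ^ 2 ≤ p ^ 2 := by
    rw [hp, hR2]
    nlinarith
  have hpr : r ≤ p := (sq_le_sq₀ hr0.le hp0').1 (by nlinarith)
  have hp0 : 0 < p := by linarith
  have hRj : ∀ j, ‖w j + m‖ ≤ 2 * p := by
    intro j
    refine (sq_le_sq₀ (norm_nonneg _) (by positivity)).1 ?_
    rw [hR2]
    have h1 := (abs_le.1 (Complex.abs_re_le_norm (w j))).2
    rw [hw] at h1
    nlinarith [sq_nonneg (r - m)]
  have hRν : ‖w ν + m‖ ≤ p := by
    refine (sq_le_sq₀ (norm_nonneg _) hp0').1 ?_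
    rw [hp, hR2, hR2]
    nlinarith
  have hTνμ : ‖T ν‖ ≤ ‖T μ‖ := by
    rw [hTν]
    have h1 : Real.exp (-((w μ).re - (w ν).re)) ≤ 1 := Real.exp_le_one_iff.2 (by linarith)
    nlinarith
  -- (a)
  have ha : (1 - δ) * (p * ‖T μ‖) ≤ ‖w ν + m‖ * ‖T ν‖ := by
    have h1 := hsplit fun j => (w j + m) * T j
    rw [hsum] at h1
    have h2 : (w μ + m) * T μ = -((w ν + m) * T ν) -
        ∑ j ∈ (s.erase μ).erase ν, (w j + m) * T j := by
      linear_combination -h1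
    have h3 : ‖∑ j ∈ (s.erase μ).erase ν, (w j + m) * T j‖ ≤
        s.card * (2 * p * (κ * ‖T μ‖)) := by
      refine hrest _ _ (by positivity) fun j hj hj1 hj2 => ?_
      rw [norm_mul]
      exact mul_le_mul (hRj j) (hT j hj hj1 hj2) (norm_nonneg _) (by positivity)
    have h4 : p * ‖T μ‖ ≤ ‖w ν + m‖ * ‖T ν‖ + s.card * (2 * p * (κ * ‖T μ‖)) := by
      rw [hp, ← norm_mul, h2]
      refine (norm_sub_le _ _).trans ?_
      rw [norm_neg, norm_mul, ← hp]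
      gcongr
    rw [hδ]
    linarith
  have hTν2 : (1 - δ) * ‖T μ‖ ≤ ‖T ν‖ := by
    have h1 : p * ((1 - δ) * ‖T μ‖) ≤ p * ‖T ν‖ := by
      calc p * ((1 - δ) * ‖T μ‖) = (1 - δ) * (p * ‖T μ‖) := by ring
        _ ≤ ‖w ν + m‖ * ‖T ν‖ := ha
        _ ≤ p * ‖T ν‖ := by gcongr
    exact le_of_mul_le_mul_left h1 hp0
  have hTν0 : 0 < ‖T ν‖ := by
    have : 0 < (1 - δ) * ‖T μ‖ := mul_pos (by linarith) hTμ'
    linarith
  have hT2 : ‖T μ‖ ≤ 2 * ‖T ν‖ := by nlinarith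
  have hX : (w μ).re - (w ν).re ≤ 2 * δ := by
    obtain ⟨X, hX⟩ : ∃ X : ℝ, X = (w μ).re - (w ν).re := ⟨_, rfl⟩
    rw [← hX] at hTν ⊢
    have hX0 : 0 ≤ X := by linarith
    rw [hTν] at hTν2
    have h1 : 1 - δ ≤ Real.exp (-X) := le_of_mul_le_mul_right hTν2 hTμ'
    have h2 : Real.exp (-X) * (1 + X) ≤ 1 := by
      have h3 : X + 1 ≤ Real.exp X := Real.add_one_le_exp X
      have h4 : Real.exp (-X) * Real.exp X = 1 := by
        rw [← Real.exp_add, neg_add_cancel, Real.exp_zero]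
      have h5 := Real.exp_pos (-X)
      nlinarith
    nlinarith
  -- (b)
  obtain ⟨P, hP⟩ : ∃ P : ℝ, P = p ^ 2 := ⟨_, rfl⟩
  have hP0 : 0 < P := by rw [hP]; positivity
  obtain ⟨E1, hE1⟩ : ∃ E1 : ℂ, (w μ + m) * (w ν + m) = P + E1 := ⟨(w μ + m) * (w ν + m) - P, by ring⟩
  have hE1n : ‖E1‖ ≤ 1 / 10 * P := by
    have h1 : (w μ + m) * (starRingEnd ℂ) (w μ + m) = P := by
      rw [Complex.mul_conj, Complex.normSq_eq_norm_sq, hP, hp]
    have h2 : E1 = (w μ + m) * (w ν - (starRingEnd ℂ) (w μ)) := by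
      simp only [map_add, Complex.conj_ofReal] at h1
      linear_combination -hE1 + h1
    rw [h2, norm_mul, ← hp]
    have h3 : ‖w ν - (starRingEnd ℂ) (w μ)‖ ≤ 1 / 10 := by
      have h4 : ‖w ν - (starRingEnd ℂ) (w μ)‖ * S ≤ 1 / 10 * S := by
        rw [hconj]
        linarith
      exact le_of_mul_le_mul_right h4 hS
    rw [hP]
    nlinarith [norm_nonneg (w ν - (starRingEnd ℂ) (w μ))]
  obtain ⟨A, hA⟩ : ∃ A : ℂ, A = (w ν - w μ) * T ν := ⟨_, rfl⟩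
  have hAn : ‖A‖ = r * (2 * S) * ‖T ν‖ := by rw [hA, norm_mul, hD]
  have hA0 : A ≠ 0 := by
    rw [← norm_pos_iff, hAn]
    positivity
  -- (c)
  obtain ⟨E2, hE2⟩ : ∃ E2 : ℂ, E2 = ∑ j ∈ (s.erase μ).erase ν, (w μ - w j) * T j := ⟨_, rfl⟩
  have hFμ : (w μ + m) * ∑ j ∈ s, T j = -A + E2 := by
    have h1 : (w μ + m) * ∑ j ∈ s, T j = ∑ j ∈ s, (w μ - w j) * T j := by
      have h2 : ∑ j ∈ s, (w μ - w j) * T j =
          (w μ + m) * ∑ j ∈ s, T j - ∑ j ∈ s, (w j + m) * T j := by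
        rw [Finset.mul_sum, ← Finset.sum_sub_distrib]
        exact Finset.sum_congr rfl fun j _ => by ring
      rw [h2, hsum, sub_zero]
    rw [h1, hsplit, hA, hE2]
    ring
  have hE2n : ‖E2‖ ≤ 1 / 10 * ‖A‖ := by
    have h1 : ‖E2‖ ≤ s.card * (2 * r * (κ * ‖T μ‖)) := by
      rw [hE2]
      refine hrest _ _ (by positivity) fun j hj hj1 hj2 => ?_
      rw [norm_mul]
      have h2 : ‖w μ - w j‖ ≤ 2 * r := by
        refine (norm_sub_le _ _).trans ?_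
        rw [hw, hw]
        linarith
      exact mul_le_mul h2 (hT j hj hj1 hj2) (norm_nonneg _) (by positivity)
    have h3 : s.card * (2 * r * (κ * ‖T μ‖)) = r * (δ * ‖T μ‖) := by rw [hδ]; ring
    rw [h3] at h1
    refine h1.trans ?_
    rw [hAn]
    calc r * (δ * ‖T μ‖) ≤ r * (S / 20 * (2 * ‖T ν‖)) := by gcongr
      _ ≤ 1 / 10 * (r * (2 * S) * ‖T ν‖) := by nlinarith [mul_pos (mul_pos hr0 hS) hTν0]
  -- (d)
  obtain ⟨E3, hE3⟩ : ∃ E3 : ℂ, E3 = ∑ j ∈ (s.erase μ).erase ν, (w j - w μ) * ((w j + m) * T j) :=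
    ⟨_, rfl⟩
  obtain ⟨G, hG⟩ : ∃ G : ℂ, G = ∑ j ∈ s, (w j ^ 2 + w j) * T j - m ^ 2 * ∑ j ∈ s, T j +
    m * ∑ j ∈ s, T j := ⟨_, rfl⟩
  have hG2 : G = A * (w ν + m) + E3 := by
    have h1 : G = ∑ j ∈ s, (w j - w μ) * ((w j + m) * T j) := by
      have h2 : ∑ j ∈ s, (w j - w μ) * ((w j + m) * T j) =
          ∑ j ∈ s, (w j ^ 2 + w j) * T j - m ^ 2 * ∑ j ∈ s, T j + m * ∑ j ∈ s, T j
            - (w μ + 1 - m) * ∑ j ∈ s, (w j + m) * T j := by
        rw [Finset.mul_sum, Finset.mul_sum, Finset.mul_sum, ← Finset.sum_sub_distrib,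
          ← Finset.sum_add_distrib, ← Finset.sum_sub_distrib]
        refine Finset.sum_congr rfl fun j _ => ?_
        ring
      rw [h2, hsum, mul_zero, sub_zero, hG]
    rw [h1, hsplit, hA, hE3]
    ring
  have hE3n : ‖(w μ + m) * E3‖ ≤ 1 / 10 * (‖A‖ * P) := by
    have h1 : ‖E3‖ ≤ s.card * (2 * r * (2 * p * (κ * ‖T μ‖))) := by
      rw [hE3]
      refine hrest _ _ (by positivity) fun j hj hj1 hj2 => ?_
      rw [norm_mul, norm_mul]
      have h2 : ‖w j - w μ‖ ≤ 2 * r := by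
        refine (norm_sub_le _ _).trans ?_
        rw [hw, hw]
        linarith
      exact mul_le_mul h2 (mul_le_mul (hRj j) (hT j hj hj1 hj2) (norm_nonneg _) (by positivity))
        (by positivity) (by positivity)
    rw [norm_mul, ← hp]
    have h3 : s.card * (2 * r * (2 * p * (κ * ‖T μ‖))) = 2 * r * p * (δ * ‖T μ‖) := by
      rw [hδ]; ring
    rw [h3] at h1
    calc p * ‖E3‖ ≤ p * (2 * r * p * (δ * ‖T μ‖)) := by gcongr
      _ ≤ p * (2 * r * p * (S / 20 * (2 * ‖T ν‖))) := by gcongr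
      _ = 1 / 10 * (‖A‖ * P) := by rw [hAn, hP]; ring
  -- conclusion
  have hRμ0 : w μ + m ≠ 0 := by
    rw [← norm_pos_iff, ← hp]
    exact hp0
  have hGμ : (w μ + m) * G = A * P + (A * E1 + (w μ + m) * E3) := by
    rw [hG2]
    linear_combination A * hE1
  have hfin := RootU_final hA0 hP0 (E := A * E1 + (w μ + m) * E3) (E2 := E2) (by
    refine (norm_add_le _ _).trans ?_
    rw [norm_mul]
    have h1 : ‖A‖ * ‖E1‖ ≤ ‖A‖ * (1 / 10 * P) := by gcongr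
    linarith) hE2n
  rw [← hGμ, ← hFμ, mul_div_mul_left _ _ hRμ0] at hfin
  have hF0 : ∑ j ∈ s, T j ≠ 0 := by
    intro h
    rw [h, div_zero, Complex.zero_re] at hfin
    exact lt_irrefl _ hfin
  have hq : (∑ j ∈ s, (w j ^ 2 + w j) * T j - m ^ 2 * ∑ j ∈ s, T j) / ∑ j ∈ s, T j =
      G / ∑ j ∈ s, T j - m := by
    rw [hG]
    field_simp
    ring
  rw [hq, Complex.sub_re, Complex.ofReal_re]
  linarith

/-- The concrete form of the two-term analysis. -/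
private theorem RootU_key {N : ℕ} (hN : 2 ≤ N) (g : ℤ → ℂ) {g0 : ℝ} (hg0 : 0 < g0)
    (hg : ∀ m, ‖g m‖ = g0) (θ : ℤ → ℝ) (hθ : ∀ m n : ℤ, θ n = θ m + (n - m) * (2 * Real.pi / N))
    (z : ℂ) (m0 : ℤ) {m : ℝ} (hm : 0 < m)
    (hsum : ∑ j ∈ Finset.Ico m0 (m0 + N), (cexp ((θ j : ℂ) * I) * z + m) *
      (g j * cexp (cexp ((θ j : ℂ) * I) * z)) = 0)
    (hm1 : -(2 * Real.pi / N) ≤ θ m0 + arg z) (hm2 : θ m0 + arg z ≤ 0)
    (μ ν : ℤ) (hμ : μ ∈ Finset.Ico m0 (m0 + N)) (hν : ν ∈ Finset.Ico m0 (m0 + N))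
    (hμν : |(μ : ℝ) - ν| = 1)
    (hoth : ∀ m ∈ Finset.Ico m0 (m0 + N), m ≠ μ → m ≠ ν → m0 + 2 ≤ m)
    (hμ2 : |θ μ + arg z| ≤ (2 * Real.pi / N) / 2)
    (hν2 : (2 * Real.pi / N) / 2 ≤ |θ ν + arg z|) (hν3 : |θ ν + arg z| ≤ 2 * Real.pi / N)
    (hz : 1 ≤ ‖z‖)
    (hκ : 2 * N * Real.exp (-(‖z‖ * (Real.cos (2 * Real.pi / N / 2) - Real.cos (2 * Real.pi / N))))
      ≤ Real.sin (2 * Real.pi / N / 2) / 20) :
    ((∑ j ∈ Finset.Ico m0 (m0 + N), ((cexp ((θ j : ℂ) * I) * z) ^ 2 + cexp ((θ j : ℂ) * I) * z) *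
      (g j * cexp (cexp ((θ j : ℂ) * I) * z)) -
      m ^ 2 * ∑ j ∈ Finset.Ico m0 (m0 + N), g j * cexp (cexp ((θ j : ℂ) * I) * z)) /
      ∑ j ∈ Finset.Ico m0 (m0 + N), g j * cexp (cexp ((θ j : ℂ) * I) * z)).re < 0 := by
  have hπ := Real.pi_pos
  have hNpos : (0 : ℝ) < N := by positivity
  have hN2 : (2 : ℝ) ≤ N := by exact_mod_cast hN
  set h : ℝ := 2 * Real.pi / N with hh
  have hh0 : 0 < h := by positivity
  have hhπ : h ≤ Real.pi := by
    rw [hh, div_le_iff₀ hNpos]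
    nlinarith
  have hNh : N * h = 2 * Real.pi := by
    rw [hh]; field_simp
  have hr : 0 < ‖z‖ := by linarith
  have hsin0 : 0 < Real.sin (h / 2) :=
    Real.sin_pos_of_pos_of_lt_pi (by positivity) (by linarith)
  have hne : ν ≠ μ := by
    rintro rfl
    rw [sub_self, abs_zero] at hμν
    exact zero_ne_one hμν
  -- norms
  have hT : ∀ j, ‖g j * cexp (cexp ((θ j : ℂ) * I) * z)‖ =
      g0 * Real.exp (‖z‖ * Real.cos (θ j + arg z)) := by
    intro j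
    rw [norm_mul, hg, Complex.norm_exp, RootU_re]
  have hcosμ : Real.cos (h / 2) ≤ Real.cos (θ μ + arg z) := by
    rw [← Real.cos_abs (θ μ + arg z)]
    exact Real.cos_le_cos_of_nonneg_of_le_pi (abs_nonneg _) (by linarith) hμ2
  have hcosh2 : 0 ≤ Real.cos (h / 2) :=
    Real.cos_nonneg_of_neg_pi_div_two_le_of_le (by linarith) (by linarith)
  have hcosν : Real.cos (θ ν + arg z) ≤ Real.cos (θ μ + arg z) := by
    refine le_trans ?_ hcosμ
    rw [← Real.cos_abs (θ ν + arg z)]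
    exact Real.cos_le_cos_of_nonneg_of_le_pi (by positivity) (by linarith) hν2
  have hdiff : (θ μ + arg z - (θ ν + arg z)) / 2 = ((μ : ℝ) - ν) * (h / 2) := by
    rw [hθ ν μ]; ring
  have habs : |Real.sin ((θ μ + arg z - (θ ν + arg z)) / 2)| = Real.sin (h / 2) := by
    rw [hdiff]
    rcases (abs_eq (zero_le_one)).1 hμν with h23 | h23
    · rw [h23, one_mul, abs_of_pos hsin0]
    · rw [h23, neg_one_mul, Real.sin_neg, abs_neg, abs_of_pos hsin0]
  -- the difference of two exponentials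
  have hexp : ∀ α β : ℝ, ‖cexp ((α : ℂ) * I) - cexp ((β : ℂ) * I)‖ =
      2 * |Real.sin ((α - β) / 2)| := by
    intro α β
    have h17 : cexp ((α : ℂ) * I) - cexp ((β : ℂ) * I)
        = cexp ((((α + β) / 2 : ℝ) : ℂ) * I) *
          (2 * (Real.sin ((α - β) / 2) : ℂ) * I) := by
      rw [Complex.ofReal_sin, Complex.sin]
      push_cast
      have h18 : cexp ((α : ℂ) * I) = cexp (((α : ℂ) + β) / 2 * I) *
          cexp (((α : ℂ) - β) / 2 * I) := by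
        rw [← Complex.exp_add]; congr 1; ring
      have h19 : cexp ((β : ℂ) * I) = cexp (((α : ℂ) + β) / 2 * I) *
          cexp (-(((α : ℂ) - β) / 2) * I) := by
        rw [← Complex.exp_add]; congr 1; ring
      rw [h18, h19]
      have h20 := Complex.I_mul_I
      linear_combination (-(cexp (((α : ℂ) + β) / 2 * I)) *
        (cexp (-(((α : ℂ) - β) / 2) * I) - cexp (((α : ℂ) - β) / 2 * I))) * h20
    rw [h17, norm_mul, Complex.norm_exp_ofReal_mul_I, one_mul, norm_mul, norm_mul,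
      Complex.norm_I, mul_one, Complex.norm_ofNat, Complex.norm_real, Real.norm_eq_abs]
  have hform : ∀ j, cexp ((θ j : ℂ) * I) * z =
      (‖z‖ : ℂ) * cexp (((θ j + arg z : ℝ) : ℂ) * I) := by
    intro j
    conv_lhs => rw [← Complex.norm_mul_exp_arg_mul_I z]
    push_cast
    rw [add_mul, Complex.exp_add]
    ring
  refine RootU_abs (s := Finset.Ico m0 (m0 + N)) hμ hν hne
    (fun j => cexp ((θ j : ℂ) * I) * z) (fun j => g j * cexp (cexp ((θ j : ℂ) * I) * z))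
    (r := ‖z‖) (S := Real.sin (h / 2))
    (κ := Real.exp (-(‖z‖ * (Real.cos (h / 2) - Real.cos h))))
    hm hz ?_ ?_ ?_ ?_ ?_ ?_ hsin0 (Real.sin_le_one _) (Real.exp_pos _).le ?_ ?_ ?_ hsum
  · intro j
    simp only [norm_mul, Complex.norm_exp_ofReal_mul_I, one_mul]
  · simp only [RootU_re]
    exact mul_nonneg hr.le (hcosh2.trans hcosμ)
  · simp only [RootU_re]
    exact mul_le_mul_of_nonneg_left hcosν hr.le
  · rw [← norm_pos_iff, hT]
    positivity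
  · simp only [hT, RootU_re]
    rw [mul_left_comm, ← Real.exp_add]
    congr 2
    ring
  · intro j hj hj1 hj2
    simp only [hT]
    have h7 := hoth j hj hj1 hj2
    have h8 := (Finset.mem_Ico.1 hj).2
    have h10 : Real.cos (θ j + arg z) ≤ Real.cos h := by
      have h7' : (2 : ℝ) ≤ (j : ℝ) - m0 := by
        have : ((m0 + 2 : ℤ) : ℝ) ≤ j := by exact_mod_cast h7
        push_cast at this
        linarith
      have h8' : (j : ℝ) - m0 ≤ N - 1 := by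
        have : ((j + 1 : ℤ) : ℝ) ≤ ((m0 + N : ℤ) : ℝ) := by exact_mod_cast h8
        push_cast at this
        linarith
      rw [hθ m0 j]
      apply RootU_cos hh0.le
      · nlinarith
      · nlinarith
    rw [mul_left_comm, ← Real.exp_add]
    refine mul_le_mul_of_nonneg_left (Real.exp_le_exp.2 ?_) hg0.le
    nlinarith
  · simpa using hκ
  · rw [hform, hform, ← mul_sub, norm_mul, Complex.norm_real, Real.norm_eq_abs,
      abs_of_pos hr, hexp, ← habs]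
    congr 2
    rw [← abs_neg, ← Real.sin_neg]
    congr 2
    ring
  · simp only [RootU_re]
    rw [hform ν, hform μ, map_mul, Complex.conj_ofReal, ← Complex.exp_conj, map_mul,
      Complex.conj_ofReal, Complex.conj_I, mul_neg, ← neg_mul, ← Complex.ofReal_neg, ← mul_sub,
      norm_mul, Complex.norm_real, Real.norm_eq_abs, abs_of_pos hr, hexp, ← habs]
    have h1 : ‖z‖ * Real.cos (θ μ + arg z) - ‖z‖ * Real.cos (θ ν + arg z) =
        ‖z‖ * |Real.cos (θ μ + arg z) - Real.cos (θ ν + arg z)| := by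
      rw [abs_of_nonneg (by linarith)]
      ring
    rw [h1, Real.cos_sub_cos, abs_mul, abs_mul, abs_neg, abs_two]
    have h2 : (θ ν + arg z - -(θ μ + arg z)) / 2 = (θ μ + arg z + (θ ν + arg z)) / 2 := by ring
    rw [h2]
    ring

theorem rootUnity_pos (q : ℂ) (hq : ∃ n : ℕ, 0 < n ∧ q ^ n = 1) : ∃ R : ℝ, ∀ (z : ℂ) (m : ℝ),
    R < ‖z‖ → 0 < m → z * SokalF.F q (q * z) + m * SokalF.F q z = 0 →
    ((z * SokalF.F q (q * z) + z * (q * z * SokalF.F q (q * (q * z))) - m ^ 2 * SokalF.F q z) /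
      SokalF.F q z).re < 0 := by
  obtain ⟨n, hn, hqn⟩ := hq
  have hfin : IsOfFinOrder q := isOfFinOrder_iff_pow_eq_one.2 ⟨n, hn, hqn⟩
  obtain ⟨N, hN⟩ : ∃ N, N = orderOf q := ⟨_, rfl⟩
  have hN0 : 0 < N := by rw [hN]; exact hfin.orderOf_pos
  have hprim : IsPrimitiveRoot q N := by rw [hN]; exact IsPrimitiveRoot.orderOf q
  obtain ⟨i, _, hcop, hexp⟩ := (Complex.isPrimitiveRoot_iff q N hN0.ne').1 hprim
  have ha : IsCoprime (i : ℤ) (N : ℤ) := Nat.isCoprime_iff_coprime.2 hcop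
  obtain ⟨g, ε, g0, hg0, hg, hlift⟩ := lifts2 N hN0 (i : ℤ) ha
  have hq2 : q = cexp (2 * Real.pi * I * ((i : ℤ) : ℂ) / N) * cexp (-0) := by
    rw [← hexp, neg_zero, Complex.exp_zero, mul_one]
    congr 1
    push_cast
    ring
  have hN0' : (N : ℂ) ≠ 0 := by exact_mod_cast hN0.ne'
  set θ : ℤ → ℝ := fun m => 2 * Real.pi * (m + ε) / N with hθdef
  have hcast : ∀ m : ℤ, (2 * Real.pi * ((m : ℂ) + ε) / N * I : ℂ) = (θ m : ℂ) * I := by
    intro m
    rw [hθdef]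
    push_cast
    ring
  have hF : ∀ (z : ℂ) (m0 : ℤ), SokalF.F q z =
      ∑ m ∈ Finset.Ico m0 (m0 + N), g m * cexp (cexp ((θ m : ℂ) * I) * z) := by
    intro z m0
    have h1 := (hlift 0 z q m0 le_rfl hq2).1
    simp only [RootU_E, hcast] at h1
    exact h1
  have hD : ∀ (z : ℂ) (m0 : ℤ), z * SokalF.F q (q * z) =
      ∑ m ∈ Finset.Ico m0 (m0 + N), g m *
        ((cexp ((θ m : ℂ) * I) * z) * cexp (cexp ((θ m : ℂ) * I) * z)) := by
    intro z m0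
    have h1 := (hlift 0 z q m0 le_rfl hq2).2.1
    simp only [RootU_DE, hcast] at h1
    exact h1
  have hD2 : ∀ (z : ℂ) (m0 : ℤ),
      z * SokalF.F q (q * z) + z * (q * z * SokalF.F q (q * (q * z))) =
      ∑ m ∈ Finset.Ico m0 (m0 + N), ((cexp ((θ m : ℂ) * I) * z) ^ 2 + cexp ((θ m : ℂ) * I) * z) *
        (g m * cexp (cexp ((θ m : ℂ) * I) * z)) := by
    intro z m0
    have h1 := (hlift 0 z q m0 le_rfl hq2).2.2
    simp only [RootU_D2E, hcast] at h1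
    rw [h1]
    exact Finset.sum_congr rfl fun j _ => by ring
  have hsum : ∀ (z : ℂ) (m : ℝ) (m0 : ℤ), z * SokalF.F q (q * z) + m * SokalF.F q z = 0 →
      ∑ j ∈ Finset.Ico m0 (m0 + N), (cexp ((θ j : ℂ) * I) * z + m) *
        (g j * cexp (cexp ((θ j : ℂ) * I) * z)) = 0 := by
    intro z m m0 hz
    rw [hF z m0, hD z m0, Finset.mul_sum, ← Finset.sum_add_distrib] at hz
    rw [← hz]
    exact Finset.sum_congr rfl fun j _ => by ring
  rcases Nat.lt_or_ge N 2 with hN1 | hN2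
  · obtain rfl : N = 1 := by omega
    refine ⟨0, fun z m hz hm hzm => ?_⟩
    have h1 : Finset.Ico (0 : ℤ) (0 + (1 : ℕ)) = {0} := by rfl
    have h2 := hsum z m 0 hzm
    rw [h1, Finset.sum_singleton] at h2
    have h3 : g 0 * cexp (cexp ((θ 0 : ℂ) * I) * z) ≠ 0 := by
      refine mul_ne_zero ?_ (Complex.exp_ne_zero _)
      rw [← norm_pos_iff, hg]
      exact hg0
    have h4 : cexp ((θ 0 : ℂ) * I) * z = -m :=
      eq_neg_of_add_eq_zero_left ((mul_eq_zero.1 h2).resolve_right h3)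
    rw [hD2 z 0, hF z 0, h1, Finset.sum_singleton, Finset.sum_singleton]
    have h5 : (((cexp ((θ 0 : ℂ) * I) * z) ^ 2 + cexp ((θ 0 : ℂ) * I) * z) *
        (g 0 * cexp (cexp ((θ 0 : ℂ) * I) * z)) -
        m ^ 2 * (g 0 * cexp (cexp ((θ 0 : ℂ) * I) * z))) /
        (g 0 * cexp (cexp ((θ 0 : ℂ) * I) * z)) = ((-m : ℝ) : ℂ) := by
      rw [div_eq_iff h3, h4]
      push_cast
      ring
    rw [h5, Complex.ofReal_re]
    linarith
  · have hπ := Real.pi_pos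
    have hNpos : (0 : ℝ) < N := by positivity
    have hN2' : (2 : ℝ) ≤ N := by exact_mod_cast hN2
    set h : ℝ := 2 * Real.pi / N with hh
    have hh0 : 0 < h := by positivity
    have hhπ : h ≤ Real.pi := by
      rw [hh, div_le_iff₀ hNpos]
      nlinarith
    have hsin : 0 < Real.sin (h / 2) :=
      Real.sin_pos_of_pos_of_lt_pi (by positivity) (by linarith)
    have hcos : 0 < Real.cos (h / 2) - Real.cos h :=
      sub_pos.2 (Real.cos_lt_cos_of_nonneg_of_le_pi (by positivity) hhπ (by linarith))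
    have hθ : ∀ m n : ℤ, θ n = θ m + (n - m) * (2 * Real.pi / N) := by
      intro m n
      simp only [hθdef]
      field_simp
      ring
    refine ⟨max 1 (40 * N / Real.sin (h / 2) / (Real.cos (h / 2) - Real.cos h)),
      fun z m hz hm hzm => ?_⟩
    have hz1 : 1 ≤ ‖z‖ := ((le_max_left _ _).trans_lt hz).le
    have hz2 : 40 * N / Real.sin (h / 2) ≤ ‖z‖ * (Real.cos (h / 2) - Real.cos h) :=
      (div_le_iff₀ hcos).1 ((le_max_right _ _).trans_lt hz).le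
    have hκ : 2 * N * Real.exp (-(‖z‖ * (Real.cos (h / 2) - Real.cos h)))
        ≤ Real.sin (h / 2) / 20 := by
      have h1 := Real.add_one_le_exp (‖z‖ * (Real.cos (h / 2) - Real.cos h))
      have h2 : 40 * N / Real.sin (h / 2) ≤
          Real.exp (‖z‖ * (Real.cos (h / 2) - Real.cos h)) := by linarith
      rw [div_le_iff₀ hsin] at h2
      rw [Real.exp_neg, ← div_eq_mul_inv, div_le_iff₀ (Real.exp_pos _)]
      linarith
    -- the window
    set m0 : ℤ := ⌊-(θ 0 + arg z) / h⌋ with hm0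
    have hm1 : θ m0 + arg z ≤ 0 := by
      have h1 : (m0 : ℝ) ≤ -(θ 0 + arg z) / h := Int.floor_le _
      rw [le_div_iff₀ hh0] at h1
      rw [hθ 0 m0]
      push_cast
      rw [← hh]
      linarith
    have hm2 : -h ≤ θ m0 + arg z := by
      have h1 : -(θ 0 + arg z) / h < m0 + 1 := Int.lt_floor_add_one _
      rw [div_lt_iff₀ hh0] at h1
      rw [hθ 0 m0]
      push_cast
      rw [← hh]
      linarith
    have h5 : θ (m0 + 1) = θ m0 + h := by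
      rw [hθ m0 (m0 + 1)]
      push_cast
      ring
    have h6 := hsum z m m0 hzm
    rw [hD2 z m0, hF z m0]
    rcases le_total (-(h / 2)) (θ m0 + arg z) with hc | hc
    · refine RootU_key hN2 g hg0 hg θ hθ z m0 hm h6 hm2 hm1 m0 (m0 + 1) ?_ ?_ ?_ ?_ ?_ ?_ ?_
        hz1 hκ
      · rw [Finset.mem_Ico]
        omega
      · rw [Finset.mem_Ico]
        omega
      · push_cast
        rw [show (m0 : ℝ) - (m0 + 1) = -1 by ring, abs_neg, abs_one]
      · intro m hm h3 h4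
        rw [Finset.mem_Ico] at hm
        omega
      · rw [abs_le]
        constructor
        · exact hc
        · linarith
      · rw [h5, abs_of_nonneg (by linarith)]
        linarith
      · rw [h5, abs_of_nonneg (by linarith)]
        linarith
    · refine RootU_key hN2 g hg0 hg θ hθ z m0 hm h6 hm2 hm1 (m0 + 1) m0 ?_ ?_ ?_ ?_ ?_ ?_ ?_
        hz1 hκ
      · rw [Finset.mem_Ico]
        omega
      · rw [Finset.mem_Ico]
        omega
      · push_cast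
        rw [show (m0 : ℝ) + 1 - m0 = 1 by ring, abs_one]
      · intro m hm h3 h4
        rw [Finset.mem_Ico] at hm
        omega
      · rw [h5, abs_le]
        constructor
        · linarith
        · linarith
      · rw [abs_of_nonpos hm1]
        linarith
      · rw [abs_of_nonpos hm1]
        linarith

end SokalBPlus
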