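import Pool.Agent.Lib_MP_af4de1.Large

/-!
# The sign condition for `0 < |q| ≤ r < 1` and large `z`

Same compactness argument as for `SokalF.large_bound`, with the second derivative.
-/

namespace SokalBPlus

open Filter Topology SokalF

theorem summable_tm_sq {q z : ℂ} (hq : ‖q‖ ≤ 1) :
    Summable (fun i : ℕ => (i : ℂ) ^ 2 * tm q z i) ∧ ∑' i : ℕ, (i : ℂ) ^ 2 * tm q z i =
      z * F q (q * z) + z * (q * z * F q (q * (q * z))) := by
  have h1 : ∀ i : ℕ, ((i + 1 : ℕ) : ℂ) ^ 2 * tm q z (i + 1) =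
      z * ((i : ℂ) * tm q (q * z) i + tm q (q * z) i) := by
    intro i
    rw [tm_succ]
    unfold tm
    have h3 : ((i : ℂ) + 1) ≠ 0 := by exact_mod_cast Nat.succ_ne_zero i
    rw [mul_pow]
    push_cast
    field_simp
  have h4 := summable_tm_mul (z := q * z) hq
  have h5 : Summable (tm q (q * z)) := summable_term hq (q * z)
  have h2 : Summable fun i : ℕ => ((i + 1 : ℕ) : ℂ) ^ 2 * tm q z (i + 1) :=
    ((h4.1.add h5).mul_left z).congr fun i => (h1 i).symm
  have h3 : Summable (fun i : ℕ => (i : ℂ) ^ 2 * tm q z i) :=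
    (summable_nat_add_iff (f := fun i : ℕ => (i : ℂ) ^ 2 * tm q z i) 1).1 h2
  refine ⟨h3, ?_⟩
  rw [h3.tsum_eq_zero_add]
  simp only [CharP.cast_eq_zero, ne_eq, OfNat.ofNat_ne_zero, not_false_eq_true, zero_pow, zero_mul,
    zero_add]
  rw [tsum_congr h1, tsum_mul_left, Summable.tsum_add h4.1 h5, h4.2]
  have h6 : ∑' i, tm q (q * z) i = F q (q * z) := rfl
  rw [h6]
  ring

/-- The ratios above the index `k`. -/
noncomputable def up (q z : ℂ) (k j : ℕ) : ℂ :=
  q ^ (j * (j + 1) / 2) * (q ^ k * z / ((k : ℂ) + 1)) ^ (j + 1) * (α k (j + 1) : ℂ)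

/-- The ratios below the index `k`. -/
noncomputable def dn (q z : ℂ) (k l : ℕ) : ℂ :=
  q ^ (l * (l + 1) / 2) * ((k : ℂ) / (q ^ (k - 1) * z)) ^ (l + 1) * (β k (l + 1) : ℂ)

theorem gen_split {q z : ℂ} (hq0 : q ≠ 0) (hz : z ≠ 0) (k p : ℕ)
    (hs : Summable fun i : ℕ => ((i : ℂ) - k) ^ p * tm q z i) :
    ∑' i : ℕ, ((i : ℂ) - k) ^ p * tm q z i = tm q z k * (0 ^ p +
      (∑' j : ℕ, ((j : ℂ) + 1) ^ p * up q z k j) +
      (-1) ^ p * ∑' l : ℕ, ((l : ℂ) + 1) ^ p * dn q z k l) := by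
  have h1 := tsum_split hs k
  have up' : ∀ j : ℕ, (((k + (j + 1) : ℕ) : ℂ) - k) ^ p * tm q z (k + (j + 1)) = tm q z k *
      (((j : ℂ) + 1) ^ p * up q z k j) := by
    intro j
    rw [tm_up, half]
    have e : ((k + (j + 1) : ℕ) : ℂ) - k = (j : ℂ) + 1 := by push_cast; ring
    rw [e]
    unfold up
    ring
  have down' : ∀ l : ℕ, (if l < k then (((k - (l + 1) : ℕ) : ℂ) - k) ^ p * tm q z (k - (l + 1))
      else 0) = tm q z k * ((-1) ^ p * (((l : ℂ) + 1) ^ p * dn q z k l)) := by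
    intro l
    unfold dn
    split_ifs with h
    · rw [tm_down hq0 hz k (l + 1) h, half]
      have e : ((k - (l + 1) : ℕ) : ℂ) - k = (-1) * ((l : ℂ) + 1) := by
        rw [Nat.cast_sub (by omega)]
        push_cast
        ring
      rw [e, mul_pow]
      ring
    · rw [β_zero_of_lt (by omega)]
      simp
  rw [h1, tsum_congr up', tsum_congr down', tsum_mul_left, tsum_mul_left, tsum_mul_left, sub_self]
  ring

/-- Passage to the limit in the series, weights up to `(j+1)²`. -/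
theorem tannery2 {r : ℝ} (hr : r < 1) {qn un : ℕ → ℂ} {q u : ℂ} (hqn : ∀ n, ‖qn n‖ ≤ r)
    (hun : ∀ n, ‖un n‖ ≤ 1) (hq : Tendsto qn atTop (𝓝 q)) (hu : Tendsto un atTop (𝓝 u))
    {γ : ℕ → ℕ → ℝ} (hγ : ∀ n j, 0 ≤ γ n j ∧ γ n j ≤ 1) (hγ1 : ∀ n, γ n 0 = 1)
    (hγl : q ≠ 0 → ∀ j, Tendsto (fun n => γ n j) atTop (𝓝 1)) {w : ℕ → ℂ}
    (hw : ∀ j, ‖w j‖ ≤ ((j : ℝ) + 1) ^ 2) :
    Tendsto (fun n => ∑' j : ℕ, w j * (qn n ^ (j * (j + 1) / 2) * un n ^ (j + 1) *
      (γ n j : ℂ))) atTop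
      (𝓝 (∑' j : ℕ, w j * (q ^ (j * (j + 1) / 2) * u ^ (j + 1)))) := by
  have hr0 : 0 ≤ r := (norm_nonneg _).trans (hqn 0)
  have hrn : ‖r‖ < 1 := by rw [Real.norm_of_nonneg hr0]; exact hr
  have hsum : Summable fun j : ℕ => ((j : ℝ) + 1) ^ 2 * r ^ j := by
    have h1 := summable_pow_mul_geometric_of_norm_lt_one 2 hrn
    have h2 := summable_pow_mul_geometric_of_norm_lt_one 1 hrn
    have h3 := summable_geometric_of_lt_one hr0 hr
    refine ((h1.add (h2.mul_left 2)).add h3).congr fun j => ?_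
    ring
  refine tendsto_tsum_of_dominated_convergence hsum ?_ ?_
  · intro j
    rcases Nat.eq_zero_or_pos j with hj | hj
    · subst hj
      simp only [Nat.zero_div, pow_zero, zero_add, pow_one, one_mul, hγ1,
        Complex.ofReal_one, mul_one]
      exact hu.const_mul _
    · by_cases hq0 : q = 0
      · subst hq0
        have hN : j * (j + 1) / 2 ≠ 0 := by
          have : 2 ≤ j * (j + 1) := by nlinarith
          omega
        rw [zero_pow hN, zero_mul, mul_zero]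
        have h1 : Tendsto (fun n => w j * (qn n ^ (j * (j + 1) / 2) * un n ^ (j + 1))) atTop
            (𝓝 (w j * (0 ^ (j * (j + 1) / 2) * u ^ (j + 1)))) :=
          ((hq.pow _).mul (hu.pow _)).const_mul _
        rw [zero_pow hN, zero_mul, mul_zero] at h1
        rw [tendsto_zero_iff_norm_tendsto_zero] at h1 ⊢
        refine squeeze_zero (fun n => norm_nonneg _) (fun n => ?_) h1
        rw [← mul_assoc, norm_mul _ (γ n j : ℂ)]
        refine mul_le_of_le_one_right (norm_nonneg _) ?_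
        rw [Complex.norm_real, Real.norm_of_nonneg (hγ n j).1]
        exact (hγ n j).2
      · have h1 : Tendsto (fun n => (γ n j : ℂ)) atTop (𝓝 ((1 : ℝ) : ℂ)) :=
          (Complex.continuous_ofReal.tendsto 1).comp (hγl hq0 j)
        have h2 := (((hq.pow (j * (j + 1) / 2)).mul (hu.pow (j + 1))).mul h1).const_mul (w j)
        simpa using h2
  · refine Eventually.of_forall fun n j => ?_
    rw [norm_mul, norm_mul, norm_mul, norm_pow, norm_pow, Complex.norm_real,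
      Real.norm_of_nonneg (hγ n j).1]
    have h1 : ‖qn n‖ ^ (j * (j + 1) / 2) ≤ r ^ j := by
      have hN : j ≤ j * (j + 1) / 2 := by
        rcases Nat.eq_zero_or_pos j with hj | hj
        · subst hj; simp
        · rw [Nat.le_div_iff_mul_le (by norm_num)]
          nlinarith
      exact (pow_le_pow_left₀ (norm_nonneg _) (hqn n) _).trans
        (pow_le_pow_of_le_one hr0 hr.le hN)
    have h2 : ‖un n‖ ^ (j + 1) ≤ 1 := pow_le_one₀ (norm_nonneg _) (hun n)
    calc ‖w j‖ * (‖qn n‖ ^ (j * (j + 1) / 2) * ‖un n‖ ^ (j + 1) * γ n j)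
        ≤ ((j : ℝ) + 1) ^ 2 * (r ^ j * 1 * 1) := by
          have h3 := hw j
          have h4 := (hγ n j).1
          have h5 := (hγ n j).2
          gcongr
      _ = ((j : ℝ) + 1) ^ 2 * r ^ j := by ring

/-- The second moment of the theta function. -/
noncomputable def TC (q u v : ℂ) : ℂ :=
  ∑' j : ℕ, ((j : ℂ) + 1) ^ 2 * (q ^ (j * (j + 1) / 2) * u ^ (j + 1)) +
    ∑' j : ℕ, ((j : ℂ) + 1) ^ 2 * (q ^ (j * (j + 1) / 2) * v ^ (j + 1))

private theorem sum_zero (w : ℕ → ℂ) (u : ℂ) :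
    ∑' j : ℕ, w j * ((0 : ℂ) ^ (j * (j + 1) / 2) * u ^ (j + 1)) = w 0 * u := by
  rw [tsum_eq_single 0]
  · simp
  · intro j hj
    have hN : j * (j + 1) / 2 ≠ 0 := by
      have h1 : 1 ≤ j := Nat.one_le_iff_ne_zero.2 hj
      have : 2 ≤ j * (j + 1) := by nlinarith
      omega
    rw [zero_pow hN, zero_mul, mul_zero]

/-- The final algebra in the limit. -/
private theorem limit_case {q u v : ℂ} {w : ℝ} (hq : ‖q‖ < 1) (huv : u * v = q) (hu : ‖u‖ ≤ 1)
    (hv : ‖v‖ ≤ 1) (hw0 : 0 ≤ w) (hw1 : w ≤ 1) (hqw : w ≠ 0 → q = 0)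
    (hA : TA q u v = -(w * TB q u v)) (hC : TB q u v ≠ 0 → 1 ≤ -(w * (TC q u v / TB q u v)).re) :
    False := by
  have hB : TB q u v ≠ 0 := by
    intro hB
    rw [hB, mul_zero, neg_zero] at hA
    exact theta_simple hq huv hu hv hA hB
  have hC' := hC hB
  by_cases hw : w = 0
  · rw [hw, Complex.ofReal_zero, zero_mul, Complex.zero_re, neg_zero] at hC'
    linarith
  · have hq0 := hqw hw
    subst hq0
    have eA : TA 0 u v = 1 + u + v := by
      unfold TA
      have h1 := sum_zero (fun _ => 1) u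
      have h2 := sum_zero (fun _ => 1) v
      simp only [one_mul] at h1 h2
      rw [h1, h2]
    have eB : TB 0 u v = u - v := by
      unfold TB
      rw [sum_zero, sum_zero]
      simp
    have eC : TC 0 u v = u + v := by
      unfold TC
      rw [sum_zero (fun j => ((j : ℂ) + 1) ^ 2), sum_zero (fun j => ((j : ℂ) + 1) ^ 2)]
      simp
    rw [eA, eB] at hA
    rw [eC, eB] at hC'
    rw [eB] at hB
    rcases mul_eq_zero.1 huv with h0 | h0
    · subst h0
      have hv0 : v ≠ 0 := by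
        intro h
        rw [h, sub_self] at hB
        exact hB rfl
      have e1 : ((0 : ℂ) + v) / (0 - v) = -1 := by
        rw [zero_add, zero_sub, div_neg, div_self hv0]
      rw [e1] at hC'
      simp only [mul_neg, mul_one, Complex.neg_re, Complex.ofReal_re, neg_neg] at hC'
      have e2 : w = 1 := le_antisymm hw1 hC'
      rw [e2, Complex.ofReal_one] at hA
      have e3 : (1 : ℂ) = 0 := by linear_combination hA
      exact one_ne_zero e3
    · subst h0
      have hu0 : u ≠ 0 := by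
        intro h
        rw [h, sub_self] at hB
        exact hB rfl
      have e1 : (u + 0) / (u - 0) = 1 := by
        rw [add_zero, sub_zero, div_self hu0]
      rw [e1, mul_one, Complex.ofReal_re] at hC'
      linarith

theorem sign_small {r : ℝ} (hr : r < 1) : ∃ R : ℝ, ∀ (q z : ℂ) (m : ℝ), 0 < ‖q‖ → ‖q‖ ≤ r →
    R < ‖z‖ → 0 < m → z * F q (q * z) + m * F q z = 0 →
    ((z * F q (q * z) + z * (q * z * F q (q * (q * z))) - m ^ 2 * F q z) / F q z).re < 0 := by
  by_contra hcon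
  push Not at hcon
  choose qs zs ms hq0 hqr hbig hm0 hG hre using fun n : ℕ => hcon ((n : ℝ) + 1)
  have hz1 : ∀ n, 1 ≤ ‖zs n‖ := fun n => by
    have := hbig n
    linarith [(Nat.cast_nonneg n : (0 : ℝ) ≤ n)]
  have hq1 : ∀ n, ‖qs n‖ ≤ 1 := fun n => (hqr n).trans hr.le
  choose k hk0 hk1 hk2 using fun n => exists_index (hq1 n) (norm_nonneg _) (hz1 n)
  have hqne : ∀ n, qs n ≠ 0 := fun n => norm_pos_iff.1 (hq0 n)
  have hzne : ∀ n, zs n ≠ 0 := fun n => norm_pos_iff.1 (by linarith [hz1 n])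
  obtain ⟨u, hu⟩ : ∃ u : ℕ → ℂ, ∀ n, u n = qs n ^ k n * zs n / ((k n : ℂ) + 1) :=
    ⟨_, fun _ => rfl⟩
  obtain ⟨v, hv⟩ : ∃ v : ℕ → ℂ, ∀ n, v n = (k n : ℂ) / (qs n ^ (k n - 1) * zs n) :=
    ⟨_, fun _ => rfl⟩
  have hkR : ∀ n, (0 : ℝ) < (k n : ℝ) + 1 := fun n => by positivity
  have hk1' : ∀ n, (1 : ℝ) ≤ k n := fun n => by exact_mod_cast hk0 n
  obtain ⟨w, hw⟩ : ∃ w : ℕ → ℝ, ∀ n, w n = 1 / (k n + ms n) := ⟨_, fun _ => rfl⟩
  have hkm : ∀ n, 0 < (k n : ℝ) + ms n := fun n => by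
    have := hk1' n
    have := hm0 n
    linarith
  have hw0 : ∀ n, 0 < w n := fun n => by
    rw [hw]
    exact div_pos one_pos (hkm n)
  have hw1 : ∀ n, w n ≤ 1 := fun n => by
    rw [hw, div_le_one (hkm n)]
    have := hk1' n
    have := hm0 n
    linarith
  have hu1 : ∀ n, ‖u n‖ ≤ 1 := by
    intro n
    have e1 : ‖(k n : ℂ) + 1‖ = (k n : ℝ) + 1 := by
      rw [← Nat.cast_succ, Complex.norm_natCast]; push_cast; ring
    rw [hu, norm_div, norm_mul, norm_pow, e1, div_le_one (hkR n)]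
    exact (hk2 n).le
  have hv1 : ∀ n, ‖v n‖ ≤ 1 := by
    intro n
    rw [hv, norm_div, norm_mul, norm_pow, Complex.norm_natCast]
    exact div_le_one_of_le₀ (hk1 n) (by positivity)
  have huv : ∀ n, u n * v n = qs n * ((k n : ℂ) / ((k n : ℂ) + 1)) := by
    intro n
    have h1 : ((k n : ℂ) + 1) ≠ 0 := by exact_mod_cast Nat.succ_ne_zero (k n)
    have h2 : qs n ^ (k n) = qs n ^ (k n - 1) * qs n := by
      rw [← pow_succ, Nat.sub_add_cancel (hk0 n)]
    have h3 := pow_ne_zero (k n - 1) (hqne n)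
    have h4 := hzne n
    rw [hu, hv, h2]
    field_simp
  -- the normalised sums
  have hT : ∀ n, tm (qs n) (zs n) (k n) ≠ 0 := fun n => tm_ne_zero (hqne n) (hzne n) (k n)
  obtain ⟨A, hA⟩ : ∃ A : ℕ → ℂ, ∀ n, A n = 1 + (∑' j : ℕ, up (qs n) (zs n) (k n) j) +
      ∑' l : ℕ, dn (qs n) (zs n) (k n) l := ⟨_, fun _ => rfl⟩
  obtain ⟨B, hB⟩ : ∃ B : ℕ → ℂ, ∀ n, B n = (∑' j : ℕ, ((j : ℂ) + 1) * up (qs n) (zs n) (k n) j) -
      ∑' l : ℕ, ((l : ℂ) + 1) * dn (qs n) (zs n) (k n) l := ⟨_, fun _ => rfl⟩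
  obtain ⟨C, hC⟩ : ∃ C : ℕ → ℂ, ∀ n, C n =
      (∑' j : ℕ, ((j : ℂ) + 1) ^ 2 * up (qs n) (zs n) (k n) j) +
      ∑' l : ℕ, ((l : ℂ) + 1) ^ 2 * dn (qs n) (zs n) (k n) l := ⟨_, fun _ => rfl⟩
  have eqA : ∀ n, F (qs n) (zs n) = tm (qs n) (zs n) (k n) * A n := by
    intro n
    have hs : Summable (tm (qs n) (zs n)) := summable_term (hq1 n) (zs n)
    have h1 := gen_split (hqne n) (hzne n) (k n) 0 (by simpa using hs)
    simp only [pow_zero, one_mul] at h1
    rw [hA, ← h1]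
    rfl
  have eqB : ∀ n, zs n * F (qs n) (qs n * zs n) - k n * F (qs n) (zs n) =
      tm (qs n) (zs n) (k n) * B n := by
    intro n
    have hs : Summable (tm (qs n) (zs n)) := summable_term (hq1 n) (zs n)
    have hs1 := summable_tm_mul (z := zs n) (hq1 n)
    have hs2 : Summable fun i : ℕ => ((i : ℂ) - k n) ^ 1 * tm (qs n) (zs n) i := by
      refine (hs1.1.sub (hs.mul_left (k n : ℂ))).congr fun i => ?_
      ring
    have h1 := gen_split (hqne n) (hzne n) (k n) 1 hs2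
    simp only [pow_one, zero_add] at h1
    have e1 : ∑' i : ℕ, ((i : ℂ) - k n) * tm (qs n) (zs n) i =
        (∑' i : ℕ, (i : ℂ) * tm (qs n) (zs n) i) - ∑' i : ℕ, (k n : ℂ) * tm (qs n) (zs n) i := by
      rw [← Summable.tsum_sub hs1.1 (hs.mul_left (k n : ℂ))]
      refine tsum_congr fun i => ?_
      ring
    have h2 : ∑' i, tm (qs n) (zs n) i = F (qs n) (zs n) := rfl
    rw [e1, hs1.2, tsum_mul_left, h2] at h1
    rw [h1, hB]
    ring
  have eqC : ∀ n, (zs n * F (qs n) (qs n * zs n) +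
      zs n * (qs n * zs n * F (qs n) (qs n * (qs n * zs n)))) -
      2 * k n * (zs n * F (qs n) (qs n * zs n)) + k n ^ 2 * F (qs n) (zs n) =
      tm (qs n) (zs n) (k n) * C n := by
    intro n
    have hs : Summable (tm (qs n) (zs n)) := summable_term (hq1 n) (zs n)
    have hs1 := summable_tm_mul (z := zs n) (hq1 n)
    have hs2 := summable_tm_sq (z := zs n) (hq1 n)
    have hs3 : Summable fun i : ℕ => ((i : ℂ) - k n) ^ 2 * tm (qs n) (zs n) i := by
      refine ((hs2.1.sub (hs1.1.mul_left (2 * k n : ℂ))).add (hs.mul_left (k n ^ 2 : ℂ))).congr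
        fun i => ?_
      ring
    have h1 := gen_split (hqne n) (hzne n) (k n) 2 hs3
    have e1 : ∑' i : ℕ, ((i : ℂ) - k n) ^ 2 * tm (qs n) (zs n) i =
        (∑' i : ℕ, (i : ℂ) ^ 2 * tm (qs n) (zs n) i) -
        (∑' i : ℕ, (2 * k n : ℂ) * ((i : ℂ) * tm (qs n) (zs n) i)) +
        ∑' i : ℕ, (k n ^ 2 : ℂ) * tm (qs n) (zs n) i := by
      rw [← Summable.tsum_sub hs2.1 (hs1.1.mul_left (2 * k n : ℂ)),
        ← Summable.tsum_add (hs2.1.sub (hs1.1.mul_left (2 * k n : ℂ))) (hs.mul_left (k n ^ 2 : ℂ))]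
      refine tsum_congr fun i => ?_
      ring
    have h2 : ∑' i, tm (qs n) (zs n) i = F (qs n) (zs n) := rfl
    rw [e1, hs2.2, tsum_mul_left, tsum_mul_left, hs1.2, h2] at h1
    rw [h1, hC]
    ring
  -- the two relations
  have rel1 : ∀ n, A n = -(w n * B n) := by
    intro n
    have h1 : (w n : ℂ) * ((k n : ℂ) + ms n) = 1 := by
      rw [hw]
      have h2 : ((k n : ℝ) + ms n : ℂ) ≠ 0 := by exact_mod_cast (hkm n).ne'
      push_cast
      push_cast at h2
      field_simp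
    have h2 : tm (qs n) (zs n) (k n) * B n =
        -((k n : ℂ) + ms n) * (tm (qs n) (zs n) (k n) * A n) := by
      rw [← eqB, ← eqA]
      linear_combination hG n
    have h3 : B n = -((k n : ℂ) + ms n) * A n := by
      refine mul_left_cancel₀ (hT n) ?_
      rw [h2]
      ring
    rw [h3]
    linear_combination (-(A n)) * h1
  have rel2 : ∀ n, B n ≠ 0 → 1 ≤ -(w n * (C n / B n)).re := by
    intro n hBn
    have h1 : (w n : ℂ) * ((k n : ℂ) + ms n) = 1 := by
      rw [hw]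
      have h2 : ((k n : ℝ) + ms n : ℂ) ≠ 0 := by exact_mod_cast (hkm n).ne'
      push_cast
      push_cast at h2
      field_simp
    have hwC : (w n : ℂ) ≠ 0 := by exact_mod_cast (hw0 n).ne'
    have hAn : A n ≠ 0 := by
      rw [rel1]
      exact neg_ne_zero.2 (mul_ne_zero hwC hBn)
    have h2 := hre n
    have h3 : (zs n * F (qs n) (qs n * zs n) +
        zs n * (qs n * zs n * F (qs n) (qs n * (qs n * zs n))) - ms n ^ 2 * F (qs n) (zs n)) /
        F (qs n) (zs n) = -(((k n : ℂ) + ms n) ^ 2 * (1 + w n * (C n / B n))) := by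
      have hk : ((k n : ℂ) + ms n) ≠ 0 := right_ne_zero_of_mul (by rw [h1]; exact one_ne_zero)
      have h4 : zs n * F (qs n) (qs n * zs n) +
          zs n * (qs n * zs n * F (qs n) (qs n * (qs n * zs n))) - ms n ^ 2 * F (qs n) (zs n) =
          tm (qs n) (zs n) (k n) * (C n - ((k n : ℂ) + ms n) ^ 2 * A n) := by
        have e1 := eqC n
        have e2 := eqA n
        have e3 := hG n
        linear_combination e1 + 2 * (k n : ℂ) * e3 - ((k n : ℂ) + ms n) ^ 2 * e2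
      have h5 : B n = -(((k n : ℂ) + ms n) * A n) := by
        rw [rel1 n]
        linear_combination (-(B n)) * h1
      rw [h4, eqA, mul_div_mul_left _ _ (hT n), h5]
      have h6 : (w n : ℂ) = 1 / ((k n : ℂ) + ms n) := by
        rw [eq_div_iff hk]
        exact h1
      rw [h6]
      field_simp
      ring
    rw [h3] at h2
    have h4 : ((k n : ℂ) + ms n) ^ 2 = (((k n + ms n) ^ 2 : ℝ) : ℂ) := by push_cast; ring
    rw [h4, Complex.neg_re, Complex.re_ofReal_mul, Complex.add_re, Complex.one_re] at h2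
    have h5 : 0 < ((k n : ℝ) + ms n) ^ 2 := pow_pos (hkm n) 2
    by_contra hcon
    push Not at hcon
    have h6 : 0 < 1 + (w n * (C n / B n)).re := by linarith
    have h7 := mul_pos h5 h6
    linarith
  -- a convergent subsequence
  have hK : IsCompact (Metric.closedBall (0 : ℂ) r ×ˢ (Metric.closedBall (0 : ℂ) 1 ×ˢ
      (Metric.closedBall (0 : ℂ) 1 ×ˢ Set.Icc (0 : ℝ) 1))) :=
    (isCompact_closedBall _ _).prod ((isCompact_closedBall _ _).prod
      ((isCompact_closedBall _ _).prod isCompact_Icc))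
  obtain ⟨⟨q, u', v', w'⟩, hmem, φ, hφ, hlim⟩ := hK.tendsto_subseq
    (x := fun n => (qs n, u n, v n, w n)) (fun n => ⟨mem_closedBall_zero_iff.2 (hqr n),
      mem_closedBall_zero_iff.2 (hu1 n), mem_closedBall_zero_iff.2 (hv1 n), (hw0 n).le, hw1 n⟩)
  have hqlim : Tendsto (fun n => qs (φ n)) atTop (𝓝 q) := (continuous_fst.tendsto _).comp hlim
  have hulim : Tendsto (fun n => u (φ n)) atTop (𝓝 u') :=
    ((continuous_fst.comp continuous_snd).tendsto _).comp hlim
  have hvlim : Tendsto (fun n => v (φ n)) atTop (𝓝 v') :=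
    ((continuous_fst.comp (continuous_snd.comp continuous_snd)).tendsto _).comp hlim
  have hwlim : Tendsto (fun n => w (φ n)) atTop (𝓝 w') :=
    ((continuous_snd.comp (continuous_snd.comp continuous_snd)).tendsto _).comp hlim
  have hqr' : ‖q‖ ≤ r := mem_closedBall_zero_iff.1 hmem.1
  have hu1' : ‖u'‖ ≤ 1 := mem_closedBall_zero_iff.1 hmem.2.1
  have hv1' : ‖v'‖ ≤ 1 := mem_closedBall_zero_iff.1 hmem.2.2.1
  have hw0' : 0 ≤ w' := hmem.2.2.2.1
  have hw1' : w' ≤ 1 := hmem.2.2.2.2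
  -- the index tends to infinity unless `q = 0`
  have hkinf : q ≠ 0 → Tendsto (fun n => k (φ n)) atTop atTop := by
    intro hq
    rw [tendsto_atTop]
    intro K
    have hδ : 0 < ‖q‖ / 2 := by positivity
    have h1 : ∀ᶠ n in atTop, ‖q‖ / 2 < ‖qs (φ n)‖ :=
      hqlim.norm.eventually (lt_mem_nhds (by linarith))
    have h2 : ∀ᶠ n : ℕ in atTop, ((K : ℝ) + 1) / (‖q‖ / 2) ^ K ≤ n :=
      tendsto_natCast_atTop_atTop.eventually_ge_atTop _
    filter_upwards [h1, h2] with n h1 h2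
    by_contra hlt
    push Not at hlt
    have h3 : (n : ℝ) ≤ ‖zs (φ n)‖ := by
      have h4 := hbig (φ n)
      have h5 : (n : ℝ) ≤ φ n := by exact_mod_cast hφ.id_le n
      linarith
    have h4 := hk2 (φ n)
    have h5 : (‖q‖ / 2) ^ K ≤ ‖qs (φ n)‖ ^ k (φ n) := by
      calc (‖q‖ / 2) ^ K ≤ ‖qs (φ n)‖ ^ K := pow_le_pow_left₀ hδ.le h1.le K
        _ ≤ ‖qs (φ n)‖ ^ k (φ n) := pow_le_pow_of_le_one (norm_nonneg _) (hq1 _) hlt.le
    have h6 : (K : ℝ) + 1 ≤ (‖q‖ / 2) ^ K * ‖zs (φ n)‖ := by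
      have h7 : ((K : ℝ) + 1) / (‖q‖ / 2) ^ K ≤ ‖zs (φ n)‖ := h2.trans h3
      rw [div_le_iff₀ (by positivity)] at h7
      linarith
    have h8 : (‖q‖ / 2) ^ K * ‖zs (φ n)‖ ≤ ‖qs (φ n)‖ ^ k (φ n) * ‖zs (φ n)‖ :=
      mul_le_mul_of_nonneg_right h5 (norm_nonneg _)
    have h9 : ((k (φ n) : ℕ) : ℝ) < K := by exact_mod_cast hlt
    linarith
  have huv' : u' * v' = q := by
    have h1 : Tendsto (fun n => u (φ n) * v (φ n)) atTop (𝓝 (u' * v')) := hulim.mul hvlim
    have h2 : Tendsto (fun n => u (φ n) * v (φ n)) atTop (𝓝 q) := by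
      by_cases hq : q = 0
      · subst hq
        have h3 : Tendsto (fun n => qs (φ n)) atTop (𝓝 0) := hqlim
        rw [tendsto_zero_iff_norm_tendsto_zero] at h3 ⊢
        refine squeeze_zero (fun n => norm_nonneg _) (fun n => ?_) h3
        rw [huv, norm_mul]
        refine mul_le_of_le_one_right (norm_nonneg _) ?_
        have e1 : ‖(k (φ n) : ℂ) + 1‖ = (k (φ n) : ℝ) + 1 := by
          rw [← Nat.cast_succ, Complex.norm_natCast]; push_cast; ring
        rw [norm_div, e1, Complex.norm_natCast, div_le_one (hkR _)]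
        linarith
      · have h4 : Tendsto (fun n : ℕ => (n : ℂ) / ((n : ℂ) + 1)) atTop (𝓝 1) := by
          have h5 : Tendsto (fun n : ℕ => (((n : ℝ) / ((n : ℝ) + 1) : ℝ) : ℂ)) atTop
              (𝓝 ((1 : ℝ) : ℂ)) :=
            (Complex.continuous_ofReal.tendsto 1).comp (tendsto_natCast_div_add_atTop 1)
          simpa using h5
        have h5 := hqlim.mul (h4.comp (hkinf hq))
        rw [mul_one] at h5
        exact h5.congr fun n => (huv (φ n)).symm
    exact tendsto_nhds_unique h1 h2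
  have lim1 : ∀ x : ℕ → ℂ, (∀ j, ‖x j‖ ≤ ((j : ℝ) + 1) ^ 2) →
      Tendsto (fun n => ∑' j : ℕ, x j * up (qs (φ n)) (zs (φ n)) (k (φ n)) j) atTop
      (𝓝 (∑' j : ℕ, x j * (q ^ (j * (j + 1) / 2) * u' ^ (j + 1)))) := by
    intro x hx
    have h1 := tannery2 hr (fun n => hqr (φ n)) (fun n => hu1 (φ n)) hqlim hulim
      (γ := fun n j => α (k (φ n)) (j + 1)) (fun n j => α_mem _ _) (fun n => α_one _)
      (fun hq j => (α_tendsto (j + 1)).comp (hkinf hq)) hx
    refine h1.congr fun n => tsum_congr fun j => ?_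
    unfold up
    rw [← hu]
  have lim2 : ∀ x : ℕ → ℂ, (∀ j, ‖x j‖ ≤ ((j : ℝ) + 1) ^ 2) →
      Tendsto (fun n => ∑' j : ℕ, x j * dn (qs (φ n)) (zs (φ n)) (k (φ n)) j) atTop
      (𝓝 (∑' j : ℕ, x j * (q ^ (j * (j + 1) / 2) * v' ^ (j + 1)))) := by
    intro x hx
    have h1 := tannery2 hr (fun n => hqr (φ n)) (fun n => hv1 (φ n)) hqlim hvlim
      (γ := fun n j => β (k (φ n)) (j + 1)) (fun n j => β_mem _ _) (fun n => β_one (hk0 _))
      (fun hq j => (β_tendsto (j + 1)).comp (hkinf hq)) hx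
    refine h1.congr fun n => tsum_congr fun j => ?_
    unfold dn
    rw [← hv]
  have b0 : ∀ j : ℕ, ‖(1 : ℂ)‖ ≤ ((j : ℝ) + 1) ^ 2 := fun j => by
    rw [norm_one]
    have : (0 : ℝ) ≤ j := Nat.cast_nonneg j
    nlinarith
  have bj : ∀ j : ℕ, ‖(j : ℂ) + 1‖ = (j : ℝ) + 1 := fun j => by
    rw [← Nat.cast_succ, Complex.norm_natCast]; push_cast; ring
  have b1 : ∀ j : ℕ, ‖(j : ℂ) + 1‖ ≤ ((j : ℝ) + 1) ^ 2 := fun j => by
    rw [bj]
    have : (0 : ℝ) ≤ j := Nat.cast_nonneg j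
    nlinarith
  have b2 : ∀ j : ℕ, ‖((j : ℂ) + 1) ^ 2‖ ≤ ((j : ℝ) + 1) ^ 2 := fun j => by
    rw [norm_pow, bj]
  have hAlim : Tendsto (fun n => A (φ n)) atTop (𝓝 (TA q u' v')) := by
    have h1 := lim1 (fun _ => 1) b0
    have h2 := lim2 (fun _ => 1) b0
    simp only [one_mul] at h1 h2
    refine ((h1.const_add 1).add h2).congr fun n => ?_
    rw [hA]
  have hBlim : Tendsto (fun n => B (φ n)) atTop (𝓝 (TB q u' v')) := by
    refine ((lim1 (fun j => (j : ℂ) + 1) b1).sub (lim2 (fun j => (j : ℂ) + 1) b1)).congr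
      fun n => ?_
    rw [hB]
  have hClim : Tendsto (fun n => C (φ n)) atTop (𝓝 (TC q u' v')) := by
    refine ((lim1 (fun j => ((j : ℂ) + 1) ^ 2) b2).add
      (lim2 (fun j => ((j : ℂ) + 1) ^ 2) b2)).congr fun n => ?_
    rw [hC]
  have hwClim : Tendsto (fun n => (w (φ n) : ℂ)) atTop (𝓝 (w' : ℂ)) :=
    (Complex.continuous_ofReal.tendsto _).comp hwlim
  refine limit_case (lt_of_le_of_lt hqr' hr) huv' hu1' hv1' hw0' hw1' ?_ ?_ ?_
  · -- `w' ≠ 0` forces `q = 0`
    intro hw'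
    by_contra hq
    have h1 : Tendsto (fun n => ((k (φ n) : ℕ) : ℝ)) atTop atTop :=
      tendsto_natCast_atTop_atTop.comp (hkinf hq)
    have h2 : Tendsto (fun n => 1 / ((k (φ n) : ℕ) : ℝ)) atTop (𝓝 0) :=
      tendsto_const_nhds.div_atTop h1
    have h3 : Tendsto (fun n => w (φ n)) atTop (𝓝 0) := by
      refine squeeze_zero (fun n => (hw0 _).le) (fun n => ?_) h2
      rw [hw]
      have := hk1' (φ n)
      have := hm0 (φ n)
      gcongr
      linarith
    exact hw' (tendsto_nhds_unique hwlim h3)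
  · have h1 : Tendsto (fun n => -(w (φ n) * B (φ n))) atTop (𝓝 (-(w' * TB q u' v'))) :=
      (hwClim.mul hBlim).neg
    have h2 : Tendsto (fun n => A (φ n)) atTop (𝓝 (-(w' * TB q u' v'))) :=
      h1.congr fun n => (rel1 (φ n)).symm
    exact tendsto_nhds_unique hAlim h2
  · intro hTB
    have h1 : ∀ᶠ n in atTop, B (φ n) ≠ 0 := hBlim.eventually_ne hTB
    have h2 : Tendsto (fun n => -((w (φ n) : ℂ) * (C (φ n) / B (φ n))).re) atTop
        (𝓝 (-((w' : ℂ) * (TC q u' v' / TB q u' v')).re)) :=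
      ((Complex.continuous_re.tendsto _).comp (hwClim.mul (hClim.div hBlim hTB))).neg
    refine ge_of_tendsto h2 ?_
    filter_upwards [h1] with n hn
    exact rel2 (φ n) hn

end SokalBPlus
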