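import Pool.Agent.Lib_MP_af4de1_BPlus.Wind

/-!
# Distinct moduli of the large zeros, soft part, `0 < |q| ≤ 1`

As in `Soft.lean`; for `|q| < 1` the winding number of `z F(qz)/F(z)` on a circle is at most `1`
(`wind_mono`), which is all that is needed.
-/

namespace SokalBPlus

open Real Filter Topology SokalF SokalRay

/-- A function that can cross the levels `π + 2πk` only upwards and grows by at most `2π` per
period crosses them at most once per period. -/
theorem crossing_le {Y Y' : ℝ → ℝ} (hY : ∀ x, HasDerivAt Y (Y' x) x)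
    (hper : ∀ x, Y (x + 2 * π) ≤ Y x + 2 * π)
    (hpos : ∀ x, (∃ k : ℤ, Y x = π + k * (2 * π)) → 0 < Y' x) {a b : ℝ} (hab : a < b)
    (hba : b < a + 2 * π) (ha : ∃ k : ℤ, Y a = π + k * (2 * π))
    (hb : ∃ k : ℤ, Y b = π + k * (2 * π)) : False := by
  have hcont : Continuous Y := continuous_iff_continuousAt.2 fun x => (hY x).continuousAt
  have key : ∀ c d : ℝ, (∃ k : ℤ, Y c = π + k * (2 * π)) → c < d → Y c < Y d := by
    intro c d hc hcd
    have hge : ∀ x, c ≤ x → Y c ≤ Y x := by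
      intro x hx
      refine image_le_of_liminf_slope_right_lt_deriv_boundary' (f := fun _ => Y c)
        (f' := fun _ => 0) (a := c) (b := x) (B := Y) (B' := Y') continuousOn_const ?_ le_rfl
        hcont.continuousOn (fun y _ => (hY y).hasDerivWithinAt) ?_ (Set.right_mem_Icc.2 hx)
      · intro y _ r hr
        refine (Eventually.of_forall fun z => ?_).frequently
        simpa [slope_def_field] using hr
      · intro y _ hy
        refine hpos y ?_
        obtain ⟨k, hk⟩ := hc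
        exact ⟨k, hy.symm.trans hk⟩
    rcases (hge d hcd.le).lt_or_eq with h | h
    · exact h
    · exfalso
      have h1 : 0 < Y' d := by
        obtain ⟨k, hk⟩ := hc
        exact hpos d ⟨k, h.symm.trans hk⟩
      have h2 := (hY d).tendsto_slope
      have h3 : ∀ᶠ x in 𝓝[≠] d, 0 < slope Y d x := h2.eventually_const_lt h1
      have h4 : ∀ᶠ x in 𝓝[<] d, 0 < slope Y d x :=
        h3.filter_mono (nhdsWithin_mono _ fun x hx => ne_of_lt hx)
      have h5 : ∀ᶠ x in 𝓝[<] d, c < x :=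
        (eventually_nhdsWithin_of_eventually_nhds (lt_mem_nhds hcd))
      have h6 : ∀ᶠ x in 𝓝[<] d, x < d := eventually_mem_nhdsWithin
      obtain ⟨x, hx1, hx2, hx3⟩ := (h4.and (h5.and h6)).exists
      rw [slope_def_field] at hx1
      have h7 := hge x hx2.le
      rw [h] at h7
      have h8 : (Y x - Y d) / (x - d) ≤ 0 :=
        div_nonpos_of_nonneg_of_nonpos (by linarith) (by linarith)
      linarith
  have h1 := key a b ha hab
  have h2 := key b (a + 2 * π) hb hba
  have h20 := hper a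
  obtain ⟨k, hk⟩ := ha
  obtain ⟨l, hl⟩ := hb
  rw [hk, hl] at h1
  rw [hl] at h2
  rw [hk] at h20
  have hpi := pi_pos
  have h3 : (k : ℝ) < l := by nlinarith
  have h4 : (l : ℝ) < k + 1 := by nlinarith
  have h5 : k < l := by exact_mod_cast h3
  have h6 : l < k + 1 := by exact_mod_cast h4
  omega

/-- On a circle of radius `r` such that `G` vanishes neither there nor on the circle of radius
`|q| r` there is at most one point with `u G(q u) / G u < 0`, if the argument of this function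
increases at all such points. -/
theorem one_point_le {G : ℂ → ℂ} (hG : Differentiable ℂ G) (hG00 : G 0 ≠ 0) {q : ℂ} (hq0 : q ≠ 0)
    (hq1 : ‖q‖ ≤ 1) {r : ℝ} (hr : 0 < r)
    (hne : ∀ u : ℂ, ‖u‖ = r → G u ≠ 0) (hne' : ∀ u : ℂ, ‖u‖ = ‖q‖ * r → G u ≠ 0)
    (hpos : ∀ u : ℂ, ‖u‖ = r → (∃ s : ℝ, 0 < s ∧ G u + s * (u * G (q * u)) = 0) →
      0 < (1 + q * u * deriv G (q * u) / G (q * u) - u * deriv G u / G u).re)
    {u v : ℂ} (hu : ‖u‖ = r) (hv : ‖v‖ = r) (huv : u ≠ v)
    (hu' : ∃ s : ℝ, 0 < s ∧ G u + s * (u * G (q * u)) = 0)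
    (hv' : ∃ s : ℝ, 0 < s ∧ G v + s * (v * G (q * v)) = 0) : False := by
  set α := q.arg with hα
  have hqn : 0 < ‖q‖ := norm_pos_iff.2 hq0
  have hqr : 0 < ‖q‖ * r := by positivity
  have hqr1 : ‖q‖ * r ≤ r := mul_le_of_le_one_left hr.le hq1
  -- a parametrised circle and the logarithm of `G` along it
  have main : ∀ R : ℝ, 0 < R → (∀ u : ℂ, ‖u‖ = R → G u ≠ 0) → ∃ L m : ℝ → ℂ,
      (∀ θ, HasDerivAt L (m θ) θ) ∧
      (∀ θ : ℝ, G (R * Complex.exp (θ * Complex.I)) = G R * Complex.exp (L θ)) ∧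
      (∀ θ : ℝ, m θ = Complex.I * (R * Complex.exp (θ * Complex.I) *
        deriv G (R * Complex.exp (θ * Complex.I)) / G (R * Complex.exp (θ * Complex.I)))) ∧
      ∀ θ, L (θ + 2 * π) = L θ + ∮ z in C(0, R), deriv G z / G z := by
    intro R hR hneR
    set c : ℝ → ℂ := fun θ => R * Complex.exp (θ * Complex.I) with hc
    have hRc : (R : ℂ) ≠ 0 := by exact_mod_cast hR.ne'
    have hcn : ∀ θ, ‖c θ‖ = R := by
      intro θ
      simp only [hc]
      rw [norm_mul, Complex.norm_exp_ofReal_mul_I, mul_one, Complex.norm_real,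
        Real.norm_of_nonneg hR.le]
    have hcd : ∀ θ, HasDerivAt c (Complex.I * c θ) θ := by
      intro θ
      have h1 : HasDerivAt (fun x : ℝ => (x : ℂ) * Complex.I) Complex.I θ := by
        have := (Complex.ofRealCLM.hasDerivAt (x := θ)).mul_const Complex.I
        simpa using this
      have h2 := (h1.cexp).const_mul (R : ℂ)
      refine h2.congr_deriv ?_
      simp only [hc]
      ring
    have hcc : Continuous c := continuous_iff_continuousAt.2 fun x => (hcd x).continuousAt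
    have hc2π : ∀ θ, c (θ + 2 * π) = c θ := by
      intro θ
      simp only [hc]
      push_cast
      rw [add_mul, Complex.exp_add, Complex.exp_two_pi_mul_I, mul_one]
    have hdG : Continuous (deriv G) := hG.contDiff (n := 1) |>.continuous_deriv le_rfl
    set m : ℝ → ℂ := fun θ => Complex.I * (c θ * deriv G (c θ) / G (c θ)) with hm
    have hmc : Continuous m := by
      simp only [hm]
      refine continuous_const.mul (Continuous.div (hcc.mul (hdG.comp hcc)) (hG.continuous.comp hcc)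
        fun θ => hneR _ (hcn θ))
    have hmper : Function.Periodic m (2 * π) := by
      intro θ
      simp only [hm]
      rw [hc2π]
    set L : ℝ → ℂ := fun θ => ∫ x in (0 : ℝ)..θ, m x with hL
    have hLd : ∀ θ, HasDerivAt L (m θ) θ := fun θ =>
      intervalIntegral.integral_hasDerivAt_right (hmc.intervalIntegrable _ _)
        hmc.stronglyMeasurable.stronglyMeasurableAtFilter hmc.continuousAt
    have hGL : ∀ θ, G (c θ) = G (c 0) * Complex.exp (L θ) := by
      have h1 : ∀ θ, HasDerivAt (fun θ => G (c θ) * Complex.exp (-L θ)) 0 θ := by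
        intro θ
        have h2 : HasDerivAt (fun θ => G (c θ)) (deriv G (c θ) * (Complex.I * c θ)) θ :=
          (hG (c θ)).hasDerivAt.comp_of_eq θ (hcd θ) rfl
        have h3 := h2.mul ((hLd θ).neg.cexp)
        refine h3.congr_deriv ?_
        have h4 := hneR _ (hcn θ)
        simp only [hm]
        field_simp
        ring
      intro θ
      have h2 := is_const_of_deriv_eq_zero (fun θ => (h1 θ).differentiableAt)
        (fun θ => (h1 θ).deriv) θ 0
      have hL0 : L 0 = 0 := by simp [hL]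
      simp only [hL0, neg_zero, Complex.exp_zero, mul_one] at h2
      rw [← h2, mul_assoc, ← Complex.exp_add, neg_add_cancel, Complex.exp_zero, mul_one]
    have hc0 : c 0 = R := by simp [hc]
    have hL2 : L (2 * π) = ∮ z in C(0, R), deriv G z / G z := by
      rw [circleIntegral]
      simp only [hL]
      refine intervalIntegral.integral_congr fun θ _ => ?_
      simp only [hm, deriv_circleMap, smul_eq_mul, circleMap, zero_add, hc]
      ring
    have hLper : ∀ θ, L (θ + 2 * π) = L θ + L (2 * π) := by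
      intro θ
      have h1 := hmper.intervalIntegral_add_eq θ 0
      rw [zero_add] at h1
      have h2 : L (θ + 2 * π) = L θ + ∫ x in θ..(θ + 2 * π), m x := by
        simp only [hL]
        rw [intervalIntegral.integral_add_adjacent_intervals (hmc.intervalIntegrable _ _)
          (hmc.intervalIntegrable _ _)]
      rw [h2, h1]
    refine ⟨L, m, hLd, fun θ => ?_, fun θ => rfl, fun θ => ?_⟩
    · have := hGL θ
      rw [hc0] at this
      exact this
    · rw [hLper, hL2]
  obtain ⟨L, m, hLd, hGL, hmd, hLper⟩ := main r hr hne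
  obtain ⟨L', m', hLd', hGL', hmd', hLper'⟩ := main (‖q‖ * r) hqr hne'
  have hmono := wind_mono hG hG00 hqr hqr1 hne' hne
  set c : ℝ → ℂ := fun θ => r * Complex.exp (θ * Complex.I) with hc
  have hcn : ∀ θ, ‖c θ‖ = r := by
    intro θ
    simp only [hc]
    rw [norm_mul, Complex.norm_exp_ofReal_mul_I, mul_one, Complex.norm_real,
      Real.norm_of_nonneg hr.le]
  have hqc : ∀ θ : ℝ, ((‖q‖ * r : ℝ) : ℂ) * Complex.exp (((θ + α : ℝ) : ℂ) * Complex.I) = q * c θ := by
    intro θ
    have h1 := Complex.norm_mul_exp_arg_mul_I q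
    rw [← hα] at h1
    simp only [hc]
    conv_rhs => rw [← h1]
    push_cast
    rw [add_mul, Complex.exp_add]
    ring
  have hG1 : G r ≠ 0 := hne _ (by rw [Complex.norm_real, Real.norm_of_nonneg hr.le])
  have hG2 : G ((‖q‖ * r : ℝ) : ℂ) ≠ 0 := hne' _ (by rw [Complex.norm_real, Real.norm_of_nonneg hqr.le])
  obtain ⟨κ, hκ⟩ : ∃ κ : ℂ, Complex.exp κ = G ((‖q‖ * r : ℝ) : ℂ) / G r :=
    ⟨Complex.log _, Complex.exp_log (div_ne_zero hG2 hG1)⟩
  set Λ : ℝ → ℂ := fun θ => θ * Complex.I + L' (θ + α) - L θ + κ with hΛ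
  have hh : ∀ θ, c θ * G (q * c θ) = r * Complex.exp (Λ θ) * G (c θ) := by
    intro θ
    rw [← hqc, hGL' (θ + α)]
    have h1 : G (c θ) = G r * Complex.exp (L θ) := hGL θ
    rw [h1]
    simp only [hΛ]
    rw [Complex.exp_add, Complex.exp_sub, Complex.exp_add, hκ]
    have := Complex.exp_ne_zero (L θ)
    simp only [hc]
    field_simp
  have hΛd : ∀ θ, HasDerivAt Λ (Complex.I + m' (θ + α) - m θ) θ := by
    intro θ
    have h1 : HasDerivAt (fun x : ℝ => (x : ℂ) * Complex.I) Complex.I θ := by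
      have := (Complex.ofRealCLM.hasDerivAt (x := θ)).mul_const Complex.I
      simpa using this
    have h2 : HasDerivAt (fun x : ℝ => L' (x + α)) (m' (θ + α)) θ := (hLd' (θ + α)).comp_add_const θ α
    exact ((h1.add h2).sub (hLd θ)).add_const κ
  have hYd : ∀ θ, HasDerivAt (fun θ => (Λ θ).im) ((Complex.I + m' (θ + α) - m θ).im) θ := by
    intro θ
    have := (Complex.imCLM.hasFDerivAt (x := Λ θ)).comp_hasDerivAt θ (hΛd θ)
    exact this
  have hYper : ∀ θ, (Λ (θ + 2 * π)).im ≤ (Λ θ).im + 2 * π := by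
    intro θ
    have h1 : Λ (θ + 2 * π) = Λ θ + ((2 * π : ℝ) : ℂ) * Complex.I +
        ((∮ z in C(0, ‖q‖ * r), deriv G z / G z) - ∮ z in C(0, r), deriv G z / G z) := by
      simp only [hΛ]
      rw [show θ + 2 * π + α = (θ + α) + 2 * π by ring, hLper, hLper']
      push_cast
      ring
    rw [h1, Complex.add_im, Complex.add_im, Complex.im_ofReal_mul, Complex.I_im, mul_one,
      Complex.sub_im]
    linarith
  have hYm : ∀ θ, (Complex.I + m' (θ + α) - m θ).im =
      (1 + q * c θ * deriv G (q * c θ) / G (q * c θ) - c θ * deriv G (c θ) / G (c θ)).re := by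
    intro θ
    have h1 : Complex.I + m' (θ + α) - m θ = Complex.I *
        (1 + q * c θ * deriv G (q * c θ) / G (q * c θ) - c θ * deriv G (c θ) / G (c θ)) := by
      rw [hmd', hmd, hqc]
      simp only [hc]
      ring
    rw [h1, Complex.I_mul_im]
  have hiff1 : ∀ θ, (∃ k : ℤ, (Λ θ).im = π + k * (2 * π)) →
      ∃ s : ℝ, 0 < s ∧ G (c θ) + s * (c θ * G (q * c θ)) = 0 := by
    rintro θ ⟨k, hk⟩
    have h1 : Complex.exp (Λ θ) = -(Real.exp (Λ θ).re : ℂ) := by
      rw [Complex.exp_eq_exp_re_mul_sin_add_cos, hk, ← Complex.ofReal_cos, ← Complex.ofReal_sin,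
        Real.cos_add_int_mul_two_pi, Real.sin_add_int_mul_two_pi, Real.cos_pi, Real.sin_pi,
        ← Complex.ofReal_exp]
      push_cast
      ring
    have h2 : (Real.exp (Λ θ).re : ℂ) ≠ 0 := by exact_mod_cast (Real.exp_pos _).ne'
    have hrc : (r : ℂ) ≠ 0 := by exact_mod_cast hr.ne'
    refine ⟨1 / (r * Real.exp (Λ θ).re), by positivity, ?_⟩
    rw [hh, h1]
    push_cast
    push_cast at h2
    field_simp
    ring
  have hiff2 : ∀ θ, (∃ s : ℝ, 0 < s ∧ G (c θ) + s * (c θ * G (q * c θ)) = 0) →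
      ∃ k : ℤ, (Λ θ).im = π + k * (2 * π) := by
    rintro θ ⟨s, hs, h1⟩
    rw [hh] at h1
    have h2 := hne _ (hcn θ)
    have hsc : (s : ℂ) ≠ 0 := by exact_mod_cast hs.ne'
    have hrc : (r : ℂ) ≠ 0 := by exact_mod_cast hr.ne'
    have h3 : Complex.exp (Λ θ) = -(1 / (s * r) : ℂ) := by
      have h4 : G (c θ) * (1 + s * r * Complex.exp (Λ θ)) = 0 := by
        linear_combination h1
      have h5 := (mul_eq_zero.1 h4).resolve_left h2
      field_simp
      linear_combination h5
    have h6 : Complex.exp (Λ θ) = Complex.exp ((Real.log (1 / (s * r)) : ℝ) + π * Complex.I) := by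
      rw [h3, Complex.exp_add, Complex.exp_pi_mul_I, ← Complex.ofReal_exp,
        Real.exp_log (by positivity)]
      push_cast
      ring
    obtain ⟨n, hn⟩ := Complex.exp_eq_exp_iff_exists_int.1 h6
    refine ⟨n, ?_⟩
    rw [hn]
    simp
  have hYpos : ∀ θ, (∃ k : ℤ, (Λ θ).im = π + k * (2 * π)) →
      0 < (Complex.I + m' (θ + α) - m θ).im := by
    intro θ hθ
    rw [hYm]
    exact hpos _ (hcn θ) (hiff1 θ hθ)
  have hcarg : ∀ z : ℂ, ‖z‖ = r → c z.arg = z := by
    intro z hz
    simp only [hc]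
    rw [← hz]
    exact Complex.norm_mul_exp_arg_mul_I z
  have hu2 := hiff2 u.arg (by rw [hcarg u hu]; exact hu')
  have hv2 := hiff2 v.arg (by rw [hcarg v hv]; exact hv')
  have hne' : u.arg ≠ v.arg := by
    intro h
    apply huv
    rw [← hcarg u hu, ← hcarg v hv, h]
  have b1 := Complex.neg_pi_lt_arg u
  have b2 := Complex.arg_le_pi u
  have b3 := Complex.neg_pi_lt_arg v
  have b4 := Complex.arg_le_pi v
  rcases lt_or_gt_of_ne hne' with h | h
  · exact crossing_le hYd hYper hYpos h (by linarith) hu2 hv2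
  · exact crossing_le hYd hYper hYpos h (by linarith) hv2 hu2

theorem distinct_large_le {q : ℂ} (hq0 : q ≠ 0) (hq1 : ‖q‖ ≤ 1) {R : ℝ}
    (hs : ∀ w, R < ‖w‖ → F q w = 0 → F q (q * w) ≠ 0)
    (hm : ∀ u, R < ‖u‖ → F q u ≠ 0 → (∃ s : ℝ, 0 < s ∧ F q u + s * (u * F q (q * u)) = 0) →
      0 < (1 + q * u * F q (q * (q * u)) / F q (q * u) - u * F q (q * u) / F q u).re)
    {u v : ℂ} (hRu : R < ‖u‖) (hu : F q u = 0) (hv : F q v = 0) (huv : ‖u‖ = ‖v‖) : u = v := by
  have hG : Differentiable ℂ (F q) := differentiable_F hq1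
  have hG0 : F q 0 ≠ 0 := by rw [F_zero]; exact one_ne_zero
  have hqn : 0 < ‖q‖ := norm_pos_iff.2 hq0
  by_contra hne
  have hu0 : u ≠ 0 := by
    rintro rfl
    exact hG0 hu
  have hv0 : v ≠ 0 := by
    rintro rfl
    exact hG0 hv
  have hRv : R < ‖v‖ := by rw [← huv]; exact hRu
  have hp : ∀ w, w ≠ 0 → R < ‖w‖ → F q w = 0 →
      0 < inner ℝ (w * deriv (F q) w) (w * F q (q * w)) := by
    intro w hw0 hRw hw
    rw [deriv_F hq1, real_inner_self_eq_norm_sq]
    have : w * F q (q * w) ≠ 0 := mul_ne_zero hw0 (hs w hRw hw)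
    positivity
  set ε := ‖u - v‖ / 2 with hε
  have hε0 : 0 < ε := by
    have : 0 < ‖u - v‖ := norm_pos_iff.2 (sub_ne_zero.2 hne)
    positivity
  obtain ⟨δ1, hδ1, hc1⟩ := curve hG hu0 hu (hp u hu0 hRu hu) hε0
  obtain ⟨δ2, hδ2, hc2⟩ := curve hG hv0 hv (hp v hv0 hRv hv) hε0
  have hr : 0 < ‖u‖ := norm_pos_iff.2 hu0
  set δ := min (min (min δ1 δ2) ‖u‖) (‖u‖ - R) with hδ
  have hδ0 : 0 < δ := lt_min (lt_min (lt_min hδ1 hδ2) hr) (by linarith)
  have hfin := ((finite_zeros hG hG0 ‖u‖).image (fun z => ‖z‖)).union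
    ((finite_zeros hG hG0 ‖u‖).image (fun z => ‖z‖ / ‖q‖))
  have hinf : (Set.Ioo (‖u‖ - δ) ‖u‖).Infinite := Set.Ioo_infinite (by linarith)
  obtain ⟨r', hr', hr''⟩ := hinf.exists_notMem_finite hfin
  have d0 : δ ≤ ‖u‖ := (min_le_left _ _).trans (min_le_right _ _)
  have d1 : δ ≤ δ1 := (min_le_left _ _).trans ((min_le_left _ _).trans (min_le_left _ _))
  have d2 : δ ≤ δ2 := (min_le_left _ _).trans ((min_le_left _ _).trans (min_le_right _ _))
  have d3 : δ ≤ ‖u‖ - R := min_le_right _ _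
  have hr'0 : 0 < r' := by linarith [hr'.1]
  have hRr' : R < r' := by linarith [hr'.1]
  obtain ⟨x, hx1, hx2, hx3⟩ := hc1 r' (by linarith [hr'.1]) hr'.2
  obtain ⟨y, hy1, hy2, hy3⟩ := hc2 r' (by rw [← huv]; linarith [hr'.1]) (by rw [← huv]; exact hr'.2)
  have hxy : x ≠ y := by
    rintro rfl
    have h1 : ‖u - v‖ ≤ ‖x - u‖ + ‖x - v‖ := by
      have := norm_sub_le (x - v) (x - u)
      rw [show x - v - (x - u) = u - v by ring] at this
      linarith
    linarith
  have hcirc : ∀ z : ℂ, ‖z‖ = r' → F q z ≠ 0 := by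
    intro z hz hz0
    exact hr'' (Or.inl ⟨z, ⟨by rw [hz]; exact hr'.2.le, hz0⟩, hz⟩)
  have hcirc' : ∀ z : ℂ, ‖z‖ = ‖q‖ * r' → F q z ≠ 0 := by
    intro z hz hz0
    refine hr'' (Or.inr ⟨z, ⟨?_, hz0⟩, ?_⟩)
    · rw [hz]
      have : ‖q‖ * r' ≤ r' := mul_le_of_le_one_left hr'0.le hq1
      linarith [hr'.2]
    · simp only [hz]
      field_simp
  refine one_point_le hG hG0 hq0 hq1 hr'0 hcirc hcirc' ?_ hx2 hy2 hxy hx3 hy3
  rintro z hz hz'
  rw [deriv_F hq1, deriv_F hq1]
  exact hm z (by rw [hz]; exact hRr') (hcirc z hz) hz'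

end SokalBPlus
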