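import Pool.Agent.Lib_MP_af4de1_u.Main
import Pool.Agent.Lib_MP_af4de1_BPlus.BigN
import Pool.Agent.Lib_MP_af4de1_BPlus.RootU
import Pool.Agent.Lib_MP_af4de1_BPlus.Soft2
import Pool.Agent.Lib_MP_af4de1_BPlus.Small

/-!
# Large zeros of `F(.;q)` near and on the unit circle: simple with distinct moduli
-/

namespace SokalBPlus

open Complex SokalU

/-- `bigN` without the condition on `V`. -/
theorem bigN' : ∃ N0 : ℕ, 0 < N0 ∧ ∀ (q z t : ℂ) (k β m : ℝ) (N : ℕ) (a : ℤ),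
    N0 ≤ N → IsCoprime a (N : ℤ) → 0 ≤ t.re → 0 < k →
    (N : ℝ) ^ 2 * V k t ≤ 4 * Real.pi → q = cexp (2 * Real.pi * I * a / N) * cexp (-t) →
    z = zp t k * cexp (β * I) → 0 < m →
    z * SokalF.F q (q * z) + m * SokalF.F q z = 0 →
    ((z * SokalF.F q (q * z) + z * (q * z * SokalF.F q (q * (q * z))) - m ^ 2 * SokalF.F q z) /
      SokalF.F q z).re < 0 := by
  obtain ⟨N0, hN0, V0, hV0, H⟩ := bigN
  obtain ⟨N1, hN1⟩ := exists_nat_gt (4 * Real.pi / V0)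
  refine ⟨max N0 (N1 + 1), by omega, fun q z t k β m N a hN hco ht hk hNV hq hz hm hG => ?_⟩
  have h0 : N0 ≤ N := (le_max_left _ _).trans hN
  have h1 : N1 + 1 ≤ N := (le_max_right _ _).trans hN
  have h1' : (N1 : ℝ) + 1 ≤ N := by exact_mod_cast h1
  have hN1r : (1 : ℝ) ≤ N := by
    have : (0 : ℝ) ≤ N1 := Nat.cast_nonneg _
    linarith
  have hVp := V_pos hk ht
  have h2 : V k t ≤ V0 := by
    have h3 : 4 * Real.pi < N1 * V0 := by rwa [div_lt_iff₀ hV0] at hN1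
    have h4 : (N : ℝ) * V k t ≤ (N : ℝ) ^ 2 * V k t := by
      have : (N : ℝ) ≤ (N : ℝ) ^ 2 := by nlinarith
      gcongr
    have h5 : (N : ℝ) * V k t ≤ N * V0 := by
      have : (N1 : ℝ) * V0 ≤ N * V0 := by
        gcongr
        linarith
      linarith
    exact le_of_mul_le_mul_left h5 (by linarith)
  exact H q z t k β m N a h0 hco ht hk h2 hNV hq hz hm hG

/-- The sign condition near and on the circle, away from the roots of unity of order `< N0`. -/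
theorem signA : ∃ N0 : ℕ, 0 < N0 ∧ ∀ ε : ℝ, 0 < ε → ∃ r : ℝ, r < 1 ∧ ∃ R : ℝ,
    ∀ (q z : ℂ) (m : ℝ), r ≤ ‖q‖ → 0 < ‖q‖ → ‖q‖ ≤ 1 → R ≤ ‖z‖ →
    (∀ (n : ℕ) (ξ : ℂ), 0 < n → n < N0 → ξ ^ n = 1 → ε ≤ ‖q - ξ‖) →
    0 < m → z * SokalF.F q (q * z) + m * SokalF.F q z = 0 →
    ((z * SokalF.F q (q * z) + z * (q * z * SokalF.F q (q * (q * z))) - m ^ 2 * SokalF.F q z) /
      SokalF.F q z).re < 0 := by
  obtain ⟨N0, hN0, H⟩ := bigN'
  refine ⟨N0, hN0, fun ε hε => ?_⟩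
  obtain ⟨δ, hδ, hδ1, hδε⟩ : ∃ δ : ℝ, 0 < δ ∧ δ ≤ 1 / 16 ∧ 8 * δ < ε := by
    refine ⟨min (1 / 16) (ε / 16), by positivity, min_le_left _ _, ?_⟩
    have := min_le_right (1 / 16) (ε / 16)
    linarith
  refine ⟨Real.exp (-(δ ^ 2 / 2)), Real.exp_lt_one_iff.2 (by nlinarith [sq_nonneg δ, pow_pos hδ 2]),
    2 / δ ^ 2 * Real.exp (2 / δ ^ 2) + 1, ?_⟩
  intro q z m hqr hq0 hq1 hz hroot hm hG
  have hqne : q ≠ 0 := norm_pos_iff.1 hq0
  set τ : ℝ := -Real.log ‖q‖ with hτdef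
  have hτ0 : 0 ≤ τ := by
    rw [hτdef]
    have := Real.log_nonpos hq0.le hq1
    linarith
  have hτ1 : τ ≤ δ ^ 2 / 2 := by
    rw [hτdef]
    have := Real.log_le_log (Real.exp_pos _) hqr
    rw [Real.log_exp] at this
    linarith
  have hδ2 : δ ^ 2 ≤ 1 := by nlinarith
  have hK : 0 < 2 / δ ^ 2 := by positivity
  have hzpos : 0 < ‖z‖ := by
    have : 0 < 2 / δ ^ 2 * Real.exp (2 / δ ^ 2) := by positivity
    linarith
  obtain ⟨k, hk, hkz⟩ := exists_k hτ0 hzpos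
  have hkK : 2 / δ ^ 2 < k := k_large hτ0 (by linarith) hK hk hkz (by linarith)
  have hs0 : 0 < 1 / k + τ := by positivity
  have hs1 : 1 / k + τ ≤ δ ^ 2 := by
    have : 1 / k ≤ δ ^ 2 / 2 := by
      rw [div_lt_iff₀ (by positivity)] at hkK
      rw [div_le_iff₀ hk]
      linarith
    linarith
  set σ : ℝ := 1 / √(1 / k + τ) with hσdef
  have hsq : 0 < √(1 / k + τ) := Real.sqrt_pos.2 hs0
  have hσ0 : 0 < σ := by positivity
  have hσ : 1 / σ ^ 2 = 1 / k + τ := by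
    rw [hσdef, div_pow, one_pow, one_div_one_div, Real.sq_sqrt hs0.le]
  have hsqδ : √(1 / k + τ) ≤ δ := by
    rw [Real.sqrt_le_left hδ.le]
    exact hs1
  have hσδ : 1 ≤ δ * σ := by
    rw [hσdef, mul_one_div, le_div_iff₀ hsq]
    linarith
  have hpi := Real.pi_gt_three
  have h2pi : 1 ≤ √(2 * Real.pi) := by
    rw [Real.one_le_sqrt]; linarith
  have h2pi' : √(2 * Real.pi) ≤ 3 := by
    rw [Real.sqrt_le_left (by norm_num)]
    have := Real.pi_lt_d2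
    linarith
  have hσ1 : 1 ≤ √(2 * Real.pi) * σ := by nlinarith
  obtain ⟨N, a, t, β, hN, ha, htre, hq, hzz, hNV, him⟩ :=
    params q z hqne hq1 k σ hk hkz hσ0 hσ hσ1
  have htre0 : 0 ≤ t.re := by rw [htre]; exact hτ0
  rcases le_or_gt N0 N with hle | hlt
  · exact H q z t k β m N a hle ha htre0 hk hNV hq hzz hm hG
  · exfalso
    have h1 := hroot N (cexp (2 * Real.pi * I * a / N)) hN hlt (omega_pow hN a)
    have h2 : |t.im| ≤ 3 * δ := by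
      have h3 : |t.im| * σ ≤ (3 * δ) * σ := by nlinarith
      exact le_of_mul_le_mul_right h3 hσ0
    have h3 : ‖t‖ ≤ 4 * δ := by
      have := Complex.norm_le_abs_re_add_abs_im t
      rw [abs_of_nonneg htre0, htre] at this
      nlinarith
    have h4 : ‖q - cexp (2 * Real.pi * I * a / N)‖ ≤ 8 * δ := by
      have : q - cexp (2 * Real.pi * I * a / N) =
        cexp (2 * Real.pi * I * a / N) * (cexp (-t) - 1) := by rw [hq]; ring
      rw [this, norm_mul, norm_omega, one_mul]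
      have := norm_exp_neg_sub_one_le (t := t) (by linarith)
      linarith
    linarith

/-- All zeros of modulus `> R` are simple and have pairwise distinct moduli. -/
def SimpleDistinct (q : ℂ) (R : ℝ) : Prop :=
  ∀ u : ℂ, R < ‖u‖ → SokalF.F q u = 0 → SokalF.F q (q * u) ≠ 0 ∧
    ∀ v : ℂ, SokalF.F q v = 0 → ‖v‖ = ‖u‖ → v = u

theorem simpleDistinct_of_sign {q : ℂ} (hq0 : q ≠ 0) (hq1 : ‖q‖ ≤ 1) {R : ℝ} (hR : 0 ≤ R)
    (H : ∀ (z : ℂ) (m : ℝ), R < ‖z‖ → 0 < m → z * SokalF.F q (q * z) + m * SokalF.F q z = 0 →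
      ((z * SokalF.F q (q * z) + z * (q * z * SokalF.F q (q * (q * z))) -
        m ^ 2 * SokalF.F q z) / SokalF.F q z).re < 0) : SimpleDistinct q R := by
  have hs : ∀ w, R < ‖w‖ → SokalF.F q w = 0 → SokalF.F q (q * w) ≠ 0 := by
    intro w hw h1 h2
    have h3 := H w 1 hw one_pos (by rw [h1, h2]; ring)
    rw [h1, div_zero, Complex.zero_re] at h3
    exact lt_irrefl _ h3
  have hm : ∀ u, R < ‖u‖ → SokalF.F q u ≠ 0 →
      (∃ s : ℝ, 0 < s ∧ SokalF.F q u + s * (u * SokalF.F q (q * u)) = 0) →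
      0 < (1 + q * u * SokalF.F q (q * (q * u)) / SokalF.F q (q * u) -
        u * SokalF.F q (q * u) / SokalF.F q u).re := by
    rintro u hu hF ⟨s, hs0, he⟩
    have hsC : (s : ℂ) ≠ 0 := by exact_mod_cast hs0.ne'
    have hu0 : u ≠ 0 := by
      rintro rfl
      rw [norm_zero] at hu
      linarith
    have h1 : u * SokalF.F q (q * u) + ((1 / s : ℝ) : ℂ) * SokalF.F q u = 0 := by
      generalize SokalF.F q (q * u) = B at he ⊢
      generalize SokalF.F q u = A at he ⊢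
      push_cast
      field_simp
      linear_combination he
    have h2 := H u (1 / s) hu (by positivity) h1
    have hFq : SokalF.F q (q * u) ≠ 0 := by
      intro h5
      rw [h5, mul_zero, mul_zero, add_zero] at he
      exact hF he
    generalize SokalF.F q (q * (q * u)) = C at h2 ⊢
    generalize SokalF.F q (q * u) = B at he h1 h2 hFq ⊢
    generalize SokalF.F q u = A at he h1 h2 hF ⊢
    have h6 : (1 + q * u * C / B - u * B / A) =
        -((s : ℂ) * ((u * B + u * (q * u * C) - ((1 / s : ℝ) : ℂ) ^ 2 * A) / A)) := by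
      have h7 : A = -(s * (u * B)) := by linear_combination he
      rw [h7]
      push_cast
      field_simp
    rw [h6, Complex.neg_re, Complex.re_ofReal_mul]
    have h8 := mul_neg_of_pos_of_neg hs0 h2
    linarith
  intro u hu h1
  exact ⟨hs u hu h1, fun v hv huv => (distinct_large_le hq0 hq1 hs hm hu h1 hv huv.symm).symm⟩

theorem signRoot (q : ℂ) (hq : ∃ n : ℕ, 0 < n ∧ q ^ n = 1) : ∃ R : ℝ, SimpleDistinct q R := by
  obtain ⟨R, hR⟩ := rootUnity_pos q hq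
  obtain ⟨n, hn, hqn⟩ := hq
  have hq1 : ‖q‖ = 1 := by
    have h1 : ‖q‖ ^ n = 1 := by rw [← norm_pow, hqn, norm_one]
    exact (pow_eq_one_iff_of_nonneg (norm_nonneg _) hn.ne').1 h1
  have hq0 : q ≠ 0 := by
    rintro rfl
    rw [norm_zero] at hq1
    exact zero_ne_one hq1
  exact ⟨max R 0, simpleDistinct_of_sign hq0 hq1.le (le_max_right _ _)
    fun z m hz hm hG => hR z m ((le_max_left _ _).trans_lt hz) hm hG⟩

theorem SimpleDistinct.mono {q : ℂ} {R R' : ℝ} (h : SimpleDistinct q R) (hR : R ≤ R') :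
    SimpleDistinct q R' := fun u hu hF => h u (hR.trans_lt hu) hF

/-- Uniform version near and on the circle. -/
theorem bplus_near : ∃ Ω : Set ℂ, Ω.Finite ∧ (∀ ξ ∈ Ω, ∃ n : ℕ, 0 < n ∧ ξ ^ n = 1) ∧
    ∀ ε : ℝ, 0 < ε → ∃ r : ℝ, r < 1 ∧ ∃ R : ℝ, ∀ q : ℂ, r ≤ ‖q‖ → 0 < ‖q‖ → ‖q‖ ≤ 1 →
      (∀ ξ ∈ Ω, q = ξ ∨ ε ≤ ‖q - ξ‖) → SimpleDistinct q R := by
  obtain ⟨N0, hN0, hA⟩ := signA
  have hfin : {ξ : ℂ | ∃ n : ℕ, 0 < n ∧ n < N0 ∧ ξ ^ n = 1}.Finite := by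
    have : {ξ : ℂ | ∃ n : ℕ, 0 < n ∧ n < N0 ∧ ξ ^ n = 1} ⊆
        ⋃ n ∈ Finset.Ioo 0 N0, ((Polynomial.nthRootsFinset n (1 : ℂ) : Finset ℂ) : Set ℂ) := by
      rintro ξ ⟨n, h1, h2, h3⟩
      refine Set.mem_biUnion (x := n) (by simpa using ⟨h1, h2⟩) ?_
      simpa [Polynomial.mem_nthRootsFinset h1] using h3
    refine Set.Finite.subset ?_ this
    exact Set.Finite.biUnion (Finset.finite_toSet _) (fun n _ => Finset.finite_toSet _)
  set Ω : Set ℂ := {ξ : ℂ | ∃ n : ℕ, 0 < n ∧ n < N0 ∧ ξ ^ n = 1} with hΩ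
  have hroot : ∀ ξ ∈ Ω, ∃ n : ℕ, 0 < n ∧ ξ ^ n = 1 := by
    rintro ξ ⟨n, h1, _, h2⟩
    exact ⟨n, h1, h2⟩
  -- a common radius for the elements of `Ω`
  obtain ⟨R0, hR0⟩ : ∃ R0 : ℝ, ∀ ξ ∈ Ω, SimpleDistinct ξ R0 := by
    have h1 : ∀ ξ : ℂ, ∃ R : ℝ, ξ ∈ Ω → SimpleDistinct ξ R := by
      intro ξ
      by_cases h : ξ ∈ Ω
      · obtain ⟨R, hR⟩ := signRoot ξ (hroot ξ h)
        exact ⟨R, fun _ => hR⟩
      · exact ⟨0, fun h' => absurd h' h⟩
    choose Rf hRf using h1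
    obtain ⟨B, hB⟩ := (hfin.image Rf).bddAbove
    exact ⟨B, fun ξ hξ => (hRf ξ hξ).mono (hB (Set.mem_image_of_mem Rf hξ))⟩
  refine ⟨Ω, hfin, hroot, fun ε hε => ?_⟩
  obtain ⟨r, hr, R1, hR1⟩ := hA ε hε
  refine ⟨r, hr, max R0 (max R1 0), fun q hqr hq0 hq1 hfar => ?_⟩
  by_cases hqΩ : q ∈ Ω
  · exact (hR0 q hqΩ).mono (le_max_left _ _)
  · have h1 : ∀ (n : ℕ) (ξ : ℂ), 0 < n → n < N0 → ξ ^ n = 1 → ε ≤ ‖q - ξ‖ := by
      intro n ξ hn hn' hξ
      rcases hfar ξ ⟨n, hn, hn', hξ⟩ with h2 | h2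
      · exact absurd ⟨n, hn, hn', h2 ▸ hξ⟩ hqΩ
      · exact h2
    have h2 := simpleDistinct_of_sign (R := max R1 0) (norm_pos_iff.1 hq0) hq1 (le_max_right _ _)
      fun z m hz hm hG => hR1 q z m hqr hq0 hq1 ((le_max_left _ _).trans hz.le) h1 hm hG
    exact h2.mono (le_max_right _ _)

/-- The uniform version on the whole closed disc. -/
theorem bplus : ∃ Ω : Set ℂ, Ω.Finite ∧ (∀ ξ ∈ Ω, ∃ n : ℕ, 0 < n ∧ ξ ^ n = 1) ∧
    ∀ ε : ℝ, 0 < ε → ∃ R : ℝ, ∀ q : ℂ, 0 < ‖q‖ → ‖q‖ ≤ 1 →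
      (∀ ξ ∈ Ω, q = ξ ∨ ε ≤ ‖q - ξ‖) → SimpleDistinct q R := by
  obtain ⟨Ω, h1, h2, h3⟩ := bplus_near
  refine ⟨Ω, h1, h2, fun ε hε => ?_⟩
  obtain ⟨r, hr, R1, hR1⟩ := h3 ε hε
  obtain ⟨R2, hR2⟩ := sign_small hr
  refine ⟨max R1 (max R2 0), fun q hq0 hq1 hfar => ?_⟩
  rcases le_or_gt r ‖q‖ with h | h
  · exact (hR1 q h hq0 hq1 hfar).mono (le_max_left _ _)
  · have h4 := simpleDistinct_of_sign (R := max R2 0) (norm_pos_iff.1 hq0) hq1 (le_max_right _ _)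
      fun z m hz hm hG => hR2 q z m hq0 h.le ((le_max_left _ _).trans_lt hz) hm hG
    exact h4.mono (le_max_right _ _)

/-- For a single `q` in the closed disc. -/
theorem bplus_single (q : ℂ) (hq0 : 0 < ‖q‖) (hq1 : ‖q‖ ≤ 1) : ∃ R : ℝ, SimpleDistinct q R := by
  obtain ⟨Ω, h1, -, h3⟩ := bplus
  -- the distance to the elements of `Ω` different from `q`
  obtain ⟨ε, hε, hε'⟩ : ∃ ε : ℝ, 0 < ε ∧ ∀ ξ ∈ Ω, q = ξ ∨ ε ≤ ‖q - ξ‖ := by
    have hfin : (Ω \ {q}).Finite := h1.subset Set.sdiff_subset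
    have hq : q ∈ (Ω \ {q})ᶜ := fun h => h.2 rfl
    obtain ⟨ε, hε, hball⟩ := Metric.isOpen_iff.1 hfin.isClosed.isOpen_compl q hq
    refine ⟨ε, hε, fun ξ hξ => ?_⟩
    by_cases h : q = ξ
    · exact Or.inl h
    · refine Or.inr ?_
      by_contra hlt
      push Not at hlt
      have : ξ ∈ Metric.ball q ε := by
        rw [Metric.mem_ball, dist_comm, dist_eq_norm]; exact hlt
      exact hball this ⟨hξ, fun h' => h (by rw [Set.mem_singleton_iff] at h'; exact h'.symm)⟩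
  obtain ⟨R, hR⟩ := h3 ε hε
  exact ⟨R, hR q hq0 hq1 hε'⟩

end SokalBPlus
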