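import Pool.Agent.Lib_MP_af4de1_Ray.Moduli

/-!
# Distinct moduli of the large zeros, soft part

If `Re (1 + M(qz) - M(z)) > 0` at all large `z` with `M(z) = z F(qz) / F(z) < 0` and all large zeros
are simple, then the large zeros of `F(.;q)`, `|q| = 1`, have pairwise distinct moduli.
-/

namespace SokalBPlus

open Real Filter Topology SokalF SokalRay

theorem distinct_large {q : ℂ} (hq : ‖q‖ = 1) {R : ℝ}
    (hs : ∀ w, R < ‖w‖ → F q w = 0 → F q (q * w) ≠ 0)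
    (hm : ∀ u, R < ‖u‖ → F q u ≠ 0 → (∃ s : ℝ, 0 < s ∧ F q u + s * (u * F q (q * u)) = 0) →
      0 < (1 + q * u * F q (q * (q * u)) / F q (q * u) - u * F q (q * u) / F q u).re)
    {u v : ℂ} (hRu : R < ‖u‖) (hu : F q u = 0) (hv : F q v = 0) (huv : ‖u‖ = ‖v‖) : u = v := by
  have hq1 : ‖q‖ ≤ 1 := hq.le
  have hG : Differentiable ℂ (F q) := differentiable_F hq1
  have hG0 : F q 0 ≠ 0 := by rw [F_zero]; exact one_ne_zero
  by_contra hne
  have hu0 : u ≠ 0 := by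
    rintro rfl
    exact hG0 hu
  have hv0 : v ≠ 0 := by
    rintro rfl
    exact hG0 hv
  have hRv : R < ‖v‖ := by rw [← huv]; exact hRu
  have hp : ∀ w, w ≠ 0 → R < ‖w‖ → F q w = 0 →
      0 < inner ℝ (w * deriv (F q) w) (w * F q (q * w)) := by
    intro w hw0 hRw hw
    rw [deriv_F hq1, real_inner_self_eq_norm_sq]
    have : w * F q (q * w) ≠ 0 := mul_ne_zero hw0 (hs w hRw hw)
    positivity
  set ε := ‖u - v‖ / 2 with hε
  have hε0 : 0 < ε := by
    have : 0 < ‖u - v‖ := norm_pos_iff.2 (sub_ne_zero.2 hne)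
    positivity
  obtain ⟨δ1, hδ1, hc1⟩ := curve hG hu0 hu (hp u hu0 hRu hu) hε0
  obtain ⟨δ2, hδ2, hc2⟩ := curve hG hv0 hv (hp v hv0 hRv hv) hε0
  have hr : 0 < ‖u‖ := norm_pos_iff.2 hu0
  set δ := min (min (min δ1 δ2) ‖u‖) (‖u‖ - R) with hδ
  have hδ0 : 0 < δ := lt_min (lt_min (lt_min hδ1 hδ2) hr) (by linarith)
  have hfin := (finite_zeros hG hG0 ‖u‖).image (fun z => ‖z‖)
  have hinf : (Set.Ioo (‖u‖ - δ) ‖u‖).Infinite := Set.Ioo_infinite (by linarith)
  obtain ⟨r', hr', hr''⟩ := hinf.exists_notMem_finite hfin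
  have d0 : δ ≤ ‖u‖ := (min_le_left _ _).trans (min_le_right _ _)
  have d1 : δ ≤ δ1 := (min_le_left _ _).trans ((min_le_left _ _).trans (min_le_left _ _))
  have d2 : δ ≤ δ2 := (min_le_left _ _).trans ((min_le_left _ _).trans (min_le_right _ _))
  have d3 : δ ≤ ‖u‖ - R := min_le_right _ _
  have hr'0 : 0 < r' := by linarith [hr'.1]
  have hRr' : R < r' := by linarith [hr'.1]
  obtain ⟨x, hx1, hx2, hx3⟩ := hc1 r' (by linarith [hr'.1]) hr'.2
  obtain ⟨y, hy1, hy2, hy3⟩ := hc2 r' (by rw [← huv]; linarith [hr'.1]) (by rw [← huv]; exact hr'.2)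
  have hxy : x ≠ y := by
    rintro rfl
    have h1 : ‖u - v‖ ≤ ‖x - u‖ + ‖x - v‖ := by
      have := norm_sub_le (x - v) (x - u)
      rw [show x - v - (x - u) = u - v by ring] at this
      linarith
    linarith
  have hcirc : ∀ z : ℂ, ‖z‖ = r' → F q z ≠ 0 := by
    intro z hz hz0
    exact hr'' ⟨z, ⟨by rw [hz]; exact hr'.2.le, hz0⟩, hz⟩
  have hqarg : Complex.exp ((q.arg : ℂ) * Complex.I) = q := by
    have := Complex.norm_mul_exp_arg_mul_I q
    rwa [hq, Complex.ofReal_one, one_mul] at this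
  refine one_point hG q.arg hr'0 hcirc ?_ hx2 hy2 hxy ?_ ?_
  · rintro z hz hz'
    rw [hqarg] at hz' ⊢
    rw [deriv_F hq1, deriv_F hq1]
    exact hm z (by rw [hz]; exact hRr') (hcirc z hz) hz'
  · rw [hqarg]
    exact hx3
  · rw [hqarg]
    exact hy3

end SokalBPlus
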