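import Pool.Agent.Lib_MP_af4de1_Ray.Moduli

/-!
# The number of zeros in a disc increases with the radius

`(∮ G'/G).im` on the circles of radius `ρ ≤ r` about `0` on which `G` does not vanish.
-/

namespace SokalBPlus

open Real Filter Topology SokalRay Complex

private theorem circle_inv_in {a : ℂ} {R : ℝ} (h : ‖a‖ < R) :
    (∮ z in C(0, R), (z - a)⁻¹) = 2 * π * I := by
  refine circleIntegral.integral_sub_inv_of_mem_ball ?_
  rw [Metric.mem_ball, dist_zero_right]
  exact h

private theorem circle_inv_out {a : ℂ} {R : ℝ} (hR : 0 ≤ R) (h : R < ‖a‖) :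
    (∮ z in C(0, R), (z - a)⁻¹) = 0 := by
  have h0 : ∀ z ∈ Metric.closedBall (0 : ℂ) R, z - a ≠ 0 := by
    intro z hz hza
    rw [mem_closedBall_zero_iff] at hz
    rw [sub_eq_zero] at hza
    rw [hza] at hz
    linarith
  refine Complex.circleIntegral_eq_zero_of_differentiable_on_off_countable hR Set.countable_empty ?_ ?_
  · exact ContinuousOn.inv₀ (by fun_prop) h0
  · intro z hz
    refine DifferentiableAt.inv (by fun_prop) (h0 z ?_)
    exact Metric.ball_subset_closedBall hz.1

/-- `∮ G'/G` splits off a zero. -/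
private theorem split {G H : ℂ → ℂ} (hH : Differentiable ℂ H) {a : ℂ}
    (hGH : ∀ z, G z = (z - a) * H z) {R : ℝ} (hR : 0 < R) (hne : ∀ u : ℂ, ‖u‖ = R → G u ≠ 0) :
    (∮ z in C(0, R), deriv G z / G z) =
      (∮ z in C(0, R), (z - a)⁻¹) + ∮ z in C(0, R), deriv H z / H z := by
  have h1 : ∀ u : ℂ, ‖u‖ = R → u - a ≠ 0 := fun u hu h => hne u hu (by rw [hGH, h, zero_mul])
  have h2 : ∀ u : ℂ, ‖u‖ = R → H u ≠ 0 := fun u hu h => hne u hu (by rw [hGH, h, mul_zero])
  have hdH : Continuous (deriv H) := hH.contDiff (n := 1) |>.continuous_deriv le_rfl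
  have hsph : ∀ u ∈ Metric.sphere (0 : ℂ) R, ‖u‖ = R := fun u hu => by
    rwa [mem_sphere_zero_iff_norm] at hu
  rw [← circleIntegral.integral_add]
  · refine circleIntegral.integral_congr hR.le fun z hz => ?_
    have hz' := hsph z hz
    have hG : deriv G z = H z + (z - a) * deriv H z := by
      have h3 : HasDerivAt (fun z => (z - a) * H z) (1 * H z + (z - a) * deriv H z) z :=
        ((hasDerivAt_id z).sub_const a).mul (hH z).hasDerivAt
      have h4 : G = fun z => (z - a) * H z := funext hGH
      rw [h4, h3.deriv, one_mul]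
    have e1 := h1 z hz'
    have e2 := h2 z hz'
    simp only [hG, hGH]
    field_simp
  · refine ContinuousOn.circleIntegrable hR.le ?_
    exact ContinuousOn.inv₀ (by fun_prop) fun z hz => h1 z (hsph z hz)
  · refine ContinuousOn.circleIntegrable hR.le ?_
    exact hdH.continuousOn.div hH.continuous.continuousOn fun z hz => h2 z (hsph z hz)

private theorem zero_case {G : ℂ → ℂ} (hG : Differentiable ℂ G) {R : ℝ} (hR : 0 ≤ R)
    (hne : ∀ u : ℂ, ‖u‖ ≤ R → G u ≠ 0) : (∮ z in C(0, R), deriv G z / G z) = 0 := by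
  have hdG : Differentiable ℂ (deriv G) := by
    intro z
    exact (hG.analyticAt z).deriv.differentiableAt
  refine Complex.circleIntegral_eq_zero_of_differentiable_on_off_countable hR Set.countable_empty ?_ ?_
  · exact hdG.continuous.continuousOn.div hG.continuous.continuousOn fun z hz =>
      hne z (mem_closedBall_zero_iff.1 hz)
  · intro z hz
    exact (hdG z).div (hG z) (hne z (mem_closedBall_zero_iff.1 (Metric.ball_subset_closedBall hz.1)))

/-- Total multiplicity of the zeros in a finite set. -/
private noncomputable def tot (G : ℂ → ℂ) (Z : Finset ℂ) : ℕ := ∑ a ∈ Z, analyticOrderNatAt G a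

private theorem order_ne_top {G : ℂ → ℂ} (hG : Differentiable ℂ G) (hG0 : G 0 ≠ 0) (a : ℂ) :
    analyticOrderAt G a ≠ ⊤ := by
  intro h
  rw [analyticOrderAt_eq_top] at h
  have h1 : Set.EqOn G 0 Set.univ :=
    AnalyticOnNhd.eqOn_zero_of_preconnected_of_eventuallyEq_zero
      (fun z _ => hG.analyticAt z) isPreconnected_univ (Set.mem_univ a) h
  exact hG0 (h1 (Set.mem_univ 0))

private theorem wind_aux (Z : Finset ℂ) {ρ r : ℝ} (hρ : 0 < ρ) (hρr : ρ ≤ r) (n : ℕ) :
    ∀ G : ℂ → ℂ, Differentiable ℂ G → G 0 ≠ 0 → (∀ u : ℂ, ‖u‖ = ρ → G u ≠ 0) →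
    (∀ u : ℂ, ‖u‖ = r → G u ≠ 0) → (∀ u : ℂ, ‖u‖ ≤ r → G u = 0 → u ∈ Z) → tot G Z = n →
    (∮ z in C(0, ρ), deriv G z / G z).im ≤ (∮ z in C(0, r), deriv G z / G z).im := by
  have hr : 0 < r := by linarith
  induction n with
  | zero =>
    intro G hG hG0 h1 h2 hZ htot
    have hno : ∀ u : ℂ, ‖u‖ ≤ r → G u ≠ 0 := by
      intro u hu h
      have h3 := hZ u hu h
      have h4 : analyticOrderNatAt G u = 0 := by
        unfold tot at htot
        exact (Finset.sum_eq_zero_iff.1 htot) u h3
      have h5 : analyticOrderAt G u ≠ 0 := analyticOrderAt_ne_zero.2 ⟨hG.analyticAt u, h⟩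
      have h6 := order_ne_top hG hG0 u
      unfold analyticOrderNatAt at h4
      rw [ENat.toNat_eq_zero] at h4
      rcases h4 with h4 | h4
      · exact h5 h4
      · exact h6 h4
    rw [zero_case hG hρ.le fun u hu => hno u (hu.trans hρr), zero_case hG hr.le hno]
  | succ n ih =>
    intro G hG hG0 h1 h2 hZ htot
    -- a zero in the disc, or else nothing to do
    by_cases hno : ∀ u : ℂ, ‖u‖ ≤ r → G u ≠ 0
    · rw [zero_case hG hρ.le fun u hu => hno u (hu.trans hρr), zero_case hG hr.le hno]
    · push Not at hno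
      obtain ⟨a, ha, hGa⟩ := hno
      have hGH : ∀ z, G z = (z - a) * dslope G a z := by
        intro z
        have := sub_smul_dslope G a z
        rw [hGa, sub_zero, smul_eq_mul] at this
        exact this.symm
      have hH : Differentiable ℂ (dslope G a) := by
        have := (Complex.differentiableOn_dslope (s := Set.univ) (f := G) (c := a) Filter.univ_mem).2
          hG.differentiableOn
        exact differentiableOn_univ.1 this
      have hH0 : dslope G a 0 ≠ 0 := by
        intro h
        rw [hGH 0, h, mul_zero] at hG0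
        exact hG0 rfl
      have haρ : ‖a‖ ≠ ρ := fun h => h1 a h hGa
      have har : ‖a‖ ≠ r := fun h => h2 a h hGa
      have har' : ‖a‖ < r := lt_of_le_of_ne ha har
      have hmul : ∀ b, analyticOrderNatAt G b = analyticOrderNatAt (fun z => z - a) b +
          analyticOrderNatAt (dslope G a) b := by
        intro b
        have h3 : G = (fun z => z - a) * dslope G a := funext hGH
        have h4 : AnalyticAt ℂ (fun z : ℂ => z - a) b := by fun_prop
        conv_lhs => rw [h3]
        refine analyticOrderNatAt_mul h4 (hH.analyticAt b) ?_ (order_ne_top hH hH0 b)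
        intro h
        rw [analyticOrderAt_eq_top] at h
        have h50 : AnalyticOnNhd ℂ (fun z : ℂ => z - a) Set.univ := fun z _ =>
          analyticAt_id.sub analyticAt_const
        have h5 : Set.EqOn (fun z : ℂ => z - a) 0 Set.univ :=
          h50.eqOn_zero_of_preconnected_of_eventuallyEq_zero isPreconnected_univ (Set.mem_univ b) h
        have h6 := h5 (Set.mem_univ (a + 1))
        simp at h6
      have hone : analyticOrderNatAt (fun z => z - a) a = 1 := by
        have h3 : analyticOrderAt (fun z : ℂ => z - a) a = ((1 : ℕ) : ℕ∞) := by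
          rw [AnalyticAt.analyticOrderAt_eq_natCast (by fun_prop)]
          refine ⟨fun _ => 1, analyticAt_const, one_ne_zero, Eventually.of_forall fun z => ?_⟩
          simp
        unfold analyticOrderNatAt
        rw [h3]
        rfl
      have hzero : ∀ b, b ≠ a → analyticOrderNatAt (fun z => z - a) b = 0 := by
        intro b hb
        have h3 : analyticOrderAt (fun z : ℂ => z - a) b = 0 := by
          rw [analyticOrderAt_eq_zero]
          exact Or.inr (sub_ne_zero.2 hb)
        unfold analyticOrderNatAt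
        rw [h3]
        rfl
      have haZ : a ∈ Z := hZ a ha hGa
      have htot' : tot (dslope G a) Z = n := by
        have h3 : tot G Z = 1 + tot (dslope G a) Z := by
          unfold tot
          rw [Finset.sum_congr rfl fun b _ => hmul b, Finset.sum_add_distrib]
          congr 1
          rw [Finset.sum_eq_single a (fun b _ hb => hzero b hb) (fun h => absurd haZ h), hone]
        omega
      have hne1 : ∀ u : ℂ, ‖u‖ = ρ → dslope G a u ≠ 0 := fun u hu h =>
        h1 u hu (by rw [hGH, h, mul_zero])
      have hne2 : ∀ u : ℂ, ‖u‖ = r → dslope G a u ≠ 0 := fun u hu h =>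
        h2 u hu (by rw [hGH, h, mul_zero])
      have hih := ih (dslope G a) hH hH0 hne1 hne2
        (fun u hu h => hZ u hu (by rw [hGH, h, mul_zero])) htot'
      rw [split hH hGH hρ h1, split hH hGH hr h2, circle_inv_in har', Complex.add_im,
        Complex.add_im]
      have hpi := Real.pi_pos
      have hI : (2 * (π : ℂ) * I).im = 2 * π := by simp
      rw [hI]
      rcases lt_or_gt_of_ne haρ with h3 | h3
      · rw [circle_inv_in h3, hI]
        linarith
      · rw [circle_inv_out hρ.le h3, Complex.zero_im]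
        linarith

theorem wind_mono {G : ℂ → ℂ} (hG : Differentiable ℂ G) (hG0 : G 0 ≠ 0) {ρ r : ℝ} (hρ : 0 < ρ)
    (hρr : ρ ≤ r) (h1 : ∀ u : ℂ, ‖u‖ = ρ → G u ≠ 0) (h2 : ∀ u : ℂ, ‖u‖ = r → G u ≠ 0) :
    (∮ z in C(0, ρ), deriv G z / G z).im ≤ (∮ z in C(0, r), deriv G z / G z).im := by
  refine wind_aux (finite_zeros hG hG0 r).toFinset hρ hρr _ G hG hG0 h1 h2 (fun u hu h => ?_) rfl
  rw [Set.Finite.mem_toFinset]
  exact ⟨hu, h⟩

end SokalBPlus
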